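import Pool.Agent.H.MP_9123af_lc.Core

/-!
# The two homogeneous patterns are impossible
-/

namespace Pool.Agent.H.MP_9123af_lc

open Finset

variable {F : Type*} [Field F] {ι E : Type*} [Fintype ι] [DecidableEq ι] [DecidableEq E]

theorem eval_dot (ψ d : ι → F) (B₀ : Finset ι) (x₁ x₂ : ι) (hx₁ : x₁ ∉ B₀) (hx₂ : x₂ ∉ B₀)
    (hne : x₁ ≠ x₂) (h : ∀ x, x ∉ B₀ → x ≠ x₁ → x ≠ x₂ → ψ x * d x = 0) :
    ψ ⬝ᵥ d = ψ x₁ * d x₁ + ψ x₂ * d x₂ + ∑ x ∈ B₀, ψ x * d x := by
  have h1 : ψ ⬝ᵥ d = ∑ x ∈ insert x₁ (insert x₂ B₀), ψ x * d x := by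
    rw [dotProduct]
    symm
    apply Finset.sum_subset (Finset.subset_univ _)
    intro x _ hx
    rw [Finset.mem_insert, Finset.mem_insert] at hx
    push Not at hx
    exact h x hx.2.2 hx.1 hx.2.1
  rw [h1, Finset.sum_insert, Finset.sum_insert hx₂]
  · ring
  · rw [Finset.mem_insert]
    push Not
    exact ⟨hne, hx₁⟩

/-- First pattern: the values off the diagonal are all equal. -/
theorem diag_case {D₁ D₂ : E → ι → F} {emb : ι → E}
    (hemb₁ : ∀ i, D₁ (emb i) = Pi.single i 1) (hemb₂ : ∀ i, D₂ (emb i) = Pi.single i 1)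
    {S : Finset E} (d : Data D₁ D₂ emb S) (hS : S.card = Fintype.card ι)
    (hmin : Agree D₁ D₂ emb S) (p : ℕ) (hp : (p : F) = 0) (hp0 : 0 < p)
    (y : ℕ → E) (b : ℕ → ι) (hy : ∀ i < p, y i ∈ d.Y ∧ y i ≠ d.y₀)
    (hinj : ∀ i < p, ∀ j < p, y i = y j → i = j) (hb : ∀ i < p, b i ∈ d.J)
    (u t u' t' : F) (hut : t ≠ u)
    (hg : ∀ i < p, ∀ j < p, d.G (y i) (b j) / d.G d.y₀ (b j) = if i = j then t else u)
    (hs : ∀ i < p, ∀ j < p, d.σ (y i) (b j) / d.μ (b j) = if i = j then t' else u') : False := by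
  have hg' : ∀ i < p, ∀ j < p, d.G (y i) (b j) = d.G d.y₀ (b j) * (if i = j then t else u) := by
    intro i hi j hj
    rw [← hg i hi j hj, mul_div_cancel₀ _ (d.hG0 _ (hb j hj))]
  have hs' : ∀ i < p, ∀ j < p, d.σ (y i) (b j) = d.μ (b j) * (if i = j then t' else u') := by
    intro i hi j hj
    rw [← hs i hi j hj, mul_div_cancel₀ _ (d.hμJ _ (hb j hj))]
  have hsum : ∀ (c : ℕ → F) (x z : F) (j : ℕ), j < p →
      ∑ i ∈ range p, c i * (if i = j then x else z) = (∑ i ∈ range p, c i) * z + c j * (x - z) := by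
    intro c x z j hj
    have e1 : ∀ i ∈ range p, c i * (if i = j then x else z) =
        c i * z + (if i = j then c i * (x - z) else 0) := by
      intro i _
      split_ifs <;> ring
    rw [Finset.sum_congr rfl e1, Finset.sum_add_distrib, ← Finset.sum_mul,
      Finset.sum_ite_eq' (range p) j, if_pos (Finset.mem_range.2 hj)]
  refine d.combine hS hmin p y hy hinj ((range p).image (fun j => emb (b j))) ?_ ?_ ?_
    (fun _ => 1) (u' - t') ?_ ?_ ?_
  · exact Finset.card_image_le.trans (by rw [Finset.card_range])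
  · exact ⟨b 0, Finset.mem_image.2 ⟨0, Finset.mem_range.2 hp0, rfl⟩⟩
  · intro a ha
    have e1 : ∀ j < p, (∑ i ∈ range p, a i) * u + a j * (t - u) = 0 := by
      intro j hj
      have e2 := ha (emb (b j)) (Finset.mem_image.2 ⟨j, Finset.mem_range.2 hj, rfl⟩)
      have e3 : ∑ i ∈ range p, a i * (d.G (y i) ⬝ᵥ D₁ (emb (b j))) =
          d.G d.y₀ (b j) * ∑ i ∈ range p, a i * (if i = j then t else u) := by
        rw [Finset.mul_sum]
        apply Finset.sum_congr rfl
        intro i hi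
        rw [hemb₁, dotProduct_single, mul_one, hg' i (Finset.mem_range.1 hi) j hj]
        ring
      rw [e3, hsum a t u j hj] at e2
      exact (mul_eq_zero.1 e2).resolve_left (d.hG0 _ (hb j hj))
    have e4 : (∑ i ∈ range p, a i) * (t - u) = 0 := by
      have e5 : ∑ j ∈ range p, ((∑ i ∈ range p, a i) * u + a j * (t - u)) = 0 :=
        Finset.sum_eq_zero (fun j hj => e1 j (Finset.mem_range.1 hj))
      rw [Finset.sum_add_distrib, Finset.sum_const, Finset.card_range,
        nsmul_eq_mul, hp, zero_mul, zero_add, ← Finset.sum_mul] at e5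
      exact e5
    have e6 : ∑ i ∈ range p, a i = 0 := (mul_eq_zero.1 e4).resolve_right (sub_ne_zero.2 hut)
    intro i hi
    have e7 := e1 i hi
    rw [e6, zero_mul, zero_add] at e7
    exact (mul_eq_zero.1 e7).resolve_right (sub_ne_zero.2 hut)
  · rw [Finset.sum_const, Finset.card_range, nsmul_eq_mul, hp, zero_mul]
  · intro e he
    rw [Finset.mem_image] at he
    obtain ⟨j, hj, rfl⟩ := he
    have hj' := Finset.mem_range.1 hj
    have e3 : ∑ i ∈ range p, (1 : F) * (d.σ (y i) ⬝ᵥ D₂ (emb (b j))) =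
        d.μ (b j) * ∑ i ∈ range p, (1 : F) * (if i = j then t' else u') := by
      rw [Finset.mul_sum]
      apply Finset.sum_congr rfl
      intro i hi
      rw [hemb₂, dotProduct_single, mul_one, hs' i (Finset.mem_range.1 hi) j hj']
      ring
    rw [e3, hsum (fun _ => 1) t' u' j hj', hemb₂, dotProduct_single, Finset.sum_const,
      Finset.card_range, nsmul_eq_mul, hp]
    ring
  · exact Or.inl ⟨0, hp0, one_ne_zero⟩

/-- Second pattern: different values below and above the diagonal, together with elements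
(chords) whose support lies in the pattern. -/
theorem tri_case {D₁ D₂ : E → ι → F} {emb : ι → E}
    (hemb₁ : ∀ i, D₁ (emb i) = Pi.single i 1) (hemb₂ : ∀ i, D₂ (emb i) = Pi.single i 1)
    {S : Finset E} (d : Data D₁ D₂ emb S) (hS : S.card = Fintype.card ι)
    (hmin : Agree D₁ D₂ emb S) (B₀ : Finset ι) (w : ℕ) (hw : 2 ≤ w)
    (R : ℕ → E) (V : ℕ → ι) (hR : ∀ i < 4 * w, R i ∈ d.Y ∧ R i ≠ d.y₀)
    (hRinj : ∀ i < 4 * w, ∀ j < 4 * w, R i = R j → i = j)
    (hV : ∀ j ≤ 4 * w, V j ∈ d.J ∧ V j ∉ B₀)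
    (hVinj : ∀ i ≤ 4 * w, ∀ j ≤ 4 * w, V i = V j → i = j)
    (u v u' v' : F) (huv : u ≠ v) (huv' : u' ≠ v')
    (hg : ∀ i < 4 * w, ∀ j ≤ 4 * w,
      d.G (R i) (V j) / d.G d.y₀ (V j) = if i < j then u else v)
    (hs : ∀ i < 4 * w, ∀ j ≤ 4 * w, d.σ (R i) (V j) / d.μ (V j) = if i < j then u' else v')
    (g₀ s₀ : ι → F) (hg₀ : ∀ i < 4 * w, ∀ x ∈ B₀, d.G (R i) x = g₀ x)
    (hs₀ : ∀ i < 4 * w, ∀ x ∈ B₀, d.σ (R i) x = s₀ x)
    (A₁ A₂ κ A₁' A₂' κ' : F) (hA₁ : A₁ ≠ 0) (hA₂ : A₂ ≠ 0) (hA₁' : A₁' ≠ 0) (hA₂' : A₂' ≠ 0)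
    (ch : ∀ x y, (x = 0 ∧ y = 3 * w) ∨ (x = 2 * w ∧ y = 3 * w) ∨ (x = w ∧ y = 2 * w) ∨
      (x = w ∧ y = 4 * w) → ∃ e,
        (∀ z, z ∉ B₀ → z ≠ V x → z ≠ V y →
          ((D₁ e z = 0 ∧ D₂ e z = 0) ∨ ∃ j, x < j ∧ j < x + w ∧ z = V j)) ∧
        D₁ e (V x) * d.G d.y₀ (V x) = A₁ ∧ D₁ e (V y) * d.G d.y₀ (V y) = A₂ ∧
        ∑ z ∈ B₀, D₁ e z * g₀ z = κ ∧
        D₂ e (V x) * d.μ (V x) = A₁' ∧ D₂ e (V y) * d.μ (V y) = A₂' ∧
        ∑ z ∈ B₀, D₂ e z * d.μ z = κ') : False := by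
  classical
  have hg' : ∀ i < 4 * w, ∀ j ≤ 4 * w,
      d.G (R i) (V j) = d.G d.y₀ (V j) * (if i < j then u else v) := by
    intro i hi j hj
    rw [← hg i hi j hj, mul_div_cancel₀ _ (d.hG0 _ (hV j hj).1)]
  have hs' : ∀ i < 4 * w, ∀ j ≤ 4 * w,
      d.σ (R i) (V j) = d.μ (V j) * (if i < j then u' else v') := by
    intro i hi j hj
    rw [← hs i hi j hj, mul_div_cancel₀ _ (d.hμJ _ (hV j hj).1)]
  obtain ⟨e₁, h₁⟩ := ch 0 (3 * w) (Or.inl ⟨rfl, rfl⟩)
  obtain ⟨e₂, h₂⟩ := ch (2 * w) (3 * w) (Or.inr (Or.inl ⟨rfl, rfl⟩))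
  obtain ⟨e₃, h₃⟩ := ch w (2 * w) (Or.inr (Or.inr (Or.inl ⟨rfl, rfl⟩)))
  obtain ⟨e₄, h₄⟩ := ch w (4 * w) (Or.inr (Or.inr (Or.inr ⟨rfl, rfl⟩)))
  clear ch
  set alive : Finset ℕ := {0, w, 2 * w, 3 * w, 4 * w} with halive
  have hal : ∀ j, j ∈ alive ↔ j = 0 ∨ j = w ∨ j = 2 * w ∨ j = 3 * w ∨ j = 4 * w := by
    intro j; simp [halive]
  have halc : alive.card = 5 := by
    rw [halive, Finset.card_insert_of_notMem, Finset.card_insert_of_notMem,
      Finset.card_insert_of_notMem, Finset.card_insert_of_notMem, Finset.card_singleton]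
    · rw [Finset.mem_singleton]; omega
    · rw [Finset.mem_insert, Finset.mem_singleton]; omega
    · rw [Finset.mem_insert, Finset.mem_insert, Finset.mem_singleton]; omega
    · rw [Finset.mem_insert, Finset.mem_insert, Finset.mem_insert, Finset.mem_singleton]; omega
  set killed : Finset ℕ := range (4 * w + 1) \ alive with hkilled
  have hkc : killed.card = 4 * w + 1 - 5 := by
    rw [hkilled, Finset.card_sdiff_of_subset, Finset.card_range, halc]
    intro j hj
    rw [hal] at hj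
    rw [Finset.mem_range]; omega
  have hk : ∀ j, j ∈ killed ↔ j ≤ 4 * w ∧ j ∉ alive := by
    intro j
    rw [hkilled, Finset.mem_sdiff, Finset.mem_range, Nat.lt_succ_iff]
  set F₀ : Finset E := killed.image (fun j => emb (V j)) ∪ {e₁, e₂, e₃, e₄} with hF₀
  have hFk : ∀ j ∈ killed, emb (V j) ∈ F₀ := fun j hj =>
    Finset.mem_union_left _ (Finset.mem_image.2 ⟨j, hj, rfl⟩)
  have hF1 : e₁ ∈ F₀ := Finset.mem_union_right _ (by simp)
  have hF2 : e₂ ∈ F₀ := Finset.mem_union_right _ (by simp)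
  have hF3 : e₃ ∈ F₀ := Finset.mem_union_right _ (by simp)
  have hF4 : e₄ ∈ F₀ := Finset.mem_union_right _ (by simp)
  have hmid : ∀ x j, (x = 0 ∨ x = w ∨ x = 2 * w ∨ x = 3 * w) → x < j → j < x + w →
      j ∈ killed := by
    intro x j hx h1 h2
    rw [hk, hal]
    omega
  -- evaluation of a functional that is known on the pattern
  have evalG : ∀ (D : E → ι → F) (ψ : ι → F) (Γ : ι → F) (Ψ : ℕ → F) (ρ : ι → F) (α₁ α₂ k₀ : F)
      (x y : ℕ) (e : E), (x = 0 ∨ x = w ∨ x = 2 * w ∨ x = 3 * w) → x < y → y ≤ 4 * w →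
      (∀ j ≤ 4 * w, ψ (V j) = Γ (V j) * Ψ j) → (∀ j ∈ killed, Ψ j = 0) →
      (∀ z ∈ B₀, ψ z = ρ z) →
      (∀ z, z ∉ B₀ → z ≠ V x → z ≠ V y → (D e z = 0 ∨ ∃ j, x < j ∧ j < x + w ∧ z = V j)) →
      D e (V x) * Γ (V x) = α₁ → D e (V y) * Γ (V y) = α₂ → ∑ z ∈ B₀, D e z * ρ z = k₀ →
      ψ ⬝ᵥ D e = α₁ * Ψ x + α₂ * Ψ y + k₀ := by
    intro D ψ Γ Ψ ρ α₁ α₂ k₀ x y e hx hxy hy hψ hkill hρ hsup h1 h2 h3
    have hx4 : x ≤ 4 * w := by omega
    rw [eval_dot ψ (D e) B₀ (V x) (V y) (hV x hx4).2 (hV y hy).2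
      (fun h => (ne_of_lt hxy) (hVinj x hx4 y hy h)), hψ x hx4, hψ y hy, ← h1, ← h2, ← h3]
    · have e1 : ∑ z ∈ B₀, ψ z * D e z = ∑ z ∈ B₀, D e z * ρ z := by
        apply Finset.sum_congr rfl
        intro z hz
        rw [hρ z hz]; ring
      rw [e1]; ring
    · intro z hz hzx hzy
      rcases hsup z hz hzx hzy with h | ⟨j, hj1, hj2, rfl⟩
      · rw [h, mul_zero]
      · have hjk := hmid x j hx hj1 hj2
        rw [hψ j ((hk j).1 hjk).1, hkill j hjk]
        ring
  refine d.combine hS hmin (4 * w) R hR hRinj F₀ ?_ ?_ ?_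
    (fun i => ((if i + 1 = 2 * w ∨ i + 1 = 4 * w then 1 else
        if i + 1 = 3 * w then -(A₁' + κ') / A₂' else
        if i + 1 = w then -(A₂' + κ') / A₁' else 0) -
      (if i = 0 ∨ i = 2 * w ∨ i = 4 * w then 1 else
        if i = 3 * w then -(A₁' + κ') / A₂' else
        if i = w then -(A₂' + κ') / A₁' else 0)) / (u' - v')) 1 ?_ ?_ ?_
  · refine (Finset.card_union_le _ _).trans ?_
    have c1 : (killed.image (fun j => emb (V j))).card ≤ 4 * w + 1 - 5 :=
      Finset.card_image_le.trans (le_of_eq hkc)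
    have c2 : ({e₁, e₂, e₃, e₄} : Finset E).card ≤ 4 := Finset.card_le_four
    omega
  · refine ⟨V 1, hFk 1 ?_⟩
    rw [hk, hal]; omega
  · -- nonsingular for the first system
    intro a ha
    set ψ : ι → F := ∑ i ∈ range (4 * w), a i • d.G (R i) with hψdef
    have hψD : ∀ e ∈ F₀, ψ ⬝ᵥ D₁ e = 0 := by
      intro e he
      rw [hψdef, sum_dotProduct, ← ha e he]
      apply Finset.sum_congr rfl
      intro i _
      rw [smul_dotProduct, smul_eq_mul]
    set Ψ : ℕ → F := fun j => ∑ i ∈ range (4 * w), a i * (if i < j then u else v) with hΨdef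
    have hψV : ∀ j ≤ 4 * w, ψ (V j) = d.G d.y₀ (V j) * Ψ j := by
      intro j hj
      rw [hψdef, Finset.sum_apply, hΨdef]
      simp only
      rw [Finset.mul_sum]
      apply Finset.sum_congr rfl
      intro i hi
      rw [Pi.smul_apply, smul_eq_mul, hg' i (Finset.mem_range.1 hi) j hj]
      ring
    have hkill : ∀ j ∈ killed, Ψ j = 0 := by
      intro j hj
      have e1 := hψD _ (hFk j hj)
      have hj4 := ((hk j).1 hj).1
      rw [hemb₁, dotProduct_single, mul_one, hψV j hj4] at e1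
      exact (mul_eq_zero.1 e1).resolve_left (d.hG0 _ (hV j hj4).1)
    set s := ∑ i ∈ range (4 * w), a i with hsdef
    have hρ : ∀ z ∈ B₀, ψ z = s * g₀ z := by
      intro z hz
      rw [hψdef, Finset.sum_apply, hsdef, Finset.sum_mul]
      apply Finset.sum_congr rfl
      intro i hi
      rw [Pi.smul_apply, smul_eq_mul, hg₀ i (Finset.mem_range.1 hi) z hz]
    have hκ : ∀ e, ∑ z ∈ B₀, D₁ e z * g₀ z = κ → ∑ z ∈ B₀, D₁ e z * (s * g₀ z) = s * κ := by
      intro e he
      rw [← he, Finset.mul_sum]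
      apply Finset.sum_congr rfl
      intro z _; ring
    have E1 := evalG D₁ ψ (d.G d.y₀) Ψ (fun z => s * g₀ z) A₁ A₂ (s * κ) 0 (3 * w) e₁
      (by omega) (by omega) (by omega) hψV hkill hρ
      (fun z a b c => (h₁.1 z a b c).imp And.left id) h₁.2.1 h₁.2.2.1 (hκ _ h₁.2.2.2.1)
    have E2 := evalG D₁ ψ (d.G d.y₀) Ψ (fun z => s * g₀ z) A₁ A₂ (s * κ) (2 * w) (3 * w) e₂
      (by omega) (by omega) (by omega) hψV hkill hρ
      (fun z a b c => (h₂.1 z a b c).imp And.left id) h₂.2.1 h₂.2.2.1 (hκ _ h₂.2.2.2.1)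
    have E3 := evalG D₁ ψ (d.G d.y₀) Ψ (fun z => s * g₀ z) A₁ A₂ (s * κ) w (2 * w) e₃
      (by omega) (by omega) (by omega) hψV hkill hρ
      (fun z a b c => (h₃.1 z a b c).imp And.left id) h₃.2.1 h₃.2.2.1 (hκ _ h₃.2.2.2.1)
    have E4 := evalG D₁ ψ (d.G d.y₀) Ψ (fun z => s * g₀ z) A₁ A₂ (s * κ) w (4 * w) e₄
      (by omega) (by omega) (by omega) hψV hkill hρ
      (fun z a b c => (h₄.1 z a b c).imp And.left id) h₄.2.1 h₄.2.2.1 (hκ _ h₄.2.2.2.1)
    rw [hψD _ hF1] at E1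
    rw [hψD _ hF2] at E2
    rw [hψD _ hF3] at E3
    rw [hψD _ hF4] at E4
    have P0 : Ψ 0 = v * s := by
      rw [hΨdef, hsdef, Finset.mul_sum]
      apply Finset.sum_congr rfl
      intro i _
      rw [if_neg (Nat.not_lt_zero i)]; ring
    have P4 : Ψ (4 * w) = u * s := by
      rw [hΨdef, hsdef, Finset.mul_sum]
      apply Finset.sum_congr rfl
      intro i hi
      rw [if_pos (Finset.mem_range.1 hi)]; ring
    have Q1 : A₁ * (Ψ 0 - Ψ (2 * w)) = 0 := by linear_combination E2 - E1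
    have Q2 : A₂ * (Ψ (2 * w) - Ψ (4 * w)) = 0 := by linear_combination E4 - E3
    have Q1' : Ψ 0 = Ψ (2 * w) := sub_eq_zero.1 ((mul_eq_zero.1 Q1).resolve_left hA₁)
    have Q2' : Ψ (2 * w) = Ψ (4 * w) := sub_eq_zero.1 ((mul_eq_zero.1 Q2).resolve_left hA₂)
    have Q3 : (u - v) * s = 0 := by
      have : Ψ 0 = Ψ (4 * w) := Q1'.trans Q2'
      rw [P0, P4] at this
      linear_combination -this
    have hs0 : s = 0 := (mul_eq_zero.1 Q3).resolve_left (sub_ne_zero.2 huv)
    have Z0 : Ψ 0 = 0 := by rw [P0, hs0, mul_zero]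
    have Z2 : Ψ (2 * w) = 0 := by rw [← Q1', Z0]
    have Z4 : Ψ (4 * w) = 0 := by rw [← Q2', Z2]
    have Z3 : Ψ (3 * w) = 0 := by
      rw [Z0, hs0] at E1
      have : A₂ * Ψ (3 * w) = 0 := by linear_combination -E1
      exact (mul_eq_zero.1 this).resolve_left hA₂
    have Z1 : Ψ w = 0 := by
      rw [Z2, hs0] at E3
      have : A₁ * Ψ w = 0 := by linear_combination -E3
      exact (mul_eq_zero.1 this).resolve_left hA₁
    have Zall : ∀ j ≤ 4 * w, Ψ j = 0 := by
      intro j hj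
      by_cases hja : j ∈ alive
      · rw [hal] at hja
        rcases hja with rfl | rfl | rfl | rfl | rfl
        · exact Z0
        · exact Z1
        · exact Z2
        · exact Z3
        · exact Z4
      · exact hkill j ((hk j).2 ⟨hj, hja⟩)
    intro i hi
    have hdiff : Ψ (i + 1) - Ψ i = (u - v) * a i := by
      rw [hΨdef]
      simp only
      rw [← Finset.sum_sub_distrib, Finset.sum_eq_single i]
      · rw [if_pos (Nat.lt_succ_self i), if_neg (lt_irrefl i)]; ring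
      · intro k _ hki
        by_cases h : k < i
        · rw [if_pos h, if_pos (by omega)]; ring
        · rw [if_neg h, if_neg (by omega)]; ring
      · intro h; exact absurd (Finset.mem_range.2 hi) h
    rw [Zall (i + 1) (by omega), Zall i (by omega), sub_zero] at hdiff
    exact (mul_eq_zero.1 hdiff.symm).resolve_left (sub_ne_zero.2 huv)
  all_goals
    set Ψ : ℕ → F := fun j => if j = 0 ∨ j = 2 * w ∨ j = 4 * w then 1 else
        if j = 3 * w then -(A₁' + κ') / A₂' else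
        if j = w then -(A₂' + κ') / A₁' else 0 with hΨdef
  all_goals
    have hΨ1 : ∀ i : ℕ, (if i + 1 = 2 * w ∨ i + 1 = 4 * w then (1 : F) else
        if i + 1 = 3 * w then -(A₁' + κ') / A₂' else
        if i + 1 = w then -(A₂' + κ') / A₁' else 0) = Ψ (i + 1) := by
      intro i
      rw [hΨdef]
      simp
  all_goals
    have hΨ0 : ∀ i : ℕ, (if i = 0 ∨ i = 2 * w ∨ i = 4 * w then (1 : F) else
        if i = 3 * w then -(A₁' + κ') / A₂' else
        if i = w then -(A₂' + κ') / A₁' else 0) = Ψ i := fun i => rfl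
  all_goals
    have V0 : Ψ 0 = 1 := by rw [hΨdef]; simp
  all_goals
    have V2 : Ψ (2 * w) = 1 := by rw [hΨdef]; simp
  all_goals
    have V4 : Ψ (4 * w) = 1 := by rw [hΨdef]; simp
  all_goals
    have V3 : Ψ (3 * w) = -(A₁' + κ') / A₂' := by
      rw [hΨdef]; beta_reduce
      rw [if_neg (by omega), if_pos rfl]
  all_goals
    have V1 : Ψ w = -(A₂' + κ') / A₁' := by
      rw [hΨdef]; beta_reduce
      rw [if_neg (by omega), if_neg (by omega), if_pos rfl]
  all_goals
    have hduv := sub_ne_zero.2 huv'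
  · simp only [hΨ1, hΨ0]
    rw [← Finset.sum_div, Finset.sum_range_sub, V4, V0]
    simp
  · intro e he
    simp only [hΨ1, hΨ0]
    set a : ℕ → F := fun i => (Ψ (i + 1) - Ψ i) / (u' - v') with hadef
    have hasum : ∀ j ≤ 4 * w, ∑ i ∈ range (4 * w), a i * (if i < j then u' else v') =
        Ψ j - 1 := by
      intro j hj
      have e1 : ∀ i ∈ range (4 * w), a i * (if i < j then u' else v') =
          a i * v' + (if i < j then (Ψ (i + 1) - Ψ i) else 0) := by
        intro i _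
        split_ifs
        · rw [hadef]; field_simp; ring
        · ring
      rw [Finset.sum_congr rfl e1, Finset.sum_add_distrib, ← Finset.sum_mul]
      have e2 : ∑ i ∈ range (4 * w), a i = 0 := by
        rw [hadef]
        simp only
        rw [← Finset.sum_div, Finset.sum_range_sub, V4, V0]
        simp
      have e3 : ∑ i ∈ range (4 * w), (if i < j then (Ψ (i + 1) - Ψ i) else 0) =
          ∑ i ∈ range j, (Ψ (i + 1) - Ψ i) := by
        rw [← Finset.sum_filter]
        apply Finset.sum_congr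
        · ext i
          rw [Finset.mem_filter, Finset.mem_range, Finset.mem_range]
          omega
        · intro i _; rfl
      rw [e2, e3, Finset.sum_range_sub, V0]
      ring
    have hazero : ∑ i ∈ range (4 * w), a i = 0 := by
      rw [hadef]
      simp only
      rw [← Finset.sum_div, Finset.sum_range_sub, V4, V0]
      simp
    set ψ : ι → F := (∑ i ∈ range (4 * w), a i • d.σ (R i)) + d.μ with hψdef
    have hψD : ∀ e, ∑ i ∈ range (4 * w), a i * (d.σ (R i) ⬝ᵥ D₂ e) + 1 * (d.μ ⬝ᵥ D₂ e) =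
        ψ ⬝ᵥ D₂ e := by
      intro e
      rw [hψdef, add_dotProduct, sum_dotProduct, one_mul]
      congr 1
      apply Finset.sum_congr rfl
      intro i _
      rw [smul_dotProduct, smul_eq_mul]
    have hψV : ∀ j ≤ 4 * w, ψ (V j) = d.μ (V j) * Ψ j := by
      intro j hj
      have e1 : ψ (V j) = d.μ (V j) * (∑ i ∈ range (4 * w), a i * (if i < j then u' else v')) +
          d.μ (V j) := by
        rw [hψdef, Pi.add_apply, Finset.sum_apply, Finset.mul_sum]
        congr 1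
        apply Finset.sum_congr rfl
        intro i hi
        rw [Pi.smul_apply, smul_eq_mul, hs' i (Finset.mem_range.1 hi) j hj]
        ring
      rw [e1, hasum j hj]
      ring
    have hkill : ∀ j ∈ killed, Ψ j = 0 := by
      intro j hj
      have hj' := ((hk j).1 hj).2
      rw [hal] at hj'
      rw [hΨdef]; beta_reduce
      rw [if_neg (by omega), if_neg (by omega), if_neg (by omega)]
    have hρ : ∀ z ∈ B₀, ψ z = d.μ z := by
      intro z hz
      rw [hψdef, Pi.add_apply, Finset.sum_apply]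
      have e1 : ∑ i ∈ range (4 * w), (a i • d.σ (R i)) z = (∑ i ∈ range (4 * w), a i) * s₀ z := by
        rw [Finset.sum_mul]
        apply Finset.sum_congr rfl
        intro i hi
        rw [Pi.smul_apply, smul_eq_mul, hs₀ i (Finset.mem_range.1 hi) z hz]
      rw [e1, hazero, zero_mul, zero_add]
    rw [hψD]
    rw [hF₀, Finset.mem_union, Finset.mem_image] at he
    rcases he with ⟨j, hj, rfl⟩ | he
    · rw [hemb₂, dotProduct_single, mul_one, hψV j ((hk j).1 hj).1, hkill j hj, mul_zero]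
    · simp only [Finset.mem_insert, Finset.mem_singleton] at he
      rcases he with rfl | rfl | rfl | rfl
      · rw [evalG D₂ ψ d.μ Ψ d.μ A₁' A₂' κ' 0 (3 * w) e
          (by omega) (by omega) (by omega) hψV hkill hρ
          (fun z a b c => (h₁.1 z a b c).imp And.right id) h₁.2.2.2.2.1 h₁.2.2.2.2.2.1
          h₁.2.2.2.2.2.2, V0, V3]
        field_simp
        ring
      · rw [evalG D₂ ψ d.μ Ψ d.μ A₁' A₂' κ' (2 * w) (3 * w) e
          (by omega) (by omega) (by omega) hψV hkill hρ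
          (fun z a b c => (h₂.1 z a b c).imp And.right id) h₂.2.2.2.2.1 h₂.2.2.2.2.2.1
          h₂.2.2.2.2.2.2, V2, V3]
        field_simp
        ring
      · rw [evalG D₂ ψ d.μ Ψ d.μ A₁' A₂' κ' w (2 * w) e
          (by omega) (by omega) (by omega) hψV hkill hρ
          (fun z a b c => (h₃.1 z a b c).imp And.right id) h₃.2.2.2.2.1 h₃.2.2.2.2.2.1
          h₃.2.2.2.2.2.2, V1, V2]
        field_simp
        ring
      · rw [evalG D₂ ψ d.μ Ψ d.μ A₁' A₂' κ' w (4 * w) e
          (by omega) (by omega) (by omega) hψV hkill hρ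
          (fun z a b c => (h₄.1 z a b c).imp And.right id) h₄.2.2.2.2.1 h₄.2.2.2.2.2.1
          h₄.2.2.2.2.2.2, V1, V4]
        field_simp
        ring
  · exact Or.inr one_ne_zero

end Pool.Agent.H.MP_9123af_lc
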