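import Mathlib

/-!
# Exchange tests for two coordinate systems with the same distinguished basis
-/

namespace Pool.Agent.H.MP_9123af_lc

open Finset

variable {F : Type*} [Field F] {ι E : Type*} [Fintype ι] [DecidableEq ι] [DecidableEq E]

/-- No nonzero functional vanishes on the vectors of `T`. -/
def NS (D : E → ι → F) (T : Finset E) : Prop :=
  ∀ ψ : ι → F, (∀ e ∈ T, ψ ⬝ᵥ D e = 0) → ψ = 0

theorem NS.card_le {D : E → ι → F} {T : Finset E} (h : NS D T) : Fintype.card ι ≤ T.card := by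
  classical
  let Φ : (ι → F) →ₗ[F] (T → F) :=
    { toFun := fun ψ s => ψ ⬝ᵥ D s
      map_add' := by intro x y; funext s; simp [add_dotProduct]
      map_smul' := by intro c x; funext s; simp [smul_dotProduct] }
  have hinj : Function.Injective Φ := by
    rw [← LinearMap.ker_eq_bot, LinearMap.ker_eq_bot']
    intro ψ hψ
    exact h ψ (fun e he => by simpa [Φ] using congrFun hψ ⟨e, he⟩)
  have := LinearMap.finrank_le_finrank_of_injective hinj
  simpa using this

theorem exists_dual (D : E → ι → F) (S : Finset E) (hS : S.card = Fintype.card ι) (h : NS D S) :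
    ∃ G : E → ι → F, (∀ s ∈ S, ∀ t ∈ S, G s ⬝ᵥ D t = if s = t then 1 else 0) ∧
      ∀ ψ : ι → F, ψ = ∑ s ∈ S, (ψ ⬝ᵥ D s) • G s := by
  classical
  let Φ : (ι → F) →ₗ[F] (S → F) :=
    { toFun := fun ψ s => ψ ⬝ᵥ D s
      map_add' := by intro x y; funext s; simp [add_dotProduct]
      map_smul' := by intro c x; funext s; simp [smul_dotProduct] }
  have hinj : Function.Injective Φ := by
    rw [← LinearMap.ker_eq_bot, LinearMap.ker_eq_bot']
    intro ψ hψ
    exact h ψ (fun e he => by simpa [Φ] using congrFun hψ ⟨e, he⟩)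
  have hsurj : Function.Surjective Φ := by
    refine (LinearMap.injective_iff_surjective_of_finrank_eq_finrank ?_).1 hinj
    simp [hS]
  choose g hg using fun s : S => hsurj (Pi.single s 1)
  refine ⟨fun s => if hs : s ∈ S then g ⟨s, hs⟩ else 0, ?_, ?_⟩
  · intro s hs t ht
    simp only [hs, dif_pos]
    have h1 := congrFun (hg ⟨s, hs⟩) ⟨t, ht⟩
    have h2 : g ⟨s, hs⟩ ⬝ᵥ D t = (Pi.single (⟨s, hs⟩ : S) (1 : F) : S → F) ⟨t, ht⟩ := h1
    rw [h2, Pi.single_apply]
    by_cases hst : s = t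
    · subst hst; simp
    · rw [if_neg hst, if_neg]
      intro h3
      exact hst (congrArg Subtype.val h3).symm
  · intro ψ
    apply hinj
    rw [map_sum]
    funext t
    rw [Finset.sum_apply]
    have h3 : ∀ s ∈ S, (Φ ((ψ ⬝ᵥ D s) • (if hs : s ∈ S then g ⟨s, hs⟩ else 0))) t =
        (ψ ⬝ᵥ D s) * (if s = (t : E) then 1 else 0) := by
      intro s hs
      simp only [hs, dif_pos]
      rw [map_smul, hg]
      rw [Pi.smul_apply, Pi.single_apply, smul_eq_mul]
      congr 1
      by_cases hst : s = (t : E)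
      · rw [if_pos hst, if_pos]
        exact Subtype.ext hst.symm
      · rw [if_neg hst, if_neg]
        intro h3
        exact hst (congrArg Subtype.val h3).symm
    rw [Finset.sum_congr rfl h3]
    simp [Φ]

/-- one exchange -/
theorem ns_one {D : E → ι → F} {emb : ι → E} (hemb : ∀ i, D (emb i) = Pi.single i 1)
    {S : Finset E} {G : E → ι → F}
    (hG1 : ∀ s ∈ S, ∀ t ∈ S, G s ⬝ᵥ D t = if s = t then 1 else 0)
    (hG2 : ∀ ψ : ι → F, ψ = ∑ s ∈ S, (ψ ⬝ᵥ D s) • G s)
    {x : E} (hx : x ∈ S) (b : ι) :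
    NS D (insert (emb b) (S.erase x)) ↔ G x b ≠ 0 := by
  constructor
  · intro h h0
    have h1 : G x = 0 := by
      apply h
      intro e he
      rw [Finset.mem_insert, Finset.mem_erase] at he
      rcases he with rfl | ⟨hex, heS⟩
      · rw [hemb]; simpa using h0
      · rw [hG1 x hx e heS, if_neg (Ne.symm hex)]
    have h2 := hG1 x hx x hx
    rw [h1] at h2
    simp at h2
  · intro h0 ψ hψ
    have h1 : ψ = (ψ ⬝ᵥ D x) • G x := by
      conv_lhs => rw [hG2 ψ]
      rw [Finset.sum_eq_single x]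
      · intro s hs hsx
        rw [hψ s (Finset.mem_insert_of_mem (Finset.mem_erase.2 ⟨hsx, hs⟩)), zero_smul]
      · intro h; exact absurd hx h
    have h2 := hψ (emb b) (Finset.mem_insert_self _ _)
    rw [hemb, dotProduct_single, mul_one] at h2
    rw [h1] at h2
    simp only [Pi.smul_apply, smul_eq_mul, mul_eq_zero] at h2
    rcases h2 with h2 | h2
    · rw [h1, h2, zero_smul]
    · exact absurd h2 h0

/-- two exchanges -/
theorem ns_two {D : E → ι → F} {emb : ι → E} (hemb : ∀ i, D (emb i) = Pi.single i 1)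
    {S : Finset E} {G : E → ι → F}
    (hG1 : ∀ s ∈ S, ∀ t ∈ S, G s ⬝ᵥ D t = if s = t then 1 else 0)
    (hG2 : ∀ ψ : ι → F, ψ = ∑ s ∈ S, (ψ ⬝ᵥ D s) • G s)
    {x y : E} (hx : x ∈ S) (hy : y ∈ S) (hxy : x ≠ y) (b b' : ι) (hb : G x b ≠ 0)
    (hb' : G x b' ≠ 0) :
    NS D (insert (emb b) (insert (emb b') ((S.erase x).erase y))) ↔
      G y b / G x b ≠ G y b' / G x b' := by
  constructor
  · intro h h0
    have h1 : G y - (G y b / G x b) • G x = 0 := by
      apply h
      intro e he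
      rw [Finset.mem_insert, Finset.mem_insert, Finset.mem_erase, Finset.mem_erase] at he
      rcases he with rfl | rfl | ⟨hey, hex, heS⟩
      · rw [hemb]
        simp only [dotProduct_single, mul_one, Pi.sub_apply, Pi.smul_apply, smul_eq_mul]
        field_simp
        ring
      · rw [hemb, h0]
        simp only [dotProduct_single, mul_one, Pi.sub_apply, Pi.smul_apply, smul_eq_mul]
        field_simp
        ring
      · rw [sub_dotProduct, smul_dotProduct, hG1 y hy e heS, hG1 x hx e heS, if_neg (Ne.symm hey),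
          if_neg (Ne.symm hex)]
        simp
    have h2 : (G y - (G y b / G x b) • G x) ⬝ᵥ D y = 0 := by rw [h1]; simp
    rw [sub_dotProduct, smul_dotProduct, hG1 y hy y hy, hG1 x hx y hy, if_pos rfl,
      if_neg hxy] at h2
    simp at h2
  · intro h0 ψ hψ
    have h1 : ψ = (ψ ⬝ᵥ D x) • G x + (ψ ⬝ᵥ D y) • G y := by
      conv_lhs => rw [hG2 ψ]
      rw [← Finset.sum_pair hxy (f := fun s => (ψ ⬝ᵥ D s) • G s)]
      symm
      apply Finset.sum_subset
      · intro z hz
        rw [Finset.mem_insert, Finset.mem_singleton] at hz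
        rcases hz with rfl | rfl <;> assumption
      · intro z hz hz'
        rw [Finset.mem_insert, Finset.mem_singleton] at hz'
        push Not at hz'
        rw [hψ z (Finset.mem_insert_of_mem (Finset.mem_insert_of_mem
          (Finset.mem_erase.2 ⟨hz'.2, Finset.mem_erase.2 ⟨hz'.1, hz⟩⟩))), zero_smul]
    set α := ψ ⬝ᵥ D x with hα
    set β := ψ ⬝ᵥ D y with hβ
    have e1 : α * G x b + β * G y b = 0 := by
      have h2 := hψ (emb b) (Finset.mem_insert_self _ _)
      rw [hemb, dotProduct_single, mul_one] at h2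
      have h3 := congrFun h1 b
      simp only [Pi.add_apply, Pi.smul_apply, smul_eq_mul] at h3
      rw [← h3, h2]
    have e2 : α * G x b' + β * G y b' = 0 := by
      have h2 := hψ (emb b') (Finset.mem_insert_of_mem (Finset.mem_insert_self _ _))
      rw [hemb, dotProduct_single, mul_one] at h2
      have h3 := congrFun h1 b'
      simp only [Pi.add_apply, Pi.smul_apply, smul_eq_mul] at h3
      rw [← h3, h2]
    have e3 : β * (G y b / G x b - G y b' / G x b') = 0 := by
      have e1' : β * (G y b / G x b) = -α := by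
        field_simp
        linear_combination e1
      have e2' : β * (G y b' / G x b') = -α := by
        field_simp
        linear_combination e2
      rw [mul_sub, e1', e2', sub_self]
    rcases mul_eq_zero.1 e3 with h4 | h4
    · have h5 : α = 0 := by
        rw [h4, zero_mul, add_zero] at e1
        exact (mul_eq_zero.1 e1).resolve_right hb
      rw [h1, h4, h5]; simp
    · exact absurd (sub_eq_zero.1 h4) h0

/-- The data extracted from a smallest violation. `J` is the set of basis positions that are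
missing from `S`, `Y` the set of the elements of `S` outside the basis. -/
structure Data (D₁ D₂ : E → ι → F) (emb : ι → E) (S : Finset E) where
  Y : Finset E
  J : Finset ι
  y₀ : E
  G : E → ι → F
  σ : E → ι → F
  μ : ι → F
  c : E → F
  hYS : Y ⊆ S
  hY : ∀ e, e ∈ Y ↔ e ∈ S ∧ ∀ i, emb i ≠ e
  hJ : ∀ i, i ∈ J ↔ emb i ∉ S
  hy₀ : y₀ ∈ Y
  hG : ∀ s ∈ Y, ∀ t ∈ S, G s ⬝ᵥ D₁ t = if s = t then 1 else 0
  hG2 : ∀ ψ : ι → F, (∀ s ∈ S, s ∉ Y → ψ ⬝ᵥ D₁ s = 0) → ψ = ∑ s ∈ Y, (ψ ⬝ᵥ D₁ s) • G s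
  hσ : ∀ s ∈ Y, s ≠ y₀ → ∀ t ∈ S, σ s ⬝ᵥ D₂ t = if t = s then c s else if t = y₀ then -1 else 0
  hc : ∀ s ∈ Y, s ≠ y₀ → c s ≠ 0
  hμ : ∀ t ∈ S, μ ⬝ᵥ D₂ t = 0
  hμ0 : μ ≠ 0
  hμJ : ∀ b ∈ J, μ b ≠ 0
  hG0 : ∀ b ∈ J, G y₀ b ≠ 0
  hGall : ∀ y ∈ Y, ∀ b ∈ J, G y b ≠ 0
  hGJ : ∀ y ∈ Y, ∀ b, b ∉ J → G y b = 0
  hσJ : ∀ y ∈ Y, y ≠ y₀ → ∀ b, b ∉ J → σ y b = 0
  hμJ' : ∀ b, b ∉ J → μ b = 0
  htwo : ∀ y ∈ Y, y ≠ y₀ → ∀ b ∈ J, ∀ b' ∈ J,
    (G y b / G y₀ b = G y b' / G y₀ b' ↔ σ y b / μ b = σ y b' / μ b')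

/-- Every test nearer to the basis than `S` has the same outcome for both systems. -/
def Agree (D₁ D₂ : E → ι → F) (emb : ι → E) (S : Finset E) : Prop :=
  ∀ T : Finset E, T.card = Fintype.card ι →
    (T \ Finset.univ.image emb).card < (S \ Finset.univ.image emb).card → (NS D₁ T ↔ NS D₂ T)

theorem exists_data {D₁ D₂ : E → ι → F} {emb : ι → E} (hinj : Function.Injective emb)
    (hemb₁ : ∀ i, D₁ (emb i) = Pi.single i 1) (hemb₂ : ∀ i, D₂ (emb i) = Pi.single i 1)
    {S : Finset E} (hS : S.card = Fintype.card ι) (hN₁ : NS D₁ S) (hN₂ : ¬ NS D₂ S)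
    (hmin : Agree D₁ D₂ emb S) : Nonempty (Data D₁ D₂ emb S) := by
  classical
  set B : Finset E := Finset.univ.image emb with hB
  have memB : ∀ e, e ∈ B ↔ ∃ i, emb i = e := by
    intro e; simp [hB]
  set Y : Finset E := S \ B with hYdef
  have hY : ∀ e, e ∈ Y ↔ e ∈ S ∧ ∀ i, emb i ≠ e := by
    intro e
    rw [hYdef, Finset.mem_sdiff, memB]
    push Not
    rfl
  have hYS : Y ⊆ S := Finset.sdiff_subset
  set J : Finset ι := Finset.univ.filter (fun i => emb i ∉ S) with hJdef
  have hJ : ∀ i, i ∈ J ↔ emb i ∉ S := by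
    intro i; simp [hJdef]
  obtain ⟨G, hG1, hG2⟩ := exists_dual D₁ S hS hN₁
  -- one-exchange tests
  have hT1 : ∀ y ∈ Y, ∀ b ∈ J, (NS D₁ (insert (emb b) (S.erase y)) ↔
      NS D₂ (insert (emb b) (S.erase y))) := by
    intro y hy b hb
    have hyS := hYS hy
    have hbS : emb b ∉ S := (hJ b).1 hb
    apply hmin
    · rw [Finset.card_insert_of_notMem (fun h => hbS (Finset.mem_of_mem_erase h)),
        Finset.card_erase_of_mem hyS, hS]
      have : 0 < S.card := Finset.card_pos.2 ⟨y, hyS⟩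
      omega
    · apply Finset.card_lt_card
      rw [Finset.ssubset_iff_of_subset]
      · refine ⟨y, hy, ?_⟩
        rw [Finset.mem_sdiff, Finset.mem_insert, Finset.mem_erase]
        rintro ⟨h1 | h1, _⟩
        · exact ((hY y).1 hy).2 b h1.symm
        · exact h1.1 rfl
      · intro z hz
        rw [Finset.mem_sdiff, Finset.mem_insert] at hz
        rcases hz with ⟨h1 | h1, h2⟩
        · exact absurd ((memB z).2 ⟨b, h1.symm⟩) h2
        · exact Finset.mem_sdiff.2 ⟨Finset.mem_of_mem_erase h1, h2⟩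
  have hGJ : ∀ y ∈ Y, ∀ b, b ∉ J → G y b = 0 := by
    intro y hy b hb
    have hbS : emb b ∈ S := by
      by_contra h; exact hb ((hJ b).2 h)
    have h1 := hG1 y (hYS hy) (emb b) hbS
    rw [hemb₁, dotProduct_single, mul_one, if_neg] at h1
    · exact h1
    · exact fun h => ((hY y).1 hy).2 b h.symm
  have hex1 : ∀ y ∈ Y, ∃ b ∈ J, G y b ≠ 0 := by
    intro y hy
    by_contra hcon
    push Not at hcon
    have h1 : G y = 0 := by
      funext b
      by_cases hb : b ∈ J
      · exact hcon b hb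
      · exact hGJ y hy b hb
    have h2 := hG1 y (hYS hy) y (hYS hy)
    rw [h1] at h2
    simp at h2
  have hex2 : ∀ b ∈ J, ∃ y ∈ Y, G y b ≠ 0 := by
    intro b hb
    by_contra hcon
    push Not at hcon
    have h1 := congrFun (hG2 (Pi.single b 1)) b
    rw [Finset.sum_apply, Pi.single_eq_same, Finset.sum_eq_zero] at h1
    · exact one_ne_zero h1
    · intro s hs
      rw [Pi.smul_apply, smul_eq_mul]
      by_cases hsY : s ∈ Y
      · rw [hcon s hsY, mul_zero]
      · have : ∃ i, emb i = s := by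
          by_contra h; push Not at h; exact hsY ((hY s).2 ⟨hs, h⟩)
        obtain ⟨i, rfl⟩ := this
        have hib : i ≠ b := by
          rintro rfl; exact (hJ i).1 hb hs
        rw [hemb₁, dotProduct_single, Pi.single_eq_of_ne hib]
        simp
  have hYne : Y.Nonempty := by
    by_contra h
    rw [Finset.not_nonempty_iff_eq_empty] at h
    apply hN₂
    have hSB : S ⊆ B := by
      intro e he
      by_contra h1
      have : e ∈ Y := Finset.mem_sdiff.2 ⟨he, h1⟩
      rw [h] at this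
      simp at this
    have hSB' : S = B := by
      apply Finset.eq_of_subset_of_card_le hSB
      rw [hB, Finset.card_image_of_injective _ hinj, hS, Finset.card_univ]
    intro ψ hψ
    funext i
    have := hψ (emb i) (by rw [hSB']; exact (memB _).2 ⟨i, rfl⟩)
    rw [hemb₂, dotProduct_single, mul_one] at this
    exact this
  obtain ⟨y₀, hy₀⟩ := hYne
  have hy₀S := hYS hy₀
  obtain ⟨b₀, hb₀, hGb₀⟩ := hex1 y₀ hy₀
  have hb₀S : emb b₀ ∉ S := (hJ b₀).1 hb₀
  have hT₀ : NS D₂ (insert (emb b₀) (S.erase y₀)) :=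
    (hT1 y₀ hy₀ b₀ hb₀).1 ((ns_one hemb₁ hG1 hG2 hy₀S b₀).2 hGb₀)
  set T₀ := insert (emb b₀) (S.erase y₀) with hT₀def
  have hT₀c : T₀.card = Fintype.card ι := by
    rw [hT₀def, Finset.card_insert_of_notMem (fun h => hb₀S (Finset.mem_of_mem_erase h)),
        Finset.card_erase_of_mem hy₀S, hS]
    have : 0 < S.card := Finset.card_pos.2 ⟨y₀, hy₀S⟩
    omega
  obtain ⟨K, hK1, hK2⟩ := exists_dual D₂ T₀ hT₀c hT₀
  have hb₀T : emb b₀ ∈ T₀ := Finset.mem_insert_self _ _
  have hST₀ : ∀ t ∈ S, t ≠ y₀ → t ∈ T₀ := fun t ht h =>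
    Finset.mem_insert_of_mem (Finset.mem_erase.2 ⟨h, ht⟩)
  set μ := K (emb b₀) with hμdef
  have hμy₀ : μ ⬝ᵥ D₂ y₀ = 0 := by
    unfold NS at hN₂
    push Not at hN₂
    obtain ⟨ψ, hψ, hψ0⟩ := hN₂
    have h1 : ψ = (ψ ⬝ᵥ D₂ (emb b₀)) • μ := by
      conv_lhs => rw [hK2 ψ]
      rw [Finset.sum_eq_single (emb b₀)]
      · intro s hs hsb
        rw [hT₀def, Finset.mem_insert] at hs
        rcases hs with hs | hs
        · exact absurd hs hsb
        · rw [hψ s (Finset.mem_of_mem_erase hs), zero_smul]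
      · intro h; exact absurd hb₀T h
    have h2 := hψ y₀ hy₀S
    rw [h1, smul_dotProduct, smul_eq_mul] at h2
    rcases mul_eq_zero.1 h2 with h3 | h3
    · exfalso; apply hψ0; rw [h1, h3, zero_smul]
    · exact h3
  have hμ : ∀ t ∈ S, μ ⬝ᵥ D₂ t = 0 := by
    intro t ht
    by_cases h : t = y₀
    · rw [h]; exact hμy₀
    · rw [hμdef, hK1 _ hb₀T t (hST₀ t ht h), if_neg]
      rintro rfl
      exact hb₀S ht
  have hμ0 : μ ≠ 0 := by
    intro h
    have h1 := hK1 _ hb₀T _ hb₀T
    rw [← hμdef, h] at h1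
    simp at h1
  have hμJ : ∀ b ∈ J, μ b ≠ 0 := by
    intro b hb h0
    obtain ⟨y, hy, hGy⟩ := hex2 b hb
    have h1 := (hT1 y hy b hb).1 ((ns_one hemb₁ hG1 hG2 (hYS hy) b).2 hGy)
    apply hμ0
    apply h1
    intro e he
    rw [Finset.mem_insert] at he
    rcases he with rfl | he
    · rw [hemb₂, dotProduct_single, mul_one, h0]
    · exact hμ e (Finset.mem_of_mem_erase he)
  have hG0 : ∀ b ∈ J, G y₀ b ≠ 0 := by
    intro b hb
    have h1 : NS D₂ (insert (emb b) (T₀.erase (emb b₀))) :=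
      (ns_one hemb₂ hK1 hK2 hb₀T b).2 (hμJ b hb)
    have h2 : T₀.erase (emb b₀) = S.erase y₀ := by
      rw [hT₀def, Finset.erase_insert]
      exact fun h => hb₀S (Finset.mem_of_mem_erase h)
    rw [h2] at h1
    exact (ns_one hemb₁ hG1 hG2 hy₀S b).1 ((hT1 y₀ hy₀ b hb).2 h1)
  have hlam : ∀ y ∈ Y, y ≠ y₀ → K y ⬝ᵥ D₂ y₀ ≠ 0 := by
    intro y hy hyy h0
    obtain ⟨b, hb, hGy⟩ := hex1 y hy
    have h1 := (hT1 y hy b hb).1 ((ns_one hemb₁ hG1 hG2 (hYS hy) b).2 hGy)
    have hyT : y ∈ T₀ := hST₀ y (hYS hy) hyy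
    have h2 : K y - (K y b / μ b) • μ = 0 := by
      apply h1
      intro e he
      rw [Finset.mem_insert, Finset.mem_erase] at he
      rcases he with rfl | ⟨hey, heS⟩
      · rw [hemb₂]
        simp only [dotProduct_single, mul_one, Pi.sub_apply, Pi.smul_apply, smul_eq_mul]
        have := hμJ b hb
        field_simp
        ring
      · rw [sub_dotProduct, smul_dotProduct, hμ e heS, smul_zero, sub_zero]
        by_cases hey0 : e = y₀
        · rw [hey0]; exact h0
        · rw [hK1 y hyT e (hST₀ e heS hey0), if_neg (Ne.symm hey)]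
    have h3 : (K y - (K y b / μ b) • μ) ⬝ᵥ D₂ y = 0 := by rw [h2]; simp
    rw [sub_dotProduct, smul_dotProduct, hμ y (hYS hy), hK1 y hyT y hyT, if_pos rfl] at h3
    simp at h3
  have hKJ : ∀ y ∈ Y, y ≠ y₀ → ∀ b, b ∉ J → K y b = 0 := by
    intro y hy hyy b hb
    have hbS : emb b ∈ S := by
      by_contra h; exact hb ((hJ b).2 h)
    have hb0 : emb b ≠ y₀ := ((hY y₀).1 hy₀).2 b
    have h1 := hK1 y (hST₀ y (hYS hy) hyy) (emb b) (hST₀ _ hbS hb0)
    rw [hemb₂, dotProduct_single, mul_one, if_neg] at h1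
    · exact h1
    · exact fun h => ((hY y).1 hy).2 b h.symm
  have hGall : ∀ y ∈ Y, ∀ b ∈ J, G y b ≠ 0 := by
    intro y hy b hb
    by_cases hyy : y = y₀
    · rw [hyy]; exact hG0 b hb
    have hyT : y ∈ T₀ := hST₀ y (hYS hy) hyy
    apply (ns_one hemb₁ hG1 hG2 (hYS hy) b).1
    apply (hT1 y hy b hb).2
    intro ψ hψ
    have hyb : y ≠ emb b₀ := fun h => ((hY y).1 hy).2 b₀ h.symm
    have h1 : ψ = (ψ ⬝ᵥ D₂ y) • K y + (ψ ⬝ᵥ D₂ (emb b₀)) • μ := by
      conv_lhs => rw [hK2 ψ]
      rw [hμdef, ← Finset.sum_pair hyb (f := fun s => (ψ ⬝ᵥ D₂ s) • K s)]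
      symm
      apply Finset.sum_subset
      · intro z hz
        rw [Finset.mem_insert, Finset.mem_singleton] at hz
        rcases hz with rfl | rfl
        · exact hyT
        · exact hb₀T
      · intro z hz hz'
        rw [Finset.mem_insert, Finset.mem_singleton] at hz'
        push Not at hz'
        rw [hT₀def, Finset.mem_insert] at hz
        have hzS : z ∈ S := Finset.mem_of_mem_erase (hz.resolve_left hz'.2)
        rw [hψ z (Finset.mem_insert_of_mem (Finset.mem_erase.2 ⟨hz'.1, hzS⟩)), zero_smul]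
    have h2 : ψ ⬝ᵥ D₂ y₀ = 0 :=
      hψ y₀ (Finset.mem_insert_of_mem (Finset.mem_erase.2 ⟨Ne.symm hyy, hy₀S⟩))
    have h3 : ψ ⬝ᵥ D₂ y = 0 := by
      rw [h1, add_dotProduct, smul_dotProduct, smul_dotProduct, hμy₀, smul_zero, add_zero,
        smul_eq_mul] at h2
      exact (mul_eq_zero.1 h2).resolve_right (hlam y hy hyy)
    have h4 := hψ (emb b) (Finset.mem_insert_self _ _)
    rw [h3, zero_smul, zero_add] at h1
    rw [h1, smul_dotProduct, smul_eq_mul] at h4
    rcases mul_eq_zero.1 h4 with h5 | h5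
    · rw [h1, h5, zero_smul]
    · rw [hemb₂, dotProduct_single, mul_one] at h5
      exact absurd h5 (hμJ b hb)
  refine ⟨{ Y := Y, J := J, y₀ := y₀, G := G
            σ := fun s => (-(K s ⬝ᵥ D₂ y₀))⁻¹ • K s
            μ := μ
            c := fun s => (-(K s ⬝ᵥ D₂ y₀))⁻¹
            hYS := hYS, hY := hY, hJ := hJ, hy₀ := hy₀
            hG := fun s hs t ht => hG1 s (hYS hs) t ht
            hG2 := ?_
            hσ := ?_
            hc := ?_
            hμ := hμ, hμ0 := hμ0, hμJ := hμJ, hG0 := hG0, hGall := hGall, hGJ := hGJ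
            hσJ := ?_
            hμJ' := ?_
            htwo := ?_ }⟩
  · intro ψ hψ
    conv_lhs => rw [hG2 ψ]
    symm
    apply Finset.sum_subset hYS
    intro z hz hz'
    rw [hψ z hz hz', zero_smul]
  · intro s hs hss t ht
    have h0 := hlam s hs hss
    rw [smul_dotProduct, smul_eq_mul]
    by_cases hts : t = s
    · subst hts
      rw [if_pos rfl, hK1 t (hST₀ t ht hss) t (hST₀ t ht hss), if_pos rfl, mul_one]
    · rw [if_neg hts]
      by_cases hty : t = y₀
      · rw [if_pos hty, hty]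
        field_simp
      · rw [if_neg hty, hK1 s (hST₀ s (hYS hs) hss) t (hST₀ t ht hty), if_neg (Ne.symm hts),
          mul_zero]
  · intro s hs hss
    exact inv_ne_zero (neg_ne_zero.2 (hlam s hs hss))
  · intro y hy hyy b hb
    rw [Pi.smul_apply, hKJ y hy hyy b hb, smul_zero]
  · intro b hb
    have hbS : emb b ∈ S := by
      by_contra h; exact hb ((hJ b).2 h)
    have h1 := hμ (emb b) hbS
    rwa [hemb₂, dotProduct_single, mul_one] at h1
  · intro y hy hyy b hb b' hb'
    by_cases hbb : b = b'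
    · subst hbb; simp
    have hyS := hYS hy
    have hbS : emb b ∉ S := (hJ b).1 hb
    have hbS' : emb b' ∉ S := (hJ b').1 hb'
    have e1 := ns_two hemb₁ hG1 hG2 hy₀S hyS (Ne.symm hyy) b b' (hG0 b hb) (hG0 b' hb')
    have hyb : emb b₀ ≠ y := ((hY y).1 hy).2 b₀
    have e2 := ns_two hemb₂ hK1 hK2 hb₀T (hST₀ y hyS hyy) hyb b b' (hμJ b hb) (hμJ b' hb')
    have h2 : T₀.erase (emb b₀) = S.erase y₀ := by
      rw [hT₀def, Finset.erase_insert]
      exact fun h => hb₀S (Finset.mem_of_mem_erase h)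
    rw [h2] at e2
    have e3 : NS D₁ (insert (emb b) (insert (emb b') ((S.erase y₀).erase y))) ↔
        NS D₂ (insert (emb b) (insert (emb b') ((S.erase y₀).erase y))) := by
      apply hmin
      · rw [Finset.card_insert_of_notMem, Finset.card_insert_of_notMem,
          Finset.card_erase_of_mem (Finset.mem_erase.2 ⟨hyy, hyS⟩),
          Finset.card_erase_of_mem hy₀S, hS]
        · have : 1 < S.card := Finset.one_lt_card.2 ⟨y, hyS, y₀, hy₀S, hyy⟩
          omega
        · intro h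
          exact hbS' (Finset.mem_of_mem_erase (Finset.mem_of_mem_erase h))
        · rw [Finset.mem_insert]
          rintro (h | h)
          · exact hbb (hinj h)
          · exact hbS (Finset.mem_of_mem_erase (Finset.mem_of_mem_erase h))
      · apply Finset.card_lt_card
        rw [Finset.ssubset_iff_of_subset]
        · refine ⟨y, hy, ?_⟩
          rw [Finset.mem_sdiff, Finset.mem_insert, Finset.mem_insert, Finset.mem_erase]
          rintro ⟨h1 | h1 | h1, _⟩
          · exact ((hY y).1 hy).2 b h1.symm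
          · exact ((hY y).1 hy).2 b' h1.symm
          · exact h1.1 rfl
        · intro z hz
          rw [Finset.mem_sdiff, Finset.mem_insert, Finset.mem_insert] at hz
          rcases hz with ⟨h1 | h1 | h1, h2⟩
          · exact absurd ((memB z).2 ⟨b, h1.symm⟩) h2
          · exact absurd ((memB z).2 ⟨b', h1.symm⟩) h2
          · exact Finset.mem_sdiff.2
              ⟨Finset.mem_of_mem_erase (Finset.mem_of_mem_erase h1), h2⟩
    have e4 : G y b / G y₀ b ≠ G y b' / G y₀ b' ↔ K y b / μ b ≠ K y b' / μ b' :=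
      e1.symm.trans (e3.trans e2)
    have e5 : G y b / G y₀ b = G y b' / G y₀ b' ↔ K y b / μ b = K y b' / μ b' := by
      rw [← not_iff_not]; exact e4
    rw [e5]
    have hl := inv_ne_zero (neg_ne_zero.2 (hlam y hy hyy))
    simp only [Pi.smul_apply, smul_eq_mul]
    rw [mul_div_assoc, mul_div_assoc, mul_right_inj' hl]

/-- The combination principle: a set of the form `(S minus Y₀) plus F₀` containing a basis
element cannot be nonsingular for the first and singular for the second system. -/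
theorem Data.combine {D₁ D₂ : E → ι → F} {emb : ι → E} {S : Finset E}
    (d : Data D₁ D₂ emb S) (hS : S.card = Fintype.card ι) (hmin : Agree D₁ D₂ emb S)
    (n : ℕ) (y : ℕ → E) (hy : ∀ i < n, y i ∈ d.Y ∧ y i ≠ d.y₀)
    (hinj : ∀ i < n, ∀ j < n, y i = y j → i = j) (F₀ : Finset E) (hF : F₀.card ≤ n)
    (hb : ∃ b, emb b ∈ F₀)
    (h1 : ∀ a : ℕ → F, (∀ e ∈ F₀, ∑ i ∈ range n, a i * (d.G (y i) ⬝ᵥ D₁ e) = 0) →
      ∀ i < n, a i = 0)
    (a : ℕ → F) (a₀ : F) (ha : ∑ i ∈ range n, a i = 0)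
    (h2 : ∀ e ∈ F₀, ∑ i ∈ range n, a i * (d.σ (y i) ⬝ᵥ D₂ e) + a₀ * (d.μ ⬝ᵥ D₂ e) = 0)
    (hne : (∃ i < n, a i ≠ 0) ∨ a₀ ≠ 0) : False := by
  classical
  set Y₀ : Finset E := (range n).image y with hY₀
  have hinjOn : Set.InjOn y (range n : Finset ℕ) := by
    intro i hi j hj hij
    exact hinj i (by simpa using hi) j (by simpa using hj) hij
  have hY₀c : Y₀.card = n := by
    rw [hY₀, Finset.card_image_of_injOn hinjOn, Finset.card_range]
  have hY₀Y : Y₀ ⊆ d.Y := by
    intro z hz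
    rw [hY₀, Finset.mem_image] at hz
    obtain ⟨i, hi, rfl⟩ := hz
    exact (hy i (Finset.mem_range.1 hi)).1
  have hY₀S : Y₀ ⊆ S := hY₀Y.trans d.hYS
  have hNS1 : NS D₁ ((S \ Y₀) ∪ F₀) := by
    intro ψ hψ
    have e1 : ψ = ∑ i ∈ range n, (ψ ⬝ᵥ D₁ (y i)) • d.G (y i) := by
      have e2 := d.hG2 ψ (fun s hs hsY => hψ s (Finset.mem_union_left _
        (Finset.mem_sdiff.2 ⟨hs, fun h => hsY (hY₀Y h)⟩)))
      conv_lhs => rw [e2]
      rw [← Finset.sum_image (s := range n) (g := y)
        (f := fun s => (ψ ⬝ᵥ D₁ s) • d.G s) hinjOn]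
      symm
      apply Finset.sum_subset hY₀Y
      intro z hz hz'
      rw [hψ z (Finset.mem_union_left _ (Finset.mem_sdiff.2 ⟨d.hYS hz, hz'⟩)), zero_smul]
    have e3 : ∀ i < n, ψ ⬝ᵥ D₁ (y i) = 0 := by
      apply h1 (fun i => ψ ⬝ᵥ D₁ (y i))
      intro e he
      have e4 := hψ e (Finset.mem_union_right _ he)
      rw [e1, sum_dotProduct] at e4
      rw [← e4]
      apply Finset.sum_congr rfl
      intro i _
      rw [smul_dotProduct, smul_eq_mul]
    rw [e1]
    apply Finset.sum_eq_zero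
    intro i hi
    rw [e3 i (Finset.mem_range.1 hi), zero_smul]
  have hF₀pos : 0 < F₀.card := by
    obtain ⟨b, hb⟩ := hb
    exact Finset.card_pos.2 ⟨_, hb⟩
  have hc1 : (S \ Y₀).card = Fintype.card ι - n := by
    rw [Finset.card_sdiff_of_subset hY₀S, hS, hY₀c]
  have hnle : n ≤ Fintype.card ι := by
    rw [← hS, ← hY₀c]; exact Finset.card_le_card hY₀S
  have hcard : ((S \ Y₀) ∪ F₀).card = Fintype.card ι := by
    apply le_antisymm
    · refine (Finset.card_union_le _ _).trans ?_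
      omega
    · exact hNS1.card_le
  have hYeq : S \ Finset.univ.image emb = d.Y := by
    ext e
    rw [Finset.mem_sdiff, d.hY]
    simp
  have hlt : (((S \ Y₀) ∪ F₀) \ Finset.univ.image emb).card <
      (S \ Finset.univ.image emb).card := by
    rw [hYeq]
    have s1 : ((S \ Y₀) ∪ F₀) \ Finset.univ.image emb ⊆
        (d.Y \ Y₀) ∪ (F₀ \ Finset.univ.image emb) := by
      intro z hz
      rw [Finset.mem_sdiff, Finset.mem_union] at hz
      rcases hz with ⟨hz1 | hz1, hz2⟩
      · rw [Finset.mem_sdiff] at hz1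
        refine Finset.mem_union_left _ (Finset.mem_sdiff.2 ⟨?_, hz1.2⟩)
        rw [← hYeq]
        exact Finset.mem_sdiff.2 ⟨hz1.1, hz2⟩
      · exact Finset.mem_union_right _ (Finset.mem_sdiff.2 ⟨hz1, hz2⟩)
    have s2 : (F₀ \ Finset.univ.image emb).card < F₀.card := by
      apply Finset.card_lt_card
      rw [Finset.ssubset_iff_of_subset Finset.sdiff_subset]
      obtain ⟨b, hb⟩ := hb
      exact ⟨emb b, hb, by simp⟩
    have s3 : (d.Y \ Y₀).card = d.Y.card - n := by
      rw [Finset.card_sdiff_of_subset hY₀Y, hY₀c]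
    have s4 : n ≤ d.Y.card := by
      rw [← hY₀c]; exact Finset.card_le_card hY₀Y
    have s5 := (Finset.card_le_card s1).trans (Finset.card_union_le _ _)
    omega
  have hNS2 : NS D₂ ((S \ Y₀) ∪ F₀) := (hmin _ hcard hlt).1 hNS1
  have hz : (∑ i ∈ range n, a i • d.σ (y i)) + a₀ • d.μ = 0 := by
    apply hNS2
    intro e he
    rw [add_dotProduct, sum_dotProduct, smul_dotProduct]
    rw [Finset.mem_union, Finset.mem_sdiff] at he
    rcases he with ⟨heS, heY⟩ | heF
    · rw [d.hμ e heS, smul_zero, add_zero]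
      have e5 : ∀ i ∈ range n, (a i • d.σ (y i)) ⬝ᵥ D₂ e = a i * (if e = d.y₀ then -1 else 0) := by
        intro i hi
        have hi' := hy i (Finset.mem_range.1 hi)
        rw [smul_dotProduct, smul_eq_mul, d.hσ (y i) hi'.1 hi'.2 e heS, if_neg]
        rintro rfl
        exact heY (Finset.mem_image.2 ⟨i, hi, rfl⟩)
      rw [Finset.sum_congr rfl e5, ← Finset.sum_mul, ha, zero_mul]
    · have e6 := h2 e heF
      rw [← e6]
      congr 1
      apply Finset.sum_congr rfl
      intro i _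
      rw [smul_dotProduct, smul_eq_mul]
  have hai : ∀ i < n, a i = 0 := by
    intro i hi
    have hi' := hy i hi
    have e7 : ((∑ i ∈ range n, a i • d.σ (y i)) + a₀ • d.μ) ⬝ᵥ D₂ (y i) = 0 := by
      rw [hz]; simp
    rw [add_dotProduct, sum_dotProduct, smul_dotProduct, d.hμ _ (d.hYS hi'.1), smul_zero,
      add_zero, Finset.sum_eq_single i] at e7
    · rw [smul_dotProduct, smul_eq_mul, d.hσ (y i) hi'.1 hi'.2 _ (d.hYS hi'.1), if_pos rfl] at e7
      exact (mul_eq_zero.1 e7).resolve_right (d.hc _ hi'.1 hi'.2)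
    · intro j hj hji
      have hj' := hy j (Finset.mem_range.1 hj)
      rw [smul_dotProduct, smul_eq_mul, d.hσ (y j) hj'.1 hj'.2 _ (d.hYS hi'.1), if_neg, if_neg,
        mul_zero]
      · exact hi'.2
      · intro h
        exact hji (hinj i hi j (Finset.mem_range.1 hj) h).symm
    · intro h; exact absurd (Finset.mem_range.2 hi) h
  rcases hne with ⟨i, hi, hai'⟩ | h0
  · exact hai' (hai i hi)
  · have e8 : a₀ • d.μ = 0 := by
      have : ∑ i ∈ range n, a i • d.σ (y i) = 0 := by
        apply Finset.sum_eq_zero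
        intro i hi
        rw [hai i (Finset.mem_range.1 hi), zero_smul]
      rw [this, zero_add] at hz
      exact hz
    rcases smul_eq_zero.1 e8 with h3 | h3
    · exact h0 h3
    · exact d.hμ0 h3

end Pool.Agent.H.MP_9123af_lc
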