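import Pool.Agent.H.MP_9123af_lc.Core

/-!
# Vector matroids of matrices, and the passage to coordinates
-/

namespace Pool.Agent.H.MP_9123af_lc

open Finset

/-- The column with label `e` of the matrix `A`. -/
def col {R E F : Type} (A : Matrix R E F) (e : E) : R → F := fun r => A r e

/-- The set of labels `S` is independent in the vector matroid of `A`. -/
def Indep {R E F : Type} [Field F] (A : Matrix R E F) (S : Finset E) : Prop :=
  LinearIndepOn F (col A) (S : Set E)

/-- The two matrices have the same vector matroid. -/
def SameMatroid {R₁ R₂ E F : Type} [Field F] (A₁ : Matrix R₁ E F) (A₂ : Matrix R₂ E F) : Prop :=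
  ∀ S : Finset E, Indep A₁ S ↔ Indep A₂ S

/-- The label `e` lies in the closure of `S` in the vector matroid of `A`. -/
def InClosure {R E F : Type} [Field F] (A : Matrix R E F) (S : Finset E) (e : E) : Prop :=
  col A e ∈ Submodule.span F (col A '' (S : Set E))

/-- `B` is a basis of the vector matroid of `A`. -/
def IsBasis {R E F : Type} [Field F] (A : Matrix R E F) (B : Finset E) : Prop :=
  Indep A B ∧ ∀ e, InClosure A B e

/-- `X` is free over `B₀`: every label in the closure of `B₀ ∪ X` lies in the closure of
`B₀ ∪ {b}` for some `b` in `X`. -/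
def FreeOver {R E F : Type} [Field F] [DecidableEq E] (A : Matrix R E F) (B₀ X : Finset E) :
    Prop :=
  ∀ e, InClosure A (B₀ ∪ X) e → ∃ b ∈ X, InClosure A (insert b B₀) e

/-- The sets of labels with as many elements as `B` and at most `c` elements outside `B`. -/
def tests {E : Type} [Fintype E] [DecidableEq E] (B : Finset E) (c : ℕ) : Finset (Finset E) :=
  Finset.univ.filter (fun S => S.card = B.card ∧ (S \ B).card ≤ c)

section Transfer

variable {R E F : Type} [Field F] [DecidableEq E]

/-- coordinates with respect to a basis -/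
theorem exists_coord (A : Matrix R E F) (B : Finset E) (hB : IsBasis A B) :
    ∃ (L : (B → F) →ₗ[F] (R → F)) (D : E → B → F), Function.Injective L ∧
      (∀ x, L x = ∑ b : B, x b • col A b) ∧ (∀ e, L (D e) = col A e) ∧
      ∀ b : B, D b = Pi.single b 1 := by
  classical
  let L : (B → F) →ₗ[F] (R → F) :=
    { toFun := fun x => ∑ b : B, x b • col A b
      map_add' := by
        intro x y
        rw [← Finset.sum_add_distrib]
        exact Finset.sum_congr rfl (fun b _ => by rw [Pi.add_apply, add_smul])
      map_smul' := by
        intro c x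
        rw [RingHom.id_apply, Finset.smul_sum]
        exact Finset.sum_congr rfl (fun b _ => by rw [Pi.smul_apply, smul_eq_mul, mul_smul]) }
  have hL : ∀ x, L x = ∑ b : B, x b • col A b := fun x => rfl
  have hinj : Function.Injective L := by
    rw [← LinearMap.ker_eq_bot, LinearMap.ker_eq_bot']
    intro x hx
    have h1 : LinearIndependent F (fun b : B => col A b) := hB.1
    rw [Fintype.linearIndependent_iff] at h1
    funext b
    exact h1 x hx b
  have hsurj : ∀ e, ∃ x, L x = col A e := by
    intro e
    have h1 : Submodule.span F (col A '' (B : Set E)) ≤ LinearMap.range L := by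
      rw [Submodule.span_le]
      rintro _ ⟨b, hb, rfl⟩
      refine ⟨Pi.single ⟨b, hb⟩ 1, ?_⟩
      rw [hL, Finset.sum_eq_single ⟨b, hb⟩]
      · simp
      · intro c _ hc
        rw [Pi.single_eq_of_ne hc, zero_smul]
      · intro h; exact absurd (Finset.mem_univ _) h
    exact h1 (hB.2 e)
  choose D hD using hsurj
  refine ⟨L, D, hinj, hL, hD, ?_⟩
  intro b
  apply hinj
  rw [hD, hL, Finset.sum_eq_single b]
  · simp
  · intro c _ hc
    rw [Pi.single_eq_of_ne hc, zero_smul]
  · intro h; exact absurd (Finset.mem_univ _) h

theorem indep_iff_ns {ι : Type} [Fintype ι] [DecidableEq ι] (D : E → ι → F) (S : Finset E)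
    (hS : S.card = Fintype.card ι) : LinearIndepOn F D (S : Set E) ↔ NS D S := by
  classical
  constructor
  · intro h ψ hψ
    have h1 : LinearIndependent F (fun e : S => D e) := h
    have h2 : Submodule.span F (Set.range (fun e : S => D e)) = ⊤ := by
      apply h1.span_eq_top_of_card_eq_finrank'
      simp [hS]
    have h3 : ∀ x : ι → F, ψ ⬝ᵥ x = 0 := by
      intro x
      have hx : x ∈ Submodule.span F (Set.range (fun e : S => D e)) := by rw [h2]; trivial
      induction hx using Submodule.span_induction with
      | mem x hx => obtain ⟨e, rfl⟩ := hx; exact hψ e e.2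
      | zero => simp
      | add x y _ _ hx hy => rw [dotProduct_add, hx, hy, add_zero]
      | smul c x _ hx => rw [dotProduct_smul, hx, smul_zero]
    funext i
    have := h3 (Pi.single i 1)
    rwa [dotProduct_single, mul_one] at this
  · intro h
    obtain ⟨G, hG1, _⟩ := exists_dual D S hS h
    have h1 : LinearIndependent F (fun e : S => D e) := by
      rw [Fintype.linearIndependent_iff]
      intro c hc s
      have h2 : G s ⬝ᵥ (∑ e : S, c e • D e) = 0 := by rw [hc]; simp
      rw [dotProduct_sum, Finset.sum_eq_single s] at h2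
      · rw [dotProduct_smul, hG1 s s.2 s s.2, if_pos rfl, smul_eq_mul, mul_one] at h2
        exact h2
      · intro t _ hts
        rw [dotProduct_smul, hG1 s s.2 t t.2, if_neg, smul_zero]
        exact fun h3 => hts (Subtype.ext h3.symm)
      · intro h3; exact absurd (Finset.mem_univ _) h3
    exact h1

theorem indep_iff {A : Matrix R E F} {B : Finset E} {L : (B → F) →ₗ[F] (R → F)} {D : E → B → F}
    (hinj : Function.Injective L) (hD : ∀ e, L (D e) = col A e) (S : Finset E) :
    Indep A S ↔ LinearIndepOn F D (S : Set E) := by
  have h1 : col A = L ∘ D := by funext e; exact (hD e).symm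
  unfold Indep
  rw [h1]
  have h2 : LinearMap.ker L = ⊥ := LinearMap.ker_eq_bot.2 hinj
  exact L.linearIndepOn_iff_of_injOn (hinj.injOn)

theorem inClosure_iff {A : Matrix R E F} {B : Finset E} {L : (B → F) →ₗ[F] (R → F)}
    {D : E → B → F} (hinj : Function.Injective L) (hL : ∀ x, L x = ∑ b : B, x b • col A b)
    (hD : ∀ e, L (D e) = col A e) (X : Finset E) (hX : X ⊆ B) (e : E) :
    InClosure A X e ↔ ∀ b : B, (b : E) ∉ X → D e b = 0 := by
  classical
  constructor
  · intro h
    have h1 : Submodule.span F (col A '' (X : Set E)) ≤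
        Submodule.map L (Submodule.pi {b : B | (b : E) ∉ X} (fun _ => (⊥ : Submodule F F))) := by
      rw [Submodule.span_le]
      rintro _ ⟨b, hb, rfl⟩
      refine ⟨Pi.single ⟨b, hX hb⟩ 1, ?_, ?_⟩
      · rw [SetLike.mem_coe, Submodule.mem_pi]
        intro c hc
        rw [Submodule.mem_bot, Pi.single_eq_of_ne]
        rintro rfl
        exact hc hb
      · rw [hL, Finset.sum_eq_single ⟨b, hX hb⟩]
        · simp
        · intro c _ hc
          rw [Pi.single_eq_of_ne hc, zero_smul]
        · intro h; exact absurd (Finset.mem_univ _) h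
    obtain ⟨x, hx, hxe⟩ := h1 h
    rw [SetLike.mem_coe, Submodule.mem_pi] at hx
    have h2 : D e = x := hinj (by rw [hD, hxe])
    intro b hb
    rw [h2]
    exact hx b hb
  · intro h
    unfold InClosure
    rw [← hD e, hL]
    apply Submodule.sum_mem
    intro b _
    by_cases hb : (b : E) ∈ X
    · exact Submodule.smul_mem _ _ (Submodule.subset_span ⟨b, hb, rfl⟩)
    · rw [h b hb, zero_smul]
      exact Submodule.zero_mem _

/-- Every independent set of labels extends to a set with as many labels as coordinates. -/
theorem extend_indep {ι : Type} [Fintype ι] [DecidableEq ι] [Fintype E] (D : E → ι → F)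
    (emb : ι → E) (hemb : ∀ i, D (emb i) = Pi.single i 1) (S : Finset E)
    (hS : LinearIndepOn F D (S : Set E)) :
    ∃ T : Finset E, S ⊆ T ∧ T.card = Fintype.card ι ∧ LinearIndepOn F D (T : Set E) := by
  classical
  obtain ⟨b, _, hSb, hspan, hli⟩ := exists_linearIndepOn_extension hS (Set.subset_univ _)
  have hbfin : b.Finite := Set.toFinite b
  refine ⟨hbfin.toFinset, ?_, ?_, ?_⟩
  · intro x hx
    rw [Set.Finite.mem_toFinset]
    exact hSb hx
  · have htop : ⊤ ≤ Submodule.span F (Set.range (fun x : b => D x)) := by
      intro x _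
      have h1 : x = ∑ i, x i • D (emb i) := by
        funext j
        rw [Finset.sum_apply, Finset.sum_eq_single j]
        · rw [hemb]; simp
        · intro k _ hk
          rw [hemb, Pi.smul_apply, Pi.single_eq_of_ne (Ne.symm hk), smul_zero]
        · intro h; exact absurd (Finset.mem_univ _) h
      rw [h1]
      apply Submodule.sum_mem
      intro i _
      apply Submodule.smul_mem
      have h2 := hspan ⟨emb i, Set.mem_univ _, rfl⟩
      rw [Set.image_eq_range] at h2
      exact h2
    let bs := Module.Basis.mk (R := F) (v := fun x : b => D x) hli htop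
    haveI : Fintype b := hbfin.fintype
    have h3 := Module.finrank_eq_card_basis bs
    rw [Module.finrank_fintype_fun_eq_card] at h3
    rw [h3, ← Set.toFinset_card, Set.Finite.toFinset_eq_toFinset]
  · rw [Set.Finite.coe_toFinset]
    exact hli

end Transfer

/-- A finite set with `n` elements has at most `(n + 1) ^ c` subsets with at most `c` elements. -/
theorem card_small_subsets {E : Type} [Fintype E] [DecidableEq E] (c : ℕ) :
    ((Finset.univ : Finset (Finset E)).filter (fun S => S.card ≤ c)).card ≤
      (Fintype.card E + 1) ^ c := by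
  classical
  let φ : (Fin c → Option E) → Finset E := fun f => Finset.univ.filter (fun e => ∃ i, f i = some e)
  have h1 : (Finset.univ : Finset (Finset E)).filter (fun S => S.card ≤ c) ⊆
      Finset.univ.image φ := by
    intro S hS
    rw [Finset.mem_filter] at hS
    rw [Finset.mem_image]
    refine ⟨fun i => if h : (i : ℕ) < S.card then some (S.equivFin.symm ⟨i, h⟩ : E) else none,
      Finset.mem_univ _, ?_⟩
    ext e
    simp only [φ, Finset.mem_filter, Finset.mem_univ, true_and]
    constructor
    · rintro ⟨i, hi⟩
      by_cases h : (i : ℕ) < S.card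
      · rw [dif_pos h, Option.some.injEq] at hi
        rw [← hi]
        exact (S.equivFin.symm ⟨i, h⟩).2
      · rw [dif_neg h] at hi
        exact absurd hi (by simp)
    · intro he
      have h2 := (S.equivFin ⟨e, he⟩).2
      refine ⟨⟨(S.equivFin ⟨e, he⟩ : ℕ), lt_of_lt_of_le h2 hS.2⟩, ?_⟩
      simp
  refine (Finset.card_le_card h1).trans (Finset.card_image_le.trans ?_)
  rw [Finset.card_univ, Fintype.card_fun, Fintype.card_option, Fintype.card_fin]

theorem card_tests {E : Type} [Fintype E] [DecidableEq E] (B : Finset E) (c : ℕ) :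
    (tests B c).card ≤ (Fintype.card E + 1) ^ (2 * c) := by
  classical
  have h1 : (tests B c).card ≤ ((((Finset.univ : Finset (Finset E)).filter
      (fun S => S.card ≤ c)) ×ˢ ((Finset.univ : Finset (Finset E)).filter
      (fun S => S.card ≤ c)))).card := by
    apply Finset.card_le_card_of_injOn (fun S => (S \ B, B \ S))
    · intro S hS
      rw [Finset.mem_coe, tests, Finset.mem_filter] at hS
      rw [Finset.mem_coe, Finset.mem_product, Finset.mem_filter, Finset.mem_filter]
      refine ⟨⟨Finset.mem_univ _, hS.2.2⟩, Finset.mem_univ _, ?_⟩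
      have e1 := Finset.card_sdiff_add_card_inter S B
      have e2 := Finset.card_sdiff_add_card_inter B S
      rw [Finset.inter_comm] at e2
      have e3 := hS.2.1
      have e4 := hS.2.2
      simp only
      omega
    · intro S _ T _ hST
      simp only [Prod.mk.injEq] at hST
      ext e
      have e1 := congrArg (fun X => e ∈ X) hST.1
      have e2 := congrArg (fun X => e ∈ X) hST.2
      simp only [Finset.mem_sdiff, eq_iff_iff] at e1 e2
      tauto
  refine h1.trans ?_
  rw [Finset.card_product, Nat.two_mul, pow_add]
  exact Nat.mul_le_mul (card_small_subsets c) (card_small_subsets c)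


/-- A smallest violation exists unless all tests agree. -/
theorem exists_min_violation {F ι E : Type} [Field F] [Fintype ι] [DecidableEq ι] [DecidableEq E]
    (D₁ D₂ : E → ι → F) (emb : ι → E)
    (h : ¬ ∀ T : Finset E, T.card = Fintype.card ι → (NS D₁ T ↔ NS D₂ T)) :
    ∃ S : Finset E, S.card = Fintype.card ι ∧ Agree D₁ D₂ emb S ∧ ¬ (NS D₁ S ↔ NS D₂ S) := by
  classical
  by_contra hcon
  apply h
  have key : ∀ n, ∀ T : Finset E, (T \ Finset.univ.image emb).card = n →
      T.card = Fintype.card ι → (NS D₁ T ↔ NS D₂ T) := by
    intro n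
    induction n using Nat.strong_induction_on with
    | _ n ih =>
      intro T hTn hT
      by_contra hT2
      exact hcon ⟨T, hT, fun T' hT' hlt => ih _ (by omega) T' rfl hT', hT2⟩
  exact fun T hT => key _ T rfl hT

/-- Nonsingularity after one exchange, for a general element. -/
theorem nsone (F : Type) [Field F] {E : Type} [DecidableEq E] {B : Finset E} (D : E → B → F)
    (hDB : ∀ b : B, D b = Pi.single b 1) (e : E) (z : B) :
    (NS D (insert e (B.erase z)) ↔ D e z ≠ 0) := by
  constructor
  · intro h h0
    have h1 : (Pi.single z 1 : B → F) = 0 := by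
      apply h
      intro x hx
      rw [Finset.mem_insert, Finset.mem_erase] at hx
      rcases hx with rfl | ⟨hxz, hxB⟩
      · rw [single_dotProduct, h0, mul_zero]
      · rw [hDB ⟨x, hxB⟩, single_dotProduct, one_mul, Pi.single_eq_of_ne]
        intro h2
        exact hxz (congrArg Subtype.val h2).symm
    have h2 := congrFun h1 z
    simp at h2
  · intro h0 ψ hψ
    have h1 : ∀ b : B, b ≠ z → ψ b = 0 := by
      intro b hb
      have h2 := hψ b (Finset.mem_insert_of_mem (Finset.mem_erase.2
        ⟨fun h => hb (Subtype.ext h), b.2⟩))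
      rwa [hDB, dotProduct_single, mul_one] at h2
    have h3 := hψ e (Finset.mem_insert_self _ _)
    rw [dotProduct, Finset.sum_eq_single z] at h3
    · funext b
      by_cases hb : b = z
      · rw [hb]; exact (mul_eq_zero.1 h3).resolve_right h0
      · exact h1 b hb
    · intro b _ hb
      rw [h1 b hb, zero_mul]
    · intro h; exact absurd (Finset.mem_univ _) h

/-- Closure in the matroid through functionals. -/
theorem inClosure_iff_dual {R E F : Type} [Field F] [DecidableEq E] {A : Matrix R E F}
    {B : Finset E} {L : (B → F) →ₗ[F] (R → F)} {D : E → B → F} (hinj : Function.Injective L)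
    (hD : ∀ e, L (D e) = col A e) (X : Finset E) (e : E) :
    InClosure A X e ↔ ∀ ψ : B → F, (∀ x ∈ X, ψ ⬝ᵥ D x = 0) → ψ ⬝ᵥ D e = 0 := by
  classical
  have h0 : InClosure A X e ↔ D e ∈ Submodule.span F (D '' (X : Set E)) := by
    unfold InClosure
    have h1 : col A = L ∘ D := by funext e; exact (hD e).symm
    rw [h1, Set.image_comp, ← Submodule.map_span, Function.comp_apply]
    constructor
    · rintro ⟨x, hx, hxe⟩
      rwa [← hinj hxe]
    · intro h; exact ⟨_, h, rfl⟩
  rw [h0]
  constructor
  · intro h ψ hψ
    have hall : ∀ v ∈ Submodule.span F (D '' (X : Set E)), ψ ⬝ᵥ v = 0 := by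
      intro v hv
      induction hv using Submodule.span_induction with
      | mem x hx => obtain ⟨z, hz, rfl⟩ := hx; exact hψ z hz
      | zero => simp
      | add x y _ _ hx hy => rw [dotProduct_add, hx, hy, add_zero]
      | smul c x _ hx => rw [dotProduct_smul, hx, smul_zero]
    exact hall _ h
  · intro h
    by_contra hcon
    obtain ⟨f, hf, hf'⟩ := Submodule.exists_le_ker_of_notMem hcon
    have hfx : ∀ x : B → F, f x = (fun i => f (Pi.single i 1)) ⬝ᵥ x := by
      intro x
      have hx : x = ∑ i, x i • Pi.single i (1 : F) := by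
        funext j
        rw [Finset.sum_apply, Finset.sum_eq_single j]
        · simp
        · intro k _ hk
          rw [Pi.smul_apply, Pi.single_eq_of_ne (Ne.symm hk), smul_zero]
        · intro h; exact absurd (Finset.mem_univ _) h
      conv_lhs => rw [hx]
      rw [map_sum, dotProduct]
      apply Finset.sum_congr rfl
      intro i _
      rw [map_smul, smul_eq_mul, mul_comm]
    apply hf
    rw [hfx]
    apply h
    intro x hx
    rw [← hfx]
    exact hf' (Submodule.subset_span ⟨x, hx, rfl⟩)

/-- Closure inside a basis is determined by exchange tests. -/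
theorem kill_iff_exchange {F ι E : Type} [Field F] [Fintype ι] [DecidableEq ι] [DecidableEq E]
    (D : E → ι → F) (T : Finset E) (hT : T.card = Fintype.card ι) (hN : NS D T)
    (X : Finset E) (hX : X ⊆ T) (e : E) :
    (∀ ψ : ι → F, (∀ x ∈ X, ψ ⬝ᵥ D x = 0) → ψ ⬝ᵥ D e = 0) ↔
      ∀ t ∈ T, t ∉ X → ¬ NS D (insert e (T.erase t)) := by
  classical
  obtain ⟨K, hK1, hK2⟩ := exists_dual D T hT hN
  constructor
  · intro h t ht htX hns
    have h1 : K t ⬝ᵥ D e = 0 := by
      apply h
      intro x hx
      rw [hK1 t ht x (hX hx), if_neg]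
      rintro rfl; exact htX hx
    have h2 : K t = 0 := by
      apply hns
      intro x hx
      rw [Finset.mem_insert, Finset.mem_erase] at hx
      rcases hx with rfl | ⟨hxt, hxT⟩
      · exact h1
      · rw [hK1 t ht x hxT, if_neg (Ne.symm hxt)]
    have h3 := hK1 t ht t ht
    rw [h2] at h3
    simp at h3
  · intro h ψ hψ
    rw [hK2 ψ, sum_dotProduct]
    apply Finset.sum_eq_zero
    intro t ht
    rw [smul_dotProduct]
    by_cases htX : t ∈ X
    · rw [hψ t htX, zero_smul]
    · have h1 := h t ht htX
      unfold NS at h1
      push Not at h1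
      obtain ⟨φ, hφ, hφ0⟩ := h1
      have h2 : φ = (φ ⬝ᵥ D t) • K t := by
        conv_lhs => rw [hK2 φ]
        rw [Finset.sum_eq_single t]
        · intro s hs hst
          rw [hφ s (Finset.mem_insert_of_mem (Finset.mem_erase.2 ⟨hst, hs⟩)), zero_smul]
        · intro h; exact absurd ht h
      have h3 := hφ e (Finset.mem_insert_self _ _)
      rw [h2, smul_dotProduct, smul_eq_mul] at h3
      rcases mul_eq_zero.1 h3 with h4 | h4
      · exfalso; apply hφ0; rw [h2, h4, zero_smul]
      · rw [h4, smul_zero]

end Pool.Agent.H.MP_9123af_lc
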