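import Pool.Agent.H.MP_9123af_lc.HubData
import Pool.Agent.H.MP_9123af_lc.Cases

/-!
# Triangular patterns with many common partners are impossible
-/

namespace Pool.Agent.H.MP_9123af_lc

open Finset

variable {F : Type*} [Field F] {ι E : Type*} [Fintype ι] [DecidableEq ι] [DecidableEq E]

theorem pattern_diff (n : ℕ) (a : ℕ → F) (u v g : F) (i : ℕ) (hi : i < n) :
    (∑ k ∈ range n, a k * (if k < i + 1 then u else v) + g) -
      (∑ k ∈ range n, a k * (if k < i then u else v) + g) = (u - v) * a i := by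
  have e1 : (∑ k ∈ range n, a k * (if k < i + 1 then u else v) + g) -
      (∑ k ∈ range n, a k * (if k < i then u else v) + g) =
      ∑ k ∈ range n, (a k * (if k < i + 1 then u else v) - a k * (if k < i then u else v)) := by
    rw [Finset.sum_sub_distrib]; ring
  rw [e1, Finset.sum_eq_single i]
  · rw [if_pos (Nat.lt_succ_self i), if_neg (lt_irrefl i)]; ring
  · intro k _ hki
    by_cases h : k < i
    · rw [if_pos h, if_pos (by omega)]; ring
    · rw [if_neg h, if_neg (by omega)]; ring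
  · intro h; exact absurd (Finset.mem_range.2 hi) h

theorem pattern_sum (n : ℕ) (Ψ : ℕ → F) (u v : F) (huv : u ≠ v) (h0 : Ψ n = Ψ 0) (j : ℕ)
    (hj : j ≤ n) :
    ∑ i ∈ range n, (Ψ (i + 1) - Ψ i) / (u - v) * (if i < j then u else v) = Ψ j - Ψ 0 := by
  have hduv := sub_ne_zero.2 huv
  have e1 : ∀ i ∈ range n, (Ψ (i + 1) - Ψ i) / (u - v) * (if i < j then u else v) =
      (Ψ (i + 1) - Ψ i) / (u - v) * v + (if i < j then (Ψ (i + 1) - Ψ i) else 0) := by
    intro i _
    split_ifs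
    · field_simp; ring
    · ring
  rw [Finset.sum_congr rfl e1, Finset.sum_add_distrib, ← Finset.sum_mul]
  have e2 : ∑ i ∈ range n, (Ψ (i + 1) - Ψ i) / (u - v) = 0 := by
    rw [← Finset.sum_div, Finset.sum_range_sub, h0]
    simp
  have e3 : ∑ i ∈ range n, (if i < j then (Ψ (i + 1) - Ψ i) else 0) =
      ∑ i ∈ range j, (Ψ (i + 1) - Ψ i) := by
    rw [← Finset.sum_filter]
    apply Finset.sum_congr
    · ext i
      rw [Finset.mem_filter, Finset.mem_range, Finset.mem_range]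
      omega
    · intro i _; rfl
  rw [e2, e3, Finset.sum_range_sub]
  ring

/-- Common partners inside `S`. -/
theorem hubS_case {D₁ D₂ : E → ι → F} {emb : ι → E} (hinj : Function.Injective emb)
    (hemb₁ : ∀ i, D₁ (emb i) = Pi.single i 1) (hemb₂ : ∀ i, D₂ (emb i) = Pi.single i 1)
    {S : Finset E} {d : Data D₁ D₂ emb S} (hd : HubData d) (hS : S.card = Fintype.card ι)
    (hmin : Agree D₁ D₂ emb S) (B₀ : Finset ι) (p : ℕ) (hp : (p : F) = 0) (hp0 : 0 < p)
    (R : ℕ → E) (V W : ℕ → ι) (hR : ∀ i < 3 * p, R i ∈ d.Y ∧ R i ≠ d.y₀)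
    (hRinj : ∀ i < 3 * p, ∀ j < 3 * p, R i = R j → i = j)
    (hV : ∀ j ≤ 3 * p, V j ∈ d.J ∧ V j ∉ B₀)
    (hW : ∀ k < p, emb (W k) ∈ S ∧ W k ∉ B₀) (hWinj : ∀ i < p, ∀ j < p, W i = W j → i = j)
    (u v u' v' : F) (huv : u ≠ v) (huv' : u' ≠ v')
    (hg : ∀ i < 3 * p, ∀ j ≤ 3 * p,
      d.G (R i) (V j) = d.G d.y₀ (V j) * (if i < j then u else v))
    (hs : ∀ i < 3 * p, ∀ j ≤ 3 * p,
      d.σ (R i) (V j) = d.μ (V j) * (if i < j then u' else v'))
    (g₀ s₀ γ₀ t₀ : ι → F) (hg₀ : ∀ i < 3 * p, ∀ x ∈ B₀, d.G (R i) x = g₀ x)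
    (hs₀ : ∀ i < 3 * p, ∀ x ∈ B₀, d.σ (R i) x = s₀ x)
    (hγ₀ : ∀ k < p, ∀ x ∈ B₀, hd.Γ (W k) x = γ₀ x)
    (ht₀ : ∀ k < p, ∀ x ∈ B₀, hd.τ (W k) x = t₀ x)
    (g g' κ₀ : F) (hΓV : ∀ k < p, ∀ j ≤ 3 * p, hd.Γ (W k) (V j) = d.G d.y₀ (V j) * g)
    (hτV : ∀ k < p, ∀ j ≤ 3 * p, hd.τ (W k) (V j) = d.μ (V j) * g')
    (hκ : ∀ k < p, hd.κ (W k) = κ₀)
    (A₁ A₂ κ₁ κ₂ A₁' A₂' κ₃ : F) (hA₁ : A₁ ≠ 0) (hA₂ : A₂ ≠ 0) (hA₂' : A₂' ≠ 0)
    (ch : ∀ k < p, ∀ j, (j = 3 * k ∨ j = 3 * k + 3) → ∃ e,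
        (∀ z, z ∉ B₀ → z ≠ V j → z ≠ W k → D₁ e z = 0 ∧ D₂ e z = 0) ∧
        D₁ e (V j) * d.G d.y₀ (V j) = A₁ ∧ D₁ e (W k) = A₂ ∧
        ∑ z ∈ B₀, D₁ e z * g₀ z = κ₁ ∧ ∑ z ∈ B₀, D₁ e z * γ₀ z = κ₂ ∧
        D₂ e (V j) * d.μ (V j) = A₁' ∧ D₂ e (W k) = A₂' ∧
        ∑ z ∈ B₀, D₂ e z * d.μ z = κ₃) : False := by
  classical
  haveI : Nonempty E := ⟨d.y₀⟩
  choose! e₁ h₁ using fun k (hk : k < p) => ch k hk (3 * k) (Or.inl rfl)
  choose! e₂ h₂ using fun k (hk : k < p) => ch k hk (3 * k + 3) (Or.inr rfl)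
  clear ch
  set F₀ : Finset E := ((range p).image (fun k => emb (V (3 * k + 1))) ∪
    (range p).image (fun k => emb (V (3 * k + 2)))) ∪
    ((range p).image e₁ ∪ (range p).image e₂) with hF₀
  have hVW : ∀ j ≤ 3 * p, ∀ k < p, V j ≠ W k := by
    intro j hj k hk h
    have h1 := (d.hJ _).1 (hV j hj).1
    rw [h] at h1
    exact h1 (hW k hk).1
  have hc1 : ((range p).image (fun k => emb (V (3 * k + 1)))).card ≤ p :=
    Finset.card_image_le.trans (by rw [Finset.card_range])
  have hc2 : ((range p).image (fun k => emb (V (3 * k + 2)))).card ≤ p :=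
    Finset.card_image_le.trans (by rw [Finset.card_range])
  have hc3 : ((range p).image e₁).card ≤ p :=
    Finset.card_image_le.trans (by rw [Finset.card_range])
  have hc4 : ((range p).image e₂).card ≤ p :=
    Finset.card_image_le.trans (by rw [Finset.card_range])
  have hc12 := Finset.card_union_le ((range p).image (fun k => emb (V (3 * k + 1))))
    ((range p).image (fun k => emb (V (3 * k + 2))))
  have hc34 := Finset.card_union_le ((range p).image e₁) ((range p).image e₂)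
  have hm1 : ∀ k < p, emb (V (3 * k + 1)) ∈ F₀ := fun k hk =>
    Finset.mem_union_left _ (Finset.mem_union_left _
      (Finset.mem_image.2 ⟨k, Finset.mem_range.2 hk, rfl⟩))
  have hm2 : ∀ k < p, emb (V (3 * k + 2)) ∈ F₀ := fun k hk =>
    Finset.mem_union_left _ (Finset.mem_union_right _
      (Finset.mem_image.2 ⟨k, Finset.mem_range.2 hk, rfl⟩))
  have hm3 : ∀ k < p, e₁ k ∈ F₀ := fun k hk =>
    Finset.mem_union_right _ (Finset.mem_union_left _
      (Finset.mem_image.2 ⟨k, Finset.mem_range.2 hk, rfl⟩))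
  have hm4 : ∀ k < p, e₂ k ∈ F₀ := fun k hk =>
    Finset.mem_union_right _ (Finset.mem_union_right _
      (Finset.mem_image.2 ⟨k, Finset.mem_range.2 hk, rfl⟩))
  have hRW : ∀ i < 3 * p, ∀ k, emb (W k) ≠ R i := fun i hi k => ((d.hY _).1 (hR i hi).1).2 _
  have hWy : ∀ k, emb (W k) ≠ d.y₀ := fun k => ((d.hY _).1 d.hy₀).2 _
  refine hd.combine hinj hemb₁ hS hmin (3 * p) R hR hRinj p W (fun k hk => (hW k hk).1) hWinj F₀
    ?_ ?_ ?_
    (fun i => ((if (i + 1) % 3 = 0 then 1 else 0) - (if i % 3 = 0 then 1 else 0)) / (u' - v'))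
    (fun _ => -(A₁' + κ₃) / A₂') 1 ?_ ?_ one_ne_zero
  · refine (Finset.card_union_le _ _).trans ?_
    omega
  · have : F₀ \ Finset.univ.image emb ⊆ (range p).image e₁ ∪ (range p).image e₂ := by
      intro z hz
      rw [Finset.mem_sdiff, hF₀, Finset.mem_union] at hz
      rcases hz with ⟨hz | hz, hz'⟩
      · exfalso
        apply hz'
        rw [Finset.mem_union, Finset.mem_image, Finset.mem_image] at hz
        rcases hz with ⟨k, _, rfl⟩ | ⟨k, _, rfl⟩ <;> simp
      · exact hz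
    have := Finset.card_le_card this
    omega
  · intro a c ha
    set ψ : ι → F := ∑ i ∈ range (3 * p), a i • d.G (R i) + ∑ k ∈ range p, c k • hd.Γ (W k)
      with hψdef
    have hψD : ∀ e ∈ F₀, ψ ⬝ᵥ D₁ e = 0 := by
      intro e he
      rw [hψdef, add_dotProduct, sum_dotProduct, sum_dotProduct, ← ha e he]
      congr 1
      · apply Finset.sum_congr rfl
        intro i _
        rw [smul_dotProduct, smul_eq_mul]
      · apply Finset.sum_congr rfl
        intro i _
        rw [smul_dotProduct, smul_eq_mul]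
    set P := ∑ i ∈ range (3 * p), a i with hPdef
    set C := ∑ k ∈ range p, c k with hCdef
    set Ψ : ℕ → F := fun j => ∑ i ∈ range (3 * p), a i * (if i < j then u else v) + C * g
      with hΨdef
    have hψV : ∀ j ≤ 3 * p, ψ (V j) = d.G d.y₀ (V j) * Ψ j := by
      intro j hj
      rw [hψdef, Pi.add_apply, Finset.sum_apply, Finset.sum_apply, hΨdef]
      simp only
      rw [mul_add, Finset.mul_sum, hCdef, Finset.sum_mul, Finset.mul_sum]
      congr 1
      · apply Finset.sum_congr rfl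
        intro i hi
        rw [Pi.smul_apply, smul_eq_mul, hg i (Finset.mem_range.1 hi) j hj]
        ring
      · apply Finset.sum_congr rfl
        intro k hk
        rw [Pi.smul_apply, smul_eq_mul, hΓV k (Finset.mem_range.1 hk) j hj]
        ring
    have hψW : ∀ k < p, ψ (W k) = c k := by
      intro k hk
      have e1 : ψ (W k) = ψ ⬝ᵥ D₁ (emb (W k)) := by
        rw [hemb₁, dotProduct_single, mul_one]
      rw [e1, hψdef, add_dotProduct, sum_dotProduct, sum_dotProduct, Finset.sum_eq_zero, zero_add,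
        Finset.sum_eq_single k]
      · rw [smul_dotProduct, hd.hΓ _ (hW k hk).1 _ (hW k hk).1, if_pos rfl, smul_eq_mul, mul_one]
      · intro l hl hlk
        rw [smul_dotProduct, hd.hΓ _ (hW l (Finset.mem_range.1 hl)).1 _ (hW k hk).1, if_neg,
          smul_zero]
        intro h
        exact hlk (hWinj k hk l (Finset.mem_range.1 hl) (hinj h)).symm
      · intro h; exact absurd (Finset.mem_range.2 hk) h
      · intro i hi
        rw [smul_dotProduct, d.hG _ (hR i (Finset.mem_range.1 hi)).1 _ (hW k hk).1, if_neg,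
          smul_zero]
        exact (hRW i (Finset.mem_range.1 hi) k).symm
    have hρ : ∀ x ∈ B₀, ψ x = P * g₀ x + C * γ₀ x := by
      intro x hx
      rw [hψdef, Pi.add_apply, Finset.sum_apply, Finset.sum_apply, hPdef, hCdef, Finset.sum_mul,
        Finset.sum_mul]
      congr 1
      · apply Finset.sum_congr rfl
        intro i hi
        rw [Pi.smul_apply, smul_eq_mul, hg₀ i (Finset.mem_range.1 hi) x hx]
      · apply Finset.sum_congr rfl
        intro i hi
        rw [Pi.smul_apply, smul_eq_mul, hγ₀ i (Finset.mem_range.1 hi) x hx]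
    have hev : ∀ k < p, ∀ j ≤ 3 * p, ∀ e,
        (∀ z, z ∉ B₀ → z ≠ V j → z ≠ W k → D₁ e z = 0) →
        D₁ e (V j) * d.G d.y₀ (V j) = A₁ → D₁ e (W k) = A₂ →
        ∑ z ∈ B₀, D₁ e z * g₀ z = κ₁ → ∑ z ∈ B₀, D₁ e z * γ₀ z = κ₂ → e ∈ F₀ →
        A₁ * Ψ j + A₂ * c k + (P * κ₁ + C * κ₂) = 0 := by
      intro k hk j hj e hsup q1 q2 q3 q4 heF
      rw [← hψD e heF, eval_dot ψ (D₁ e) B₀ (V j) (W k) (hV j hj).2 (hW k hk).2 (hVW j hj k hk)
        (fun x h1 h2 h3 => by rw [hsup x h1 h2 h3, mul_zero]), hψV j hj, hψW k hk, ← q1, ← q2,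
        ← q3, ← q4, Finset.mul_sum, Finset.mul_sum, ← Finset.sum_add_distrib]
      have e1 : ∑ x ∈ B₀, ψ x * D₁ e x =
          ∑ x ∈ B₀, (P * (D₁ e x * g₀ x) + C * (D₁ e x * γ₀ x)) := by
        apply Finset.sum_congr rfl
        intro x hx
        rw [hρ x hx]; ring
      rw [e1]; ring
    have E1 : ∀ k < p, A₁ * Ψ (3 * k) + A₂ * c k + (P * κ₁ + C * κ₂) = 0 := fun k hk =>
      hev k hk (3 * k) (by omega) (e₁ k) (fun z a b c => ((h₁ k hk).1 z a b c).1)
        (h₁ k hk).2.1 (h₁ k hk).2.2.1 (h₁ k hk).2.2.2.1 (h₁ k hk).2.2.2.2.1 (hm3 k hk)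
    have E2 : ∀ k < p, A₁ * Ψ (3 * k + 3) + A₂ * c k + (P * κ₁ + C * κ₂) = 0 := fun k hk =>
      hev k hk (3 * k + 3) (by omega) (e₂ k) (fun z a b c => ((h₂ k hk).1 z a b c).1)
        (h₂ k hk).2.1 (h₂ k hk).2.2.1 (h₂ k hk).2.2.2.1 (h₂ k hk).2.2.2.2.1 (hm4 k hk)
    have Hall : ∀ k ≤ p, Ψ (3 * k) = Ψ 0 := by
      intro k
      induction k with
      | zero => intro _; rfl
      | succ k ih =>
        intro hk
        rw [← ih (by omega)]
        have q1 : A₁ * (Ψ (3 * k + 3) - Ψ (3 * k)) = 0 := by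
          linear_combination E2 k (by omega) - E1 k (by omega)
        exact sub_eq_zero.1 ((mul_eq_zero.1 q1).resolve_left hA₁)
    have hc0 : ∀ k < p, c k = -(A₁ * Ψ 0 + (P * κ₁ + C * κ₂)) / A₂ := by
      intro k hk
      have q1 := E1 k hk
      rw [Hall k (by omega)] at q1
      rw [eq_div_iff hA₂]
      linear_combination q1
    have hC0 : C = 0 := by
      rw [hCdef, Finset.sum_congr rfl (fun k hk => hc0 k (Finset.mem_range.1 hk)),
        Finset.sum_const, Finset.card_range, nsmul_eq_mul, hp, zero_mul]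
    have P0 : Ψ 0 = v * P + C * g := by
      rw [hΨdef]
      simp only
      rw [hPdef, Finset.mul_sum]
      congr 1
      apply Finset.sum_congr rfl
      intro i _
      rw [if_neg (Nat.not_lt_zero i)]; ring
    have P4 : Ψ (3 * p) = u * P + C * g := by
      rw [hΨdef]
      simp only
      rw [hPdef, Finset.mul_sum]
      congr 1
      apply Finset.sum_congr rfl
      intro i hi
      rw [if_pos (Finset.mem_range.1 hi)]; ring
    have hP0 : P = 0 := by
      have q1 : (u - v) * P = 0 := by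
        have := Hall p le_rfl
        rw [P0, P4] at this
        linear_combination this
      exact (mul_eq_zero.1 q1).resolve_left (sub_ne_zero.2 huv)
    have hΨ0 : Ψ 0 = 0 := by rw [P0, hP0, hC0]; ring
    have hcz : ∀ k < p, c k = 0 := by
      intro k hk
      rw [hc0 k hk, hΨ0, hP0, hC0]
      simp
    have hV1 : ∀ k < p, Ψ (3 * k + 1) = 0 := by
      intro k hk
      have q1 := hψD _ (hm1 k hk)
      rw [hemb₁, dotProduct_single, mul_one, hψV _ (by omega)] at q1
      exact (mul_eq_zero.1 q1).resolve_left (d.hG0 _ (hV _ (by omega)).1)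
    have hV2 : ∀ k < p, Ψ (3 * k + 2) = 0 := by
      intro k hk
      have q1 := hψD _ (hm2 k hk)
      rw [hemb₁, dotProduct_single, mul_one, hψV _ (by omega)] at q1
      exact (mul_eq_zero.1 q1).resolve_left (d.hG0 _ (hV _ (by omega)).1)
    have Zall : ∀ j ≤ 3 * p, Ψ j = 0 := by
      intro j hj
      have hj3 : j % 3 = 0 ∨ j % 3 = 1 ∨ j % 3 = 2 := by omega
      rcases hj3 with h | h | h
      · have : j = 3 * (j / 3) := by omega
        rw [this, Hall (j / 3) (by omega), hΨ0]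
      · have : j = 3 * (j / 3) + 1 := by omega
        rw [this, hV1 (j / 3) (by omega)]
      · have : j = 3 * (j / 3) + 2 := by omega
        rw [this, hV2 (j / 3) (by omega)]
    refine ⟨?_, hcz⟩
    intro i hi
    have hdiff := pattern_diff (3 * p) a u v (C * g) i hi
    have q1 : (u - v) * a i = 0 := by
      rw [← hdiff]
      have z1 := Zall (i + 1) (by omega)
      have z2 := Zall i (by omega)
      rw [hΨdef] at z1 z2
      simp only at z1 z2
      rw [z1, z2, sub_zero]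
    exact (mul_eq_zero.1 q1).resolve_left (sub_ne_zero.2 huv)
  all_goals
    set Ψ : ℕ → F := fun j => if j % 3 = 0 then 1 else 0 with hΨdef
  all_goals
    have hΨ1 : ∀ i : ℕ, (if (i + 1) % 3 = 0 then (1 : F) else 0) = Ψ (i + 1) := fun i => rfl
  all_goals
    have hΨ0 : ∀ i : ℕ, (if i % 3 = 0 then (1 : F) else 0) = Ψ i := fun i => rfl
  all_goals
    have V0 : Ψ 0 = 1 := by rw [hΨdef]; simp
  all_goals
    have Vm : ∀ k, Ψ (3 * k) = 1 := by
      intro k
      rw [hΨdef]; beta_reduce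
      rw [if_pos (by omega)]
  all_goals
    have hasum0 : ∑ i ∈ range (3 * p), (Ψ (i + 1) - Ψ i) / (u' - v') = 0 := by
      rw [← Finset.sum_div, Finset.sum_range_sub, Vm p, V0]
      simp
  · simp only [hΨ1, hΨ0]
    rw [hasum0, Finset.sum_congr rfl (fun k hk => by rw [hκ k (Finset.mem_range.1 hk)]),
      Finset.sum_const, Finset.card_range, nsmul_eq_mul, hp, zero_mul]
  · intro e he
    simp only [hΨ1, hΨ0]
    set a : ℕ → F := fun i => (Ψ (i + 1) - Ψ i) / (u' - v') with hadef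
    set c : F := -(A₁' + κ₃) / A₂' with hcdef
    set ψ : ι → F := (∑ i ∈ range (3 * p), a i • d.σ (R i)) +
      (∑ k ∈ range p, c • hd.τ (W k)) + d.μ with hψdef
    have hψD : ∀ e, ∑ i ∈ range (3 * p), a i * (d.σ (R i) ⬝ᵥ D₂ e) +
        ∑ k ∈ range p, c * (hd.τ (W k) ⬝ᵥ D₂ e) + 1 * (d.μ ⬝ᵥ D₂ e) = ψ ⬝ᵥ D₂ e := by
      intro e
      rw [hψdef, add_dotProduct, add_dotProduct, sum_dotProduct, sum_dotProduct, one_mul]
      congr 2
      · apply Finset.sum_congr rfl
        intro i _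
        rw [smul_dotProduct, smul_eq_mul]
      · apply Finset.sum_congr rfl
        intro i _
        rw [smul_dotProduct, smul_eq_mul]
    have hψV : ∀ j ≤ 3 * p, ψ (V j) = d.μ (V j) * Ψ j := by
      intro j hj
      have e2 : ∑ i ∈ range (3 * p), (a i • d.σ (R i)) (V j) =
          d.μ (V j) * (Ψ j - 1) := by
        rw [← V0, ← pattern_sum (3 * p) Ψ u' v' huv' (by rw [Vm, V0]) j hj, Finset.mul_sum]
        apply Finset.sum_congr rfl
        intro i hi
        rw [Pi.smul_apply, smul_eq_mul, hs i (Finset.mem_range.1 hi) j hj]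
        ring
      have e3 : ∑ k ∈ range p, (c • hd.τ (W k)) (V j) = 0 := by
        have : ∀ k ∈ range p, (c • hd.τ (W k)) (V j) = c * (d.μ (V j) * g') := by
          intro k hk
          rw [Pi.smul_apply, smul_eq_mul, hτV k (Finset.mem_range.1 hk) j hj]
        rw [Finset.sum_congr rfl this, Finset.sum_const, Finset.card_range, nsmul_eq_mul, hp,
          zero_mul]
      rw [hψdef, Pi.add_apply, Pi.add_apply, Finset.sum_apply, Finset.sum_apply, e2, e3]
      ring
    have hψW : ∀ k < p, ψ (W k) = c := by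
      intro k hk
      have e1 : ψ (W k) = ψ ⬝ᵥ D₂ (emb (W k)) := by
        rw [hemb₂, dotProduct_single, mul_one]
      rw [e1, hψdef, add_dotProduct, add_dotProduct, sum_dotProduct, sum_dotProduct,
        d.hμ _ (hW k hk).1, add_zero, Finset.sum_eq_zero, zero_add, Finset.sum_eq_single k]
      · rw [smul_dotProduct, hd.hτ _ (hW k hk).1 _ (hW k hk).1, if_pos rfl, smul_eq_mul, mul_one]
      · intro l hl hlk
        rw [smul_dotProduct, hd.hτ _ (hW l (Finset.mem_range.1 hl)).1 _ (hW k hk).1, if_neg,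
          if_neg (hWy k), smul_zero]
        intro h
        exact hlk (hWinj k hk l (Finset.mem_range.1 hl) (hinj h)).symm
      · intro h; exact absurd (Finset.mem_range.2 hk) h
      · intro i hi
        have hi' := hR i (Finset.mem_range.1 hi)
        rw [smul_dotProduct, d.hσ _ hi'.1 hi'.2 _ (hW k hk).1, if_neg, if_neg (hWy k), smul_zero]
        exact hRW i (Finset.mem_range.1 hi) k
    have hρ : ∀ x ∈ B₀, ψ x = d.μ x := by
      intro x hx
      rw [hψdef, Pi.add_apply, Pi.add_apply, Finset.sum_apply, Finset.sum_apply]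
      have e1 : ∑ i ∈ range (3 * p), (a i • d.σ (R i)) x =
          (∑ i ∈ range (3 * p), a i) * s₀ x := by
        rw [Finset.sum_mul]
        apply Finset.sum_congr rfl
        intro i hi
        rw [Pi.smul_apply, smul_eq_mul, hs₀ i (Finset.mem_range.1 hi) x hx]
      have e2 : ∑ k ∈ range p, (c • hd.τ (W k)) x = 0 := by
        have : ∀ k ∈ range p, (c • hd.τ (W k)) x = c * t₀ x := by
          intro k hk
          rw [Pi.smul_apply, smul_eq_mul, ht₀ k (Finset.mem_range.1 hk) x hx]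
        rw [Finset.sum_congr rfl this, Finset.sum_const, Finset.card_range, nsmul_eq_mul, hp,
          zero_mul]
      rw [e1, e2, hasum0]
      ring
    have hev : ∀ k < p, ∀ j ≤ 3 * p, ∀ e, Ψ j = 1 →
        (∀ z, z ∉ B₀ → z ≠ V j → z ≠ W k → D₂ e z = 0) →
        D₂ e (V j) * d.μ (V j) = A₁' → D₂ e (W k) = A₂' →
        ∑ z ∈ B₀, D₂ e z * d.μ z = κ₃ → ψ ⬝ᵥ D₂ e = 0 := by
      intro k hk j hj e hΨj hsup q1 q2 q3
      rw [eval_dot ψ (D₂ e) B₀ (V j) (W k) (hV j hj).2 (hW k hk).2 (hVW j hj k hk)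
        (fun x h1 h2 h3 => by rw [hsup x h1 h2 h3, mul_zero]), hψV j hj, hψW k hk, hΨj, q2]
      have e1 : ∑ x ∈ B₀, ψ x * D₂ e x = κ₃ := by
        rw [← q3]
        apply Finset.sum_congr rfl
        intro x hx
        rw [hρ x hx]; ring
      rw [e1, hcdef]
      have e2 : d.μ (V j) * 1 * D₂ e (V j) = A₁' := by rw [← q1]; ring
      rw [e2]
      field_simp
      ring
    rw [hψD]
    rw [hF₀, Finset.mem_union, Finset.mem_union, Finset.mem_union, Finset.mem_image,
      Finset.mem_image, Finset.mem_image, Finset.mem_image] at he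
    rcases he with (⟨k, hk, rfl⟩ | ⟨k, hk, rfl⟩) | (⟨k, hk, rfl⟩ | ⟨k, hk, rfl⟩)
    · have hk' := Finset.mem_range.1 hk
      rw [hemb₂, dotProduct_single, mul_one, hψV _ (by omega), hΨdef]
      beta_reduce
      rw [if_neg (by omega), mul_zero]
    · have hk' := Finset.mem_range.1 hk
      rw [hemb₂, dotProduct_single, mul_one, hψV _ (by omega), hΨdef]
      beta_reduce
      rw [if_neg (by omega), mul_zero]
    · have hk' := Finset.mem_range.1 hk
      exact hev k hk' (3 * k) (by omega) (e₁ k) (Vm k)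
        (fun z a b c => ((h₁ k hk').1 z a b c).2) (h₁ k hk').2.2.2.2.2.1
        (h₁ k hk').2.2.2.2.2.2.1 (h₁ k hk').2.2.2.2.2.2.2
    · have hk' := Finset.mem_range.1 hk
      exact hev k hk' (3 * k + 3) (by omega) (e₂ k) (Vm (k + 1))
        (fun z a b c => ((h₂ k hk').1 z a b c).2) (h₂ k hk').2.2.2.2.2.1
        (h₂ k hk').2.2.2.2.2.2.1 (h₂ k hk').2.2.2.2.2.2.2

end Pool.Agent.H.MP_9123af_lc
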