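import Pool.Agent.H.MP_9123af_lc.HubCases

/-!
# Triangular patterns with many common partners outside `S` are impossible
-/

namespace Pool.Agent.H.MP_9123af_lc

open Finset

variable {F : Type*} [Field F] {ι E : Type*} [Fintype ι] [DecidableEq ι] [DecidableEq E]

/-- Common partners outside `S`. -/
theorem hubJ_case {D₁ D₂ : E → ι → F} {emb : ι → E}
    (hemb₁ : ∀ i, D₁ (emb i) = Pi.single i 1) (hemb₂ : ∀ i, D₂ (emb i) = Pi.single i 1)
    {S : Finset E} (d : Data D₁ D₂ emb S) (hS : S.card = Fintype.card ι)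
    (hmin : Agree D₁ D₂ emb S) (B₀ : Finset ι)
    (R Q : ℕ → E) (V W : ℕ → ι) (hR : ∀ i < 3, R i ∈ d.Y ∧ R i ≠ d.y₀)
    (hRinj : ∀ i < 3, ∀ j < 3, R i = R j → i = j)
    (hQ : ∀ i < 3, Q i ∈ d.Y ∧ Q i ≠ d.y₀)
    (hQinj : ∀ i < 3, ∀ j < 3, Q i = Q j → i = j)
    (hRQ : ∀ i < 3, ∀ k < 3, R i ≠ Q k)
    (hV : ∀ j ≤ 3, V j ∈ d.J ∧ V j ∉ B₀) (hW : ∀ j ≤ 3, W j ∈ d.J ∧ W j ∉ B₀)
    (hVW : ∀ j ≤ 3, ∀ l ≤ 3, V j ≠ W l)
    (u v u' v' x y x' y' h h' z z' : F) (huv : u ≠ v) (huv' : u' ≠ v') (hxy : x ≠ y)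
    (hxy' : x' ≠ y')
    (hg : ∀ i < 3, ∀ j ≤ 3, d.G (R i) (V j) = d.G d.y₀ (V j) * (if i < j then u else v))
    (hs : ∀ i < 3, ∀ j ≤ 3, d.σ (R i) (V j) = d.μ (V j) * (if i < j then u' else v'))
    (hgW : ∀ i < 3, ∀ j ≤ 3, d.G (Q i) (W j) = d.G d.y₀ (W j) * (if i < j then x else y))
    (hsW : ∀ i < 3, ∀ j ≤ 3, d.σ (Q i) (W j) = d.μ (W j) * (if i < j then x' else y'))
    (hRW : ∀ i < 3, ∀ j ≤ 3, d.G (R i) (W j) = d.G d.y₀ (W j) * h)
    (hRW' : ∀ i < 3, ∀ j ≤ 3, d.σ (R i) (W j) = d.μ (W j) * h')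
    (hQV : ∀ i < 3, ∀ j ≤ 3, d.G (Q i) (V j) = d.G d.y₀ (V j) * z)
    (hQV' : ∀ i < 3, ∀ j ≤ 3, d.σ (Q i) (V j) = d.μ (V j) * z')
    (g₀ s₀ g₁ s₁ : ι → F) (hg₀ : ∀ i < 3, ∀ t ∈ B₀, d.G (R i) t = g₀ t)
    (hs₀ : ∀ i < 3, ∀ t ∈ B₀, d.σ (R i) t = s₀ t)
    (hg₁ : ∀ i < 3, ∀ t ∈ B₀, d.G (Q i) t = g₁ t)
    (hs₁ : ∀ i < 3, ∀ t ∈ B₀, d.σ (Q i) t = s₁ t)
    (A₁ A₂ κ₁ κ₂ A₁' A₂' κ₃ : F) (hA₁ : A₁ ≠ 0) (hA₂ : A₂ ≠ 0) (hA₁' : A₁' ≠ 0) (hA₂' : A₂' ≠ 0)
    (ch : ∀ j l, (l = 1 ∧ (j = 0 ∨ j = 3)) ∨ (j = 1 ∧ (l = 0 ∨ l = 3)) → ∃ e,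
        (∀ t, t ∉ B₀ → t ≠ V j → t ≠ W l → D₁ e t = 0 ∧ D₂ e t = 0) ∧
        D₁ e (V j) * d.G d.y₀ (V j) = A₁ ∧ D₁ e (W l) * d.G d.y₀ (W l) = A₂ ∧
        ∑ t ∈ B₀, D₁ e t * g₀ t = κ₁ ∧ ∑ t ∈ B₀, D₁ e t * g₁ t = κ₂ ∧
        D₂ e (V j) * d.μ (V j) = A₁' ∧ D₂ e (W l) * d.μ (W l) = A₂' ∧
        ∑ t ∈ B₀, D₂ e t * d.μ t = κ₃) : False := by
  classical
  obtain ⟨e₁, h₁⟩ := ch 0 1 (Or.inl ⟨rfl, Or.inl rfl⟩)
  obtain ⟨e₂, h₂⟩ := ch 3 1 (Or.inl ⟨rfl, Or.inr rfl⟩)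
  obtain ⟨e₃, h₃⟩ := ch 1 0 (Or.inr ⟨rfl, Or.inl rfl⟩)
  obtain ⟨e₄, h₄⟩ := ch 1 3 (Or.inr ⟨rfl, Or.inr rfl⟩)
  clear ch
  set F₀ : Finset E := {emb (V 2), emb (W 2), e₁, e₂, e₃, e₄} with hF₀
  have hm : ∀ e, e ∈ F₀ ↔ e = emb (V 2) ∨ e = emb (W 2) ∨ e = e₁ ∨ e = e₂ ∨ e = e₃ ∨ e = e₄ := by
    intro e; simp [hF₀]
  have hmV := (hm (emb (V 2))).2 (Or.inl rfl)
  have hmW := (hm (emb (W 2))).2 (Or.inr (Or.inl rfl))
  have hm1 := (hm e₁).2 (Or.inr (Or.inr (Or.inl rfl)))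
  have hm2 := (hm e₂).2 (Or.inr (Or.inr (Or.inr (Or.inl rfl))))
  have hm3 := (hm e₃).2 (Or.inr (Or.inr (Or.inr (Or.inr (Or.inl rfl)))))
  have hm4 := (hm e₄).2 (Or.inr (Or.inr (Or.inr (Or.inr (Or.inr rfl)))))
  set row : ℕ → E := fun i => if i < 3 then R i else Q (i - 3) with hrow
  have hrowR : ∀ i < 3, row i = R i := fun i hi => by rw [hrow]; beta_reduce; rw [if_pos hi]
  have hrowQ : ∀ i, row (3 + i) = Q i := fun i => by
    rw [hrow]; beta_reduce; rw [if_neg (by omega)]; congr 1; omega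
  have hsplit : ∀ f : ℕ → F, ∑ i ∈ range 6, f i = ∑ i ∈ range 3, f i + ∑ i ∈ range 3, f (3 + i) :=
    fun f => Finset.sum_range_add f 3 3
  have hsplitV : ∀ f : ℕ → (ι → F), ∑ i ∈ range 6, f i =
      ∑ i ∈ range 3, f i + ∑ i ∈ range 3, f (3 + i) :=
    fun f => Finset.sum_range_add f 3 3
  set Ψ : ℕ → F := fun j => if j = 1 then -(A₂' + κ₃) / A₁' else if j = 2 then 0 else 1 with hΨdef
  set Φ : ℕ → F := fun j => if j = 1 then -(A₁' + κ₃) / A₂' else if j = 2 then 0 else 1 with hΦdef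
  have Ψ0 : Ψ 0 = 1 := by simp [hΨdef]
  have Ψ1 : Ψ 1 = -(A₂' + κ₃) / A₁' := by simp [hΨdef]
  have Ψ2 : Ψ 2 = 0 := by simp [hΨdef]
  have Ψ3 : Ψ 3 = 1 := by simp [hΨdef]
  have Φ0 : Φ 0 = 1 := by simp [hΦdef]
  have Φ1 : Φ 1 = -(A₁' + κ₃) / A₂' := by simp [hΦdef]
  have Φ2 : Φ 2 = 0 := by simp [hΦdef]
  have Φ3 : Φ 3 = 1 := by simp [hΦdef]
  set b : ℕ → F := fun i => if i < 3 then (Ψ (i + 1) - Ψ i) / (u' - v') else
    (Φ (i - 3 + 1) - Φ (i - 3)) / (x' - y') with hbdef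
  have hbR : ∀ i ∈ range 3, b i = (Ψ (i + 1) - Ψ i) / (u' - v') := by
    intro i hi
    rw [hbdef]; beta_reduce
    rw [if_pos (Finset.mem_range.1 hi)]
  have hbQ : ∀ i ∈ range 3, b (3 + i) = (Φ (i + 1) - Φ i) / (x' - y') := by
    intro i _
    rw [hbdef]; beta_reduce
    rw [if_neg (by omega), Nat.add_sub_cancel_left]
  have hbR0 : ∑ i ∈ range 3, b i = 0 := by
    rw [Finset.sum_congr rfl hbR, ← Finset.sum_div, Finset.sum_range_sub, Ψ3, Ψ0]; simp
  have hbQ0 : ∑ i ∈ range 3, b (3 + i) = 0 := by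
    rw [Finset.sum_congr rfl hbQ, ← Finset.sum_div, Finset.sum_range_sub, Φ3, Φ0]; simp
  refine d.combine hS hmin 6 row ?_ ?_ F₀ ?_ ⟨V 2, hmV⟩ ?_ b 1 ?_ ?_ (Or.inr one_ne_zero)
  · intro i hi
    by_cases h3 : i < 3
    · rw [hrowR i h3]; exact hR i h3
    · have : i = 3 + (i - 3) := by omega
      rw [this, hrowQ]; exact hQ _ (by omega)
  · intro i hi j hj hij
    by_cases h3 : i < 3
    · by_cases h4 : j < 3
      · rw [hrowR i h3, hrowR j h4] at hij
        exact hRinj i h3 j h4 hij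
      · exfalso
        have : j = 3 + (j - 3) := by omega
        rw [hrowR i h3, this, hrowQ] at hij
        exact hRQ i h3 (j - 3) (by omega) hij
    · have hi3 : i = 3 + (i - 3) := by omega
      by_cases h4 : j < 3
      · exfalso
        rw [hrowR j h4, hi3, hrowQ] at hij
        exact hRQ j h4 (i - 3) (by omega) hij.symm
      · have hj3 : j = 3 + (j - 3) := by omega
        rw [hi3, hj3, hrowQ, hrowQ] at hij
        have := hQinj _ (by omega) _ (by omega) hij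
        omega
  · rw [hF₀]
    exact Finset.card_le_six
  · intro a ha
    set ψ : ι → F := ∑ i ∈ range 3, a i • d.G (R i) + ∑ i ∈ range 3, a (3 + i) • d.G (Q i)
      with hψdef
    have hψD : ∀ e ∈ F₀, ψ ⬝ᵥ D₁ e = 0 := by
      intro e he
      rw [hψdef, add_dotProduct, sum_dotProduct, sum_dotProduct, ← ha e he, hsplit]
      congr 1
      · apply Finset.sum_congr rfl
        intro i hi
        rw [smul_dotProduct, smul_eq_mul, hrowR i (Finset.mem_range.1 hi)]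
      · apply Finset.sum_congr rfl
        intro i _
        rw [smul_dotProduct, smul_eq_mul, hrowQ]
    set P := ∑ i ∈ range 3, a i with hPdef
    set C := ∑ i ∈ range 3, a (3 + i) with hCdef
    set X : ℕ → F := fun j => ∑ i ∈ range 3, a i * (if i < j then u else v) + C * z with hXdef
    set Z : ℕ → F := fun j => ∑ i ∈ range 3, a (3 + i) * (if i < j then x else y) + P * h
      with hZdef
    have hψV : ∀ j ≤ 3, ψ (V j) = d.G d.y₀ (V j) * X j := by
      intro j hj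
      rw [hψdef, Pi.add_apply, Finset.sum_apply, Finset.sum_apply, hXdef]
      simp only
      rw [mul_add, Finset.mul_sum, hCdef, Finset.sum_mul, Finset.mul_sum]
      congr 1
      · apply Finset.sum_congr rfl
        intro i hi
        rw [Pi.smul_apply, smul_eq_mul, hg i (Finset.mem_range.1 hi) j hj]
        ring
      · apply Finset.sum_congr rfl
        intro k hk
        rw [Pi.smul_apply, smul_eq_mul, hQV k (Finset.mem_range.1 hk) j hj]
        ring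
    have hψW : ∀ j ≤ 3, ψ (W j) = d.G d.y₀ (W j) * Z j := by
      intro j hj
      rw [hψdef, Pi.add_apply, Finset.sum_apply, Finset.sum_apply, hZdef]
      simp only
      rw [mul_add, Finset.mul_sum, hPdef, Finset.sum_mul, Finset.mul_sum, add_comm]
      congr 1
      · apply Finset.sum_congr rfl
        intro k hk
        rw [Pi.smul_apply, smul_eq_mul, hgW k (Finset.mem_range.1 hk) j hj]
        ring
      · apply Finset.sum_congr rfl
        intro i hi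
        rw [Pi.smul_apply, smul_eq_mul, hRW i (Finset.mem_range.1 hi) j hj]
        ring
    have hρ : ∀ t ∈ B₀, ψ t = P * g₀ t + C * g₁ t := by
      intro t ht
      rw [hψdef, Pi.add_apply, Finset.sum_apply, Finset.sum_apply, hPdef, hCdef, Finset.sum_mul,
        Finset.sum_mul]
      congr 1
      · apply Finset.sum_congr rfl
        intro i hi
        rw [Pi.smul_apply, smul_eq_mul, hg₀ i (Finset.mem_range.1 hi) t ht]
      · apply Finset.sum_congr rfl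
        intro i hi
        rw [Pi.smul_apply, smul_eq_mul, hg₁ i (Finset.mem_range.1 hi) t ht]
    have hev : ∀ j ≤ 3, ∀ l ≤ 3, ∀ e,
        (∀ t, t ∉ B₀ → t ≠ V j → t ≠ W l → D₁ e t = 0) →
        D₁ e (V j) * d.G d.y₀ (V j) = A₁ → D₁ e (W l) * d.G d.y₀ (W l) = A₂ →
        ∑ t ∈ B₀, D₁ e t * g₀ t = κ₁ → ∑ t ∈ B₀, D₁ e t * g₁ t = κ₂ → e ∈ F₀ →
        A₁ * X j + A₂ * Z l + (P * κ₁ + C * κ₂) = 0 := by
      intro j hj l hl e hsup q1 q2 q3 q4 heF
      rw [← hψD e heF, eval_dot ψ (D₁ e) B₀ (V j) (W l) (hV j hj).2 (hW l hl).2 (hVW j hj l hl)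
        (fun x h1 h2 h3 => by rw [hsup x h1 h2 h3, mul_zero]), hψV j hj, hψW l hl, ← q1, ← q2,
        ← q3, ← q4, Finset.mul_sum, Finset.mul_sum, ← Finset.sum_add_distrib]
      have e1 : ∑ x ∈ B₀, ψ x * D₁ e x =
          ∑ x ∈ B₀, (P * (D₁ e x * g₀ x) + C * (D₁ e x * g₁ x)) := by
        apply Finset.sum_congr rfl
        intro x hx
        rw [hρ x hx]; ring
      rw [e1]; ring
    have E1 := hev 0 (by omega) 1 (by omega) e₁ (fun t a b c => (h₁.1 t a b c).1)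
      h₁.2.1 h₁.2.2.1 h₁.2.2.2.1 h₁.2.2.2.2.1 hm1
    have E2 := hev 3 (by omega) 1 (by omega) e₂ (fun t a b c => (h₂.1 t a b c).1)
      h₂.2.1 h₂.2.2.1 h₂.2.2.2.1 h₂.2.2.2.2.1 hm2
    have E3 := hev 1 (by omega) 0 (by omega) e₃ (fun t a b c => (h₃.1 t a b c).1)
      h₃.2.1 h₃.2.2.1 h₃.2.2.2.1 h₃.2.2.2.2.1 hm3
    have E4 := hev 1 (by omega) 3 (by omega) e₄ (fun t a b c => (h₄.1 t a b c).1)
      h₄.2.1 h₄.2.2.1 h₄.2.2.2.1 h₄.2.2.2.2.1 hm4
    have X0 : X 0 = v * P + C * z := by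
      rw [hXdef]
      simp only
      rw [hPdef, Finset.mul_sum]
      congr 1
      apply Finset.sum_congr rfl
      intro i _
      rw [if_neg (Nat.not_lt_zero i)]; ring
    have X3 : X 3 = u * P + C * z := by
      rw [hXdef]
      simp only
      rw [hPdef, Finset.mul_sum]
      congr 1
      apply Finset.sum_congr rfl
      intro i hi
      rw [if_pos (Finset.mem_range.1 hi)]; ring
    have Z0 : Z 0 = y * C + P * h := by
      rw [hZdef]
      simp only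
      rw [hCdef, Finset.mul_sum]
      congr 1
      apply Finset.sum_congr rfl
      intro i _
      rw [if_neg (Nat.not_lt_zero i)]; ring
    have Z3 : Z 3 = x * C + P * h := by
      rw [hZdef]
      simp only
      rw [hCdef, Finset.mul_sum]
      congr 1
      apply Finset.sum_congr rfl
      intro i hi
      rw [if_pos (Finset.mem_range.1 hi)]; ring
    have q1 : X 3 - X 0 = 0 := by
      have : A₁ * (X 3 - X 0) = 0 := by linear_combination E2 - E1
      exact (mul_eq_zero.1 this).resolve_left hA₁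
    have q2 : Z 3 - Z 0 = 0 := by
      have : A₂ * (Z 3 - Z 0) = 0 := by linear_combination E4 - E3
      exact (mul_eq_zero.1 this).resolve_left hA₂
    have hP0 : P = 0 := by
      have : (u - v) * P = 0 := by rw [X0, X3] at q1; linear_combination q1
      exact (mul_eq_zero.1 this).resolve_left (sub_ne_zero.2 huv)
    have hC0 : C = 0 := by
      have : (x - y) * C = 0 := by rw [Z0, Z3] at q2; linear_combination q2
      exact (mul_eq_zero.1 this).resolve_left (sub_ne_zero.2 hxy)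
    have X0' : X 0 = 0 := by rw [X0, hP0, hC0]; ring
    have X3' : X 3 = 0 := by rw [X3, hP0, hC0]; ring
    have Z0' : Z 0 = 0 := by rw [Z0, hP0, hC0]; ring
    have Z3' : Z 3 = 0 := by rw [Z3, hP0, hC0]; ring
    have Z1' : Z 1 = 0 := by
      rw [X0', hP0, hC0] at E1
      have : A₂ * Z 1 = 0 := by linear_combination E1
      exact (mul_eq_zero.1 this).resolve_left hA₂
    have X1' : X 1 = 0 := by
      rw [Z0', hP0, hC0] at E3
      have : A₁ * X 1 = 0 := by linear_combination E3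
      exact (mul_eq_zero.1 this).resolve_left hA₁
    have X2' : X 2 = 0 := by
      have q3 := hψD _ hmV
      rw [hemb₁, dotProduct_single, mul_one, hψV _ (by omega)] at q3
      exact (mul_eq_zero.1 q3).resolve_left (d.hG0 _ (hV _ (by omega)).1)
    have Z2' : Z 2 = 0 := by
      have q3 := hψD _ hmW
      rw [hemb₁, dotProduct_single, mul_one, hψW _ (by omega)] at q3
      exact (mul_eq_zero.1 q3).resolve_left (d.hG0 _ (hW _ (by omega)).1)
    have Xall : ∀ j ≤ 3, X j = 0 := by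
      intro j hj
      interval_cases j <;> assumption
    have Zall : ∀ j ≤ 3, Z j = 0 := by
      intro j hj
      interval_cases j <;> assumption
    intro i hi
    by_cases h3 : i < 3
    · have hdiff := pattern_diff 3 a u v (C * z) i h3
      have q3 : (u - v) * a i = 0 := by
        rw [← hdiff]
        have z1 := Xall (i + 1) (by omega)
        have z2 := Xall i (by omega)
        rw [hXdef] at z1 z2
        simp only at z1 z2
        rw [z1, z2, sub_zero]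
      exact (mul_eq_zero.1 q3).resolve_left (sub_ne_zero.2 huv)
    · have hi3 : i = 3 + (i - 3) := by omega
      rw [hi3]
      have hdiff := pattern_diff 3 (fun k => a (3 + k)) x y (P * h) (i - 3) (by omega)
      have q3 : (x - y) * a (3 + (i - 3)) = 0 := by
        rw [← hdiff]
        have z1 := Zall (i - 3 + 1) (by omega)
        have z2 := Zall (i - 3) (by omega)
        rw [hZdef] at z1 z2
        simp only at z1 z2
        rw [z1, z2, sub_zero]
      exact (mul_eq_zero.1 q3).resolve_left (sub_ne_zero.2 hxy)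
  · rw [hsplit, hbR0, hbQ0, add_zero]
  · intro e he
    set ψ : ι → F := (∑ i ∈ range 3, b i • d.σ (R i)) +
      (∑ i ∈ range 3, b (3 + i) • d.σ (Q i)) + d.μ with hψdef
    have hψD : ∀ e, ∑ i ∈ range 6, b i * (d.σ (row i) ⬝ᵥ D₂ e) + 1 * (d.μ ⬝ᵥ D₂ e) =
        ψ ⬝ᵥ D₂ e := by
      intro e
      rw [hψdef, add_dotProduct, add_dotProduct, sum_dotProduct, sum_dotProduct, one_mul, hsplit]
      congr 2
      · apply Finset.sum_congr rfl
        intro i hi
        rw [smul_dotProduct, smul_eq_mul, hrowR i (Finset.mem_range.1 hi)]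
      · apply Finset.sum_congr rfl
        intro i _
        rw [smul_dotProduct, smul_eq_mul, hrowQ]
    have hψV : ∀ j ≤ 3, ψ (V j) = d.μ (V j) * Ψ j := by
      intro j hj
      have e2 : ∑ i ∈ range 3, (b i • d.σ (R i)) (V j) = d.μ (V j) * (Ψ j - 1) := by
        rw [← Ψ0, ← pattern_sum 3 Ψ u' v' huv' (by rw [Ψ3, Ψ0]) j hj, Finset.mul_sum]
        apply Finset.sum_congr rfl
        intro i hi
        rw [Pi.smul_apply, smul_eq_mul, hs i (Finset.mem_range.1 hi) j hj, hbR i hi]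
        ring
      have e3 : ∑ i ∈ range 3, (b (3 + i) • d.σ (Q i)) (V j) = 0 := by
        have : ∀ k ∈ range 3, (b (3 + k) • d.σ (Q k)) (V j) = b (3 + k) * (d.μ (V j) * z') := by
          intro k hk
          rw [Pi.smul_apply, smul_eq_mul, hQV' k (Finset.mem_range.1 hk) j hj]
        rw [Finset.sum_congr rfl this, ← Finset.sum_mul, hbQ0, zero_mul]
      rw [hψdef, Pi.add_apply, Pi.add_apply, Finset.sum_apply, Finset.sum_apply, e2, e3]
      ring
    have hψW : ∀ j ≤ 3, ψ (W j) = d.μ (W j) * Φ j := by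
      intro j hj
      have e2 : ∑ i ∈ range 3, (b (3 + i) • d.σ (Q i)) (W j) = d.μ (W j) * (Φ j - 1) := by
        rw [← Φ0, ← pattern_sum 3 Φ x' y' hxy' (by rw [Φ3, Φ0]) j hj, Finset.mul_sum]
        apply Finset.sum_congr rfl
        intro i hi
        rw [Pi.smul_apply, smul_eq_mul, hsW i (Finset.mem_range.1 hi) j hj, hbQ i hi]
        ring
      have e3 : ∑ i ∈ range 3, (b i • d.σ (R i)) (W j) = 0 := by
        have : ∀ k ∈ range 3, (b k • d.σ (R k)) (W j) = b k * (d.μ (W j) * h') := by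
          intro k hk
          rw [Pi.smul_apply, smul_eq_mul, hRW' k (Finset.mem_range.1 hk) j hj]
        rw [Finset.sum_congr rfl this, ← Finset.sum_mul, hbR0, zero_mul]
      rw [hψdef, Pi.add_apply, Pi.add_apply, Finset.sum_apply, Finset.sum_apply, e2, e3]
      ring
    have hρ : ∀ t ∈ B₀, ψ t = d.μ t := by
      intro t ht
      rw [hψdef, Pi.add_apply, Pi.add_apply, Finset.sum_apply, Finset.sum_apply]
      have e1 : ∑ i ∈ range 3, (b i • d.σ (R i)) t = 0 := by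
        have : ∀ k ∈ range 3, (b k • d.σ (R k)) t = b k * s₀ t := by
          intro k hk
          rw [Pi.smul_apply, smul_eq_mul, hs₀ k (Finset.mem_range.1 hk) t ht]
        rw [Finset.sum_congr rfl this, ← Finset.sum_mul, hbR0, zero_mul]
      have e2 : ∑ i ∈ range 3, (b (3 + i) • d.σ (Q i)) t = 0 := by
        have : ∀ k ∈ range 3, (b (3 + k) • d.σ (Q k)) t = b (3 + k) * s₁ t := by
          intro k hk
          rw [Pi.smul_apply, smul_eq_mul, hs₁ k (Finset.mem_range.1 hk) t ht]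
        rw [Finset.sum_congr rfl this, ← Finset.sum_mul, hbQ0, zero_mul]
      rw [e1, e2]
      ring
    have hev : ∀ j ≤ 3, ∀ l ≤ 3, ∀ e,
        (∀ t, t ∉ B₀ → t ≠ V j → t ≠ W l → D₂ e t = 0) →
        D₂ e (V j) * d.μ (V j) = A₁' → D₂ e (W l) * d.μ (W l) = A₂' →
        ∑ t ∈ B₀, D₂ e t * d.μ t = κ₃ →
        ψ ⬝ᵥ D₂ e = A₁' * Ψ j + A₂' * Φ l + κ₃ := by
      intro j hj l hl e hsup q1 q2 q3
      rw [eval_dot ψ (D₂ e) B₀ (V j) (W l) (hV j hj).2 (hW l hl).2 (hVW j hj l hl)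
        (fun x h1 h2 h3 => by rw [hsup x h1 h2 h3, mul_zero]), hψV j hj, hψW l hl, ← q1, ← q2,
        ← q3]
      have e1 : ∑ x ∈ B₀, ψ x * D₂ e x = ∑ x ∈ B₀, D₂ e x * d.μ x := by
        apply Finset.sum_congr rfl
        intro x hx
        rw [hρ x hx]; ring
      rw [e1]; ring
    rw [hψD]
    rw [hm] at he
    rcases he with rfl | rfl | rfl | rfl | rfl | rfl
    · rw [hemb₂, dotProduct_single, mul_one, hψV _ (by omega), Ψ2, mul_zero]
    · rw [hemb₂, dotProduct_single, mul_one, hψW _ (by omega), Φ2, mul_zero]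
    · rw [hev 0 (by omega) 1 (by omega) e (fun t a b c => (h₁.1 t a b c).2)
        h₁.2.2.2.2.2.1 h₁.2.2.2.2.2.2.1 h₁.2.2.2.2.2.2.2, Ψ0, Φ1]
      field_simp
      ring
    · rw [hev 3 (by omega) 1 (by omega) e (fun t a b c => (h₂.1 t a b c).2)
        h₂.2.2.2.2.2.1 h₂.2.2.2.2.2.2.1 h₂.2.2.2.2.2.2.2, Ψ3, Φ1]
      field_simp
      ring
    · rw [hev 1 (by omega) 0 (by omega) e (fun t a b c => (h₃.1 t a b c).2)
        h₃.2.2.2.2.2.1 h₃.2.2.2.2.2.2.1 h₃.2.2.2.2.2.2.2, Ψ1, Φ0]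
      field_simp
      ring
    · rw [hev 1 (by omega) 3 (by omega) e (fun t a b c => (h₄.1 t a b c).2)
        h₄.2.2.2.2.2.1 h₄.2.2.2.2.2.2.1 h₄.2.2.2.2.2.2.2, Ψ1, Φ3]
      field_simp
      ring

end Pool.Agent.H.MP_9123af_lc
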