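import Pool.Agent.H.MP_9123af_lc.Core

/-!
# Functionals attached to the basis elements of a smallest violation
-/

namespace Pool.Agent.H.MP_9123af_lc

open Finset

variable {F : Type*} [Field F] {ι E : Type*} [Fintype ι] [DecidableEq ι] [DecidableEq E]

/-- Functionals attached to the basis elements that belong to `S`. -/
structure HubData {D₁ D₂ : E → ι → F} {emb : ι → E} {S : Finset E} (d : Data D₁ D₂ emb S) where
  Γ : ι → ι → F
  τ : ι → ι → F
  κ : ι → F
  hΓ : ∀ w, emb w ∈ S → ∀ t ∈ S, Γ w ⬝ᵥ D₁ t = if t = emb w then 1 else 0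
  hτ : ∀ w, emb w ∈ S → ∀ t ∈ S,
    τ w ⬝ᵥ D₂ t = if t = emb w then 1 else if t = d.y₀ then κ w else 0
  hexp : ∀ ψ : ι → F, ψ = ∑ s ∈ d.Y, (ψ ⬝ᵥ D₁ s) • d.G s +
    ∑ w ∈ Finset.univ.filter (fun w => emb w ∈ S), ψ w • Γ w

theorem exists_hubData {D₁ D₂ : E → ι → F} {emb : ι → E} (hinj : Function.Injective emb)
    (hemb₁ : ∀ i, D₁ (emb i) = Pi.single i 1)
    {S : Finset E} (hS : S.card = Fintype.card ι) (hN₁ : NS D₁ S)
    (hmin : Agree D₁ D₂ emb S) (d : Data D₁ D₂ emb S) : Nonempty (HubData d) := by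
  classical
  obtain ⟨G₁, hG1, hG2⟩ := exists_dual D₁ S hS hN₁
  have hGY : ∀ s ∈ d.Y, d.G s = G₁ s := by
    intro s hs
    rw [hG2 (d.G s), Finset.sum_eq_single s]
    · rw [d.hG s hs s (d.hYS hs), if_pos rfl, one_smul]
    · intro t ht hts
      rw [d.hG s hs t ht, if_neg (Ne.symm hts), zero_smul]
    · intro h; exact absurd (d.hYS hs) h
  have hJne : ∃ b, b ∈ d.J := by
    by_contra hcon
    push Not at hcon
    apply d.hμ0
    funext b
    exact d.hμJ' b (hcon b)
  obtain ⟨b, hb⟩ := hJne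
  have hbS : emb b ∉ S := (d.hJ b).1 hb
  have hy₀S := d.hYS d.hy₀
  have hn₁ : NS D₁ (insert (emb b) (S.erase d.y₀)) := by
    rw [ns_one hemb₁ hG1 hG2 hy₀S b, ← hGY _ d.hy₀]
    exact d.hG0 b hb
  have hYeq : S \ Finset.univ.image emb = d.Y := by
    ext e
    rw [Finset.mem_sdiff, d.hY]
    simp
  have hc : (insert (emb b) (S.erase d.y₀)).card = Fintype.card ι := by
    rw [Finset.card_insert_of_notMem (fun h => hbS (Finset.mem_of_mem_erase h)),
      Finset.card_erase_of_mem hy₀S, hS]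
    have : 0 < S.card := Finset.card_pos.2 ⟨_, hy₀S⟩
    omega
  have hn₂ : NS D₂ (insert (emb b) (S.erase d.y₀)) := by
    refine (hmin _ hc ?_).1 hn₁
    rw [hYeq]
    apply Finset.card_lt_card
    rw [Finset.ssubset_iff_of_subset]
    · refine ⟨d.y₀, d.hy₀, ?_⟩
      rw [Finset.mem_sdiff, Finset.mem_insert, Finset.mem_erase]
      rintro ⟨h1 | h1, _⟩
      · exact ((d.hY _).1 d.hy₀).2 b h1.symm
      · exact h1.1 rfl
    · intro z hz
      rw [Finset.mem_sdiff, Finset.mem_insert] at hz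
      rcases hz with ⟨h1 | h1, h2⟩
      · exact absurd (by rw [h1]; simp) h2
      · rw [← hYeq]
        exact Finset.mem_sdiff.2 ⟨Finset.mem_of_mem_erase h1, h2⟩
  obtain ⟨K, hK1, _⟩ := exists_dual D₂ _ hc hn₂
  have hmemT : ∀ t ∈ S, t ≠ d.y₀ → t ∈ insert (emb b) (S.erase d.y₀) := fun t ht h =>
    Finset.mem_insert_of_mem (Finset.mem_erase.2 ⟨h, ht⟩)
  have hwy : ∀ w, emb w ≠ d.y₀ := ((d.hY _).1 d.hy₀).2
  refine ⟨{ Γ := fun w => G₁ (emb w), τ := fun w => K (emb w),
            κ := fun w => K (emb w) ⬝ᵥ D₂ d.y₀, hΓ := ?_, hτ := ?_, hexp := ?_ }⟩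
  · intro w hw t ht
    rw [hG1 _ hw t ht]
    by_cases h : emb w = t
    · rw [if_pos h, if_pos h.symm]
    · rw [if_neg h, if_neg (Ne.symm h)]
  · intro w hw t ht
    by_cases hty : t = d.y₀
    · rw [if_neg (by rw [hty]; exact (hwy w).symm), if_pos hty, hty]
    · rw [if_neg hty, hK1 _ (hmemT _ hw (hwy w)) t (hmemT t ht hty)]
      by_cases h : emb w = t
      · rw [if_pos h, if_pos h.symm]
      · rw [if_neg h, if_neg (Ne.symm h)]
  · intro ψ
    conv_lhs => rw [hG2 ψ]
    have hS' : S = d.Y ∪ (Finset.univ.filter (fun w => emb w ∈ S)).image emb := by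
      ext e
      rw [Finset.mem_union, d.hY, Finset.mem_image]
      constructor
      · intro he
        by_cases h : ∃ i, emb i = e
        · obtain ⟨i, rfl⟩ := h
          exact Or.inr ⟨i, by simp [he], rfl⟩
        · push Not at h
          exact Or.inl ⟨he, h⟩
      · rintro (h | ⟨i, hi, rfl⟩)
        · exact h.1
        · exact (Finset.mem_filter.1 hi).2
    have hdis : Disjoint d.Y ((Finset.univ.filter (fun w => emb w ∈ S)).image emb) := by
      rw [Finset.disjoint_left]
      intro e he he'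
      rw [Finset.mem_image] at he'
      obtain ⟨i, _, rfl⟩ := he'
      exact ((d.hY _).1 he).2 i rfl
    have e1 : ∑ s ∈ S, (ψ ⬝ᵥ D₁ s) • G₁ s =
        ∑ s ∈ d.Y ∪ (Finset.univ.filter (fun w => emb w ∈ S)).image emb,
          (ψ ⬝ᵥ D₁ s) • G₁ s := by
      rw [← hS']
    rw [e1, Finset.sum_union hdis, Finset.sum_image (fun i _ j _ h => hinj h)]
    congr 1
    · apply Finset.sum_congr rfl
      intro s hs
      rw [hGY s hs]
    · apply Finset.sum_congr rfl
      intro w _
      rw [hemb₁, dotProduct_single, mul_one]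

/-- The combination principle with removed basis elements. -/
theorem HubData.combine {D₁ D₂ : E → ι → F} {emb : ι → E} {S : Finset E}
    {d : Data D₁ D₂ emb S} (hd : HubData d) (hinj : Function.Injective emb)
    (hemb₁ : ∀ i, D₁ (emb i) = Pi.single i 1)
    (hS : S.card = Fintype.card ι) (hmin : Agree D₁ D₂ emb S)
    (n : ℕ) (y : ℕ → E) (hy : ∀ i < n, y i ∈ d.Y ∧ y i ≠ d.y₀)
    (hyinj : ∀ i < n, ∀ j < n, y i = y j → i = j)
    (m : ℕ) (w : ℕ → ι) (hw : ∀ k < m, emb (w k) ∈ S)
    (hwinj : ∀ i < m, ∀ j < m, w i = w j → i = j)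
    (F₀ : Finset E) (hF : F₀.card ≤ n + m) (hFB : (F₀ \ Finset.univ.image emb).card < n)
    (h1 : ∀ a c : ℕ → F, (∀ e ∈ F₀, ∑ i ∈ range n, a i * (d.G (y i) ⬝ᵥ D₁ e) +
      ∑ k ∈ range m, c k * (hd.Γ (w k) ⬝ᵥ D₁ e) = 0) →
      (∀ i < n, a i = 0) ∧ ∀ k < m, c k = 0)
    (a c : ℕ → F) (a₀ : F) (ha : ∑ i ∈ range n, a i = ∑ k ∈ range m, c k * hd.κ (w k))
    (h2 : ∀ e ∈ F₀, ∑ i ∈ range n, a i * (d.σ (y i) ⬝ᵥ D₂ e) +
      ∑ k ∈ range m, c k * (hd.τ (w k) ⬝ᵥ D₂ e) + a₀ * (d.μ ⬝ᵥ D₂ e) = 0)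
    (hne : a₀ ≠ 0) : False := by
  classical
  have hnotY : ∀ k, emb (w k) ∉ d.Y := fun k h => ((d.hY _).1 h).2 (w k) rfl
  set Y₀ : Finset E := (range n).image y with hY₀
  set W₀ : Finset ι := (range m).image w with hW₀
  have hinjOn : Set.InjOn y (range n : Finset ℕ) := by
    intro i hi j hj hij
    exact hyinj i (by simpa using hi) j (by simpa using hj) hij
  have hwinjOn : Set.InjOn w (range m : Finset ℕ) := by
    intro i hi j hj hij
    exact hwinj i (by simpa using hi) j (by simpa using hj) hij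
  have hY₀c : Y₀.card = n := by
    rw [hY₀, Finset.card_image_of_injOn hinjOn, Finset.card_range]
  have hW₀c : W₀.card = m := by
    rw [hW₀, Finset.card_image_of_injOn hwinjOn, Finset.card_range]
  have hY₀Y : Y₀ ⊆ d.Y := by
    intro z hz
    rw [hY₀, Finset.mem_image] at hz
    obtain ⟨i, hi, rfl⟩ := hz
    exact (hy i (Finset.mem_range.1 hi)).1
  have hY₀S : Y₀ ⊆ S := hY₀Y.trans d.hYS
  set R₀ : Finset E := Y₀ ∪ W₀.image emb with hR₀
  have hdis : Disjoint Y₀ (W₀.image emb) := by
    rw [Finset.disjoint_left]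
    intro e he he'
    rw [Finset.mem_image] at he'
    obtain ⟨i, _, rfl⟩ := he'
    exact ((d.hY _).1 (hY₀Y he)).2 i rfl
  have hR₀c : R₀.card = n + m := by
    rw [hR₀, Finset.card_union_of_disjoint hdis, hY₀c, Finset.card_image_of_injective _ hinj, hW₀c]
  have hW₀S : ∀ i ∈ W₀, emb i ∈ S := by
    intro i hi
    rw [hW₀, Finset.mem_image] at hi
    obtain ⟨k, hk, rfl⟩ := hi
    exact hw k (Finset.mem_range.1 hk)
  have hR₀S : R₀ ⊆ S := by
    rw [hR₀]
    apply Finset.union_subset hY₀S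
    intro e he
    rw [Finset.mem_image] at he
    obtain ⟨i, hi, rfl⟩ := he
    exact hW₀S i hi
  have hNS1 : NS D₁ ((S \ R₀) ∪ F₀) := by
    intro ψ hψ
    have e1 : ψ = ∑ i ∈ range n, (ψ ⬝ᵥ D₁ (y i)) • d.G (y i) +
        ∑ k ∈ range m, ψ (w k) • hd.Γ (w k) := by
      conv_lhs => rw [hd.hexp ψ]
      congr 1
      · rw [← Finset.sum_image (s := range n) (g := y)
          (f := fun s => (ψ ⬝ᵥ D₁ s) • d.G s) hinjOn]
        symm
        apply Finset.sum_subset hY₀Y
        intro z hz hz'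
        rw [hψ z (Finset.mem_union_left _ (Finset.mem_sdiff.2 ⟨d.hYS hz, ?_⟩)), zero_smul]
        rw [hR₀, Finset.mem_union]
        rintro (h | h)
        · exact hz' h
        · rw [Finset.mem_image] at h
          obtain ⟨i, _, rfl⟩ := h
          exact ((d.hY _).1 hz).2 i rfl
      · rw [← Finset.sum_image (s := range m) (g := w)
          (f := fun i => ψ i • hd.Γ i) hwinjOn]
        symm
        apply Finset.sum_subset
        · intro i hi
          exact Finset.mem_filter.2 ⟨Finset.mem_univ _, hW₀S i hi⟩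
        · intro i hi hi'
          have h3 := hψ (emb i) (Finset.mem_union_left _ (Finset.mem_sdiff.2
            ⟨(Finset.mem_filter.1 hi).2, ?_⟩))
          · rw [hemb₁, dotProduct_single, mul_one] at h3
            rw [h3, zero_smul]
          · rw [hR₀, Finset.mem_union]
            rintro (h | h)
            · exact ((d.hY _).1 (hY₀Y h)).2 i rfl
            · rw [Finset.mem_image] at h
              obtain ⟨j, hj, hji⟩ := h
              exact hi' (by rw [← hinj hji]; exact hj)
    have e3 := h1 (fun i => ψ ⬝ᵥ D₁ (y i)) (fun k => ψ (w k)) (by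
      intro e he
      have e4 := hψ e (Finset.mem_union_right _ he)
      rw [e1, add_dotProduct, sum_dotProduct, sum_dotProduct] at e4
      rw [← e4]
      congr 1
      · apply Finset.sum_congr rfl
        intro i _
        rw [smul_dotProduct, smul_eq_mul]
      · apply Finset.sum_congr rfl
        intro i _
        rw [smul_dotProduct, smul_eq_mul])
    rw [e1]
    rw [Finset.sum_eq_zero, Finset.sum_eq_zero, add_zero]
    · intro k hk
      rw [e3.2 k (Finset.mem_range.1 hk), zero_smul]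
    · intro i hi
      rw [e3.1 i (Finset.mem_range.1 hi), zero_smul]
  have hnle : n + m ≤ Fintype.card ι := by
    rw [← hS, ← hR₀c]; exact Finset.card_le_card hR₀S
  have hc1 : (S \ R₀).card = Fintype.card ι - (n + m) := by
    rw [Finset.card_sdiff_of_subset hR₀S, hS, hR₀c]
  have hcard : ((S \ R₀) ∪ F₀).card = Fintype.card ι := by
    apply le_antisymm
    · refine (Finset.card_union_le _ _).trans ?_
      omega
    · exact hNS1.card_le
  have hYeq : S \ Finset.univ.image emb = d.Y := by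
    ext e
    rw [Finset.mem_sdiff, d.hY]
    simp
  have hlt : (((S \ R₀) ∪ F₀) \ Finset.univ.image emb).card <
      (S \ Finset.univ.image emb).card := by
    rw [hYeq]
    have s1 : ((S \ R₀) ∪ F₀) \ Finset.univ.image emb ⊆
        (d.Y \ Y₀) ∪ (F₀ \ Finset.univ.image emb) := by
      intro z hz
      rw [Finset.mem_sdiff, Finset.mem_union] at hz
      rcases hz with ⟨hz1 | hz1, hz2⟩
      · rw [Finset.mem_sdiff] at hz1
        refine Finset.mem_union_left _ (Finset.mem_sdiff.2 ⟨?_, fun h => hz1.2 ?_⟩)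
        · rw [← hYeq]
          exact Finset.mem_sdiff.2 ⟨hz1.1, hz2⟩
        · rw [hR₀]
          exact Finset.mem_union_left _ h
      · exact Finset.mem_union_right _ (Finset.mem_sdiff.2 ⟨hz1, hz2⟩)
    have s3 : (d.Y \ Y₀).card = d.Y.card - n := by
      rw [Finset.card_sdiff_of_subset hY₀Y, hY₀c]
    have s4 : n ≤ d.Y.card := by
      rw [← hY₀c]; exact Finset.card_le_card hY₀Y
    have s5 := (Finset.card_le_card s1).trans (Finset.card_union_le _ _)
    omega
  have hNS2 : NS D₂ ((S \ R₀) ∪ F₀) := (hmin _ hcard hlt).1 hNS1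
  have hz : (∑ i ∈ range n, a i • d.σ (y i)) + (∑ k ∈ range m, c k • hd.τ (w k)) +
      a₀ • d.μ = 0 := by
    apply hNS2
    intro e he
    rw [add_dotProduct, add_dotProduct, sum_dotProduct, sum_dotProduct, smul_dotProduct]
    rw [Finset.mem_union, Finset.mem_sdiff] at he
    rcases he with ⟨heS, heR⟩ | heF
    · rw [d.hμ e heS, smul_zero, add_zero]
      have e5 : ∀ i ∈ range n, (a i • d.σ (y i)) ⬝ᵥ D₂ e =
          a i * (if e = d.y₀ then -1 else 0) := by
        intro i hi
        have hi' := hy i (Finset.mem_range.1 hi)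
        rw [smul_dotProduct, smul_eq_mul, d.hσ (y i) hi'.1 hi'.2 e heS, if_neg]
        rintro rfl
        apply heR
        rw [hR₀]
        exact Finset.mem_union_left _ (Finset.mem_image.2 ⟨i, hi, rfl⟩)
      have e6 : ∀ k ∈ range m, (c k • hd.τ (w k)) ⬝ᵥ D₂ e =
          (c k * hd.κ (w k)) * (if e = d.y₀ then 1 else 0) := by
        intro k hk
        rw [smul_dotProduct, smul_eq_mul, hd.hτ (w k) (hw k (Finset.mem_range.1 hk)) e heS,
          if_neg]
        · split_ifs <;> ring
        · rintro rfl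
          apply heR
          rw [hR₀]
          exact Finset.mem_union_right _ (Finset.mem_image.2
            ⟨w k, Finset.mem_image.2 ⟨k, hk, rfl⟩, rfl⟩)
      rw [Finset.sum_congr rfl e5, Finset.sum_congr rfl e6, ← Finset.sum_mul, ← Finset.sum_mul, ha]
      split_ifs <;> ring
    · have e6 := h2 e heF
      rw [← e6]
      congr 2
      · apply Finset.sum_congr rfl
        intro i _
        rw [smul_dotProduct, smul_eq_mul]
      · apply Finset.sum_congr rfl
        intro i _
        rw [smul_dotProduct, smul_eq_mul]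
  have hai : ∀ i < n, a i = 0 := by
    intro i hi
    have hi' := hy i hi
    have e7 : ((∑ i ∈ range n, a i • d.σ (y i)) + (∑ k ∈ range m, c k • hd.τ (w k)) +
        a₀ • d.μ) ⬝ᵥ D₂ (y i) = 0 := by
      rw [hz]; simp
    rw [add_dotProduct, add_dotProduct, sum_dotProduct, sum_dotProduct, smul_dotProduct,
      d.hμ _ (d.hYS hi'.1), smul_zero, add_zero, Finset.sum_eq_single i] at e7
    · have e8 : ∑ k ∈ range m, (c k • hd.τ (w k)) ⬝ᵥ D₂ (y i) = 0 := by
        apply Finset.sum_eq_zero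
        intro k hk
        rw [smul_dotProduct, hd.hτ (w k) (hw k (Finset.mem_range.1 hk)) _ (d.hYS hi'.1),
          if_neg (fun h => ((d.hY _).1 hi'.1).2 (w k) h.symm), if_neg hi'.2, smul_zero]
      rw [e8, add_zero, smul_dotProduct, smul_eq_mul, d.hσ (y i) hi'.1 hi'.2 _ (d.hYS hi'.1),
        if_pos rfl] at e7
      exact (mul_eq_zero.1 e7).resolve_right (d.hc _ hi'.1 hi'.2)
    · intro j hj hji
      have hj' := hy j (Finset.mem_range.1 hj)
      rw [smul_dotProduct, smul_eq_mul, d.hσ (y j) hj'.1 hj'.2 _ (d.hYS hi'.1), if_neg, if_neg,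
        mul_zero]
      · exact hi'.2
      · intro h
        exact hji (hyinj i hi j (Finset.mem_range.1 hj) h).symm
    · intro h; exact absurd (Finset.mem_range.2 hi) h
  have hz' : (∑ k ∈ range m, c k • hd.τ (w k)) + a₀ • d.μ = 0 := by
    have : ∑ i ∈ range n, a i • d.σ (y i) = 0 := by
      apply Finset.sum_eq_zero
      intro i hi
      rw [hai i (Finset.mem_range.1 hi), zero_smul]
    rw [this, zero_add] at hz
    exact hz
  have hci : ∀ k < m, c k = 0 := by
    intro k hk
    have hk' := hw k hk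
    have e7 : ((∑ k ∈ range m, c k • hd.τ (w k)) + a₀ • d.μ) ⬝ᵥ D₂ (emb (w k)) = 0 := by
      rw [hz']; simp
    rw [add_dotProduct, sum_dotProduct, smul_dotProduct, d.hμ _ hk', smul_zero, add_zero,
      Finset.sum_eq_single k] at e7
    · rw [smul_dotProduct, smul_eq_mul, hd.hτ (w k) hk' _ hk', if_pos rfl, mul_one] at e7
      exact e7
    · intro j hj hjk
      rw [smul_dotProduct, smul_eq_mul, hd.hτ (w j) (hw j (Finset.mem_range.1 hj)) _ hk', if_neg,
        if_neg, mul_zero]
      · exact ((d.hY _).1 d.hy₀).2 _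
      · intro h
        exact hjk (hwinj k hk j (Finset.mem_range.1 hj) (hinj h)).symm
    · intro h; exact absurd (Finset.mem_range.2 hk) h
  have e8 : a₀ • d.μ = 0 := by
    have : ∑ k ∈ range m, c k • hd.τ (w k) = 0 := by
      apply Finset.sum_eq_zero
      intro k hk
      rw [hci k (Finset.mem_range.1 hk), zero_smul]
    rw [this, zero_add] at hz'
    exact hz'
  rcases smul_eq_zero.1 e8 with h3 | h3
  · exact hne h3
  · exact d.hμ0 h3

end Pool.Agent.H.MP_9123af_lc
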