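import Pool.Agent.H.MP_9123af_lc.HubMain

/-!
# Smallest violations have bounded size when large sets have many common partners, continued
-/

namespace Pool.Agent.H.MP_9123af_lc

open Finset

variable {F : Type} [Field F] [Fintype F] {ι E : Type} [Fintype ι] [DecidableEq ι]
  [DecidableEq E]

theorem hub_absurd (q k t n s L₂ M₅ M₂ : ℕ) (hq : Fintype.card F = q)
    (hM₅ : RamseyAt (K2 F) 2 L₂ M₅) (hL₂ : q + 3 + (q * q) ^ (q * q * 8) * 8 ≤ L₂)
    (hs₁ : q ^ ((q * q) ^ k * M₅ + 1) ≤ s) (hs₂ : q * q * 8 ≤ s) (hs₃ : 6 * q + 2 ≤ s)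
    (hn₁ : nH q k * s ≤ n) (hn₂ : nH q k ^ (nH q k * s) * s ≤ n)
    (hM₂ : RamseyAt (K2 F) 2 (q + 3 + t) M₂)
    {D₁ D₂ : E → ι → F} {emb : ι → E} (hinj : Function.Injective emb)
    (hemb₁ : ∀ i, D₁ (emb i) = Pi.single i 1) (hemb₂ : ∀ i, D₂ (emb i) = Pi.single i 1)
    (B₀ : Finset ι) (hB₀ : B₀.card ≤ k)
    (hsupp : ∀ e z, D₁ e z = 0 ↔ D₂ e z = 0)
    (hjoin : ∀ X : Finset ι, X.card = t → Disjoint X B₀ → ∃ P W : Finset ι, P ⊆ X ∧
      n ≤ P.card ∧ n ≤ W.card ∧ Disjoint W B₀ ∧ ∀ x ∈ P, ∀ w ∈ W, x ≠ w ∧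
        ∃ e, D₁ e x ≠ 0 ∧ D₁ e w ≠ 0 ∧ ∀ z, z ∉ B₀ → z ≠ x → z ≠ w → D₁ e z = 0)
    {S : Finset E} (hS : S.card = Fintype.card ι) (hN₁ : NS D₁ S) (hN₂ : ¬ NS D₂ S)
    (hmin : Agree D₁ D₂ emb S)
    (hbig : q ^ (M₂ + 1) * (q * q) ^ k < (S \ Finset.univ.image emb).card) : False := by
  classical
  obtain ⟨d⟩ := exists_data hinj hemb₁ hemb₂ hS hN₁ hN₂ hmin
  obtain ⟨hd⟩ := exists_hubData hinj hemb₁ hS hN₁ hmin d
  have hq2 : 2 ≤ q := by rw [← hq]; exact Fintype.one_lt_card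
  have hYeq : S \ Finset.univ.image emb = d.Y := by
    ext e
    rw [Finset.mem_sdiff, d.hY]
    simp
  rw [hYeq] at hbig
  haveI : Nonempty E := ⟨d.y₀⟩
  haveI : Nonempty ι := by
    rw [← Fintype.card_pos_iff, ← hS, Finset.card_pos]
    exact ⟨d.y₀, d.hYS d.hy₀⟩
  obtain ⟨β, hβ⟩ := exists_cover B₀ k hB₀
  -- rows that agree on `B₀`
  obtain ⟨φ₀, _, hφ₀⟩ := Finset.exists_le_card_fiber_of_mul_le_card_of_maps_to
    (s := d.Y.erase d.y₀) (t := (Finset.univ : Finset (Fin k → F × F)))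
    (f := fun y => fun r => (d.G y (β r), d.σ y (β r))) (n := q ^ (M₂ + 1))
    (fun _ _ => Finset.mem_univ _) Finset.univ_nonempty (by
      rw [Finset.card_univ, Fintype.card_fun, Fintype.card_prod, hq, Fintype.card_fin,
        Finset.card_erase_of_mem d.hy₀, Nat.mul_comm]
      omega)
  set Y' := (d.Y.erase d.y₀).filter
    (fun y => (fun r => (d.G y (β r), d.σ y (β r))) = φ₀) with hY'
  have hY'mem : ∀ y ∈ Y', y ∈ d.Y ∧ y ≠ d.y₀ := by
    intro y hy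
    rw [hY', Finset.mem_filter, Finset.mem_erase] at hy
    exact ⟨hy.1.2, hy.1.1⟩
  have hY'eq : ∀ y ∈ Y', ∀ y' ∈ Y', ∀ x ∈ B₀, d.G y x = d.G y' x ∧ d.σ y x = d.σ y' x := by
    intro y hy y' hy' x hx
    obtain ⟨r, hr⟩ := hβ x hx
    have e1 := congrFun ((Finset.mem_filter.1 hy).2.trans (Finset.mem_filter.1 hy').2.symm) r
    simp only [Prod.mk.injEq, hr] at e1
    exact e1
  obtain ⟨y, b, hyb, hprop⟩ := distinguish q hq hq2
    (fun (y : E) (b : ι) => d.G y b / d.G d.y₀ b) (d.J \ B₀) (M₂ + 1) Y' hφ₀ (by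
      intro y hy y' hy' hne
      by_contra hcon
      push Not at hcon
      have h1 : d.G y = d.G y' := by
        funext z
        by_cases hzJ : z ∈ d.J
        · by_cases hzB : z ∈ B₀
          · exact (hY'eq y hy y' hy' z hzB).1
          · have e1 := hcon z (Finset.mem_sdiff.2 ⟨hzJ, hzB⟩)
            have e2 := d.hG0 z hzJ
            field_simp at e1
            exact e1
        · rw [d.hGJ y (hY'mem y hy).1 z hzJ, d.hGJ y' (hY'mem y' hy').1 z hzJ]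
      have h2 := d.hG y (hY'mem y hy).1 y (d.hYS (hY'mem y hy).1)
      have h3 := d.hG y' (hY'mem y' hy').1 y (d.hYS (hY'mem y hy).1)
      rw [← h1, h2, if_pos rfl, if_neg (Ne.symm hne)] at h3
      exact one_ne_zero h3)
  have hbJ : ∀ i < M₂ + 1, b i ∈ d.J ∧ b i ∉ B₀ := by
    intro i hi
    exact Finset.mem_sdiff.1 (hyb i hi).2
  have hbinj : ∀ i < M₂, ∀ j < M₂, b i = b j → i = j := by
    have key : ∀ i j, i < j → j < M₂ → b i ≠ b j := by
      intro i j hij hj h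
      have e1 := (hprop i j (j + 1) hij (by omega) (by omega) (by omega)).1
      have e2 := (hprop j (j + 1) (j + 1) (by omega) (by omega) (by omega) (by omega)).2
      simp only [h] at e1
      exact e2 e1
    intro i hi j hj h
    rcases lt_trichotomy i j with h1 | h1 | h1
    · exact absurd h (key i j h1 hj)
    · exact h1
    · exact absurd h.symm (key j i h1 hi)
  have hyinj : ∀ i < M₂ + 1, ∀ j < M₂ + 1, y i = y j → i = j := by
    have key : ∀ i j, i < j → j < M₂ + 1 → y i ≠ y j := by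
      intro i j hij hj h
      have e1 := (hprop i j j hij hj hij hj).2
      simp only [h] at e1
      exact e1 rfl
    intro i hi j hj h
    rcases lt_trichotomy i j with h1 | h1 | h1
    · exact absurd h (key i j h1 hj)
    · exact h1
    · exact absurd h.symm (key j i h1 hi)
  obtain ⟨H, hHX, hHc, u, v, u', v', huv, huv', hpair⟩ := homogeneous_pairs q (q + 3 + t) M₂ hq hM₂
    (by omega) hemb₁ hemb₂ hS hmin d y b (range M₂) (by rw [Finset.card_range])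
    (fun i hi => hY'mem _ (hyb i (by have := Finset.mem_range.1 hi; omega)).1)
    (fun i hi => (hbJ i (by have := Finset.mem_range.1 hi; omega)).1)
    (fun i hi j hj => hyinj i (by have := Finset.mem_range.1 hi; omega) j
      (by have := Finset.mem_range.1 hj; omega))
    (fun i hi j hj hij => Or.inl (hprop i j j hij (by have := Finset.mem_range.1 hj; omega) hij
      (by have := Finset.mem_range.1 hj; omega)).2)
  have hHlt : ∀ i ∈ H, i < M₂ := fun i hi => Finset.mem_range.1 (hHX hi)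
  -- common partners
  obtain ⟨T, hTH, hTc⟩ := Finset.exists_subset_card_eq (show t ≤ H.card by omega)
  have hbinjT : Set.InjOn b (T : Set ℕ) := fun i hi j hj hij =>
    hbinj i (hHlt i (hTH hi)) j (hHlt j (hTH hj)) hij
  obtain ⟨P, W, hPX, hPc, hWc, hWB, hPW⟩ := hjoin (T.image b)
    (by rw [Finset.card_image_of_injOn hbinjT, hTc]) (by
      rw [Finset.disjoint_left]
      intro z hz
      rw [Finset.mem_image] at hz
      obtain ⟨i, hi, rfl⟩ := hz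
      exact (hbJ i (by have := hHlt i (hTH hi); omega)).2)
  set I := T.filter (fun i => b i ∈ P) with hI
  have hIc : n ≤ I.card := by
    refine hPc.trans ?_
    have : P ⊆ I.image b := by
      intro x hx
      have h1 := hPX hx
      rw [Finset.mem_image] at h1
      obtain ⟨i, hi, rfl⟩ := h1
      exact Finset.mem_image.2 ⟨i, Finset.mem_filter.2 ⟨hi, hx⟩, rfl⟩
    exact (Finset.card_le_card this).trans Finset.card_image_le
  have hIH : ∀ i ∈ I, i ∈ H := fun i hi => hTH (Finset.mem_filter.1 hi).1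
  have hIlt : ∀ i ∈ I, i < M₂ := fun i hi => hHlt i (hIH i hi)
  have hIP : ∀ i ∈ I, b i ∈ P := fun i hi => (Finset.mem_filter.1 hi).2
  have hex : ∀ i w, ∃ e, i ∈ I → w ∈ W → D₁ e (b i) ≠ 0 ∧ D₁ e w ≠ 0 ∧
      ∀ z, z ∉ B₀ → z ≠ b i → z ≠ w → D₁ e z = 0 := by
    intro i w
    by_cases hi : i ∈ I
    · by_cases hw : w ∈ W
      · obtain ⟨e, he⟩ := (hPW _ (hIP i hi) w hw).2
        exact ⟨e, fun _ _ => he⟩
      · exact ⟨d.y₀, fun _ h => absurd h hw⟩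
    · exact ⟨d.y₀, fun h => absurd h hi⟩
  choose e he using hex
  obtain ⟨I', hI'I, W', hW'W, hI'c, hW'c, ⟨ty, A₁, A₂, dv, A₁', A₂', dv', h, h', g, g', κ₀, γv, τv⟩,
      hcol⟩ := grid (κ := KH F k) (nH q k) s
    (by simp [nH, Fintype.card_prod, hq]) I W (hn₁.trans hIc) (hn₂.trans hWc)
    (fun i w => (decide (w ∈ d.J), D₁ (e i w) (b i) * d.G d.y₀ (b i),
      D₁ (e i w) w * (if w ∈ d.J then d.G d.y₀ w else 1), fun r => D₁ (e i w) (β r),
      D₂ (e i w) (b i) * d.μ (b i), D₂ (e i w) w * (if w ∈ d.J then d.μ w else 1),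
      fun r => D₂ (e i w) (β r), d.G (y i) w / d.G d.y₀ w, d.σ (y i) w / d.μ w,
      hd.Γ w (b i) / d.G d.y₀ (b i), hd.τ w (b i) / d.μ (b i), hd.κ w, fun r => hd.Γ w (β r),
      fun r => hd.τ w (β r)))
  have hIs : ∀ i ∈ I', i ∈ I := fun i hi => hI'I hi
  have hWs : ∀ w ∈ W', w ∈ W := fun w hw => hW'W hw
  have hWB' : ∀ w ∈ W', w ∉ B₀ := fun w hw => Finset.disjoint_left.1 hWB (hWs w hw)
  have hbW : ∀ i ∈ I', ∀ w ∈ W', b i ≠ w := fun i hi w hw =>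
    (hPW _ (hIP i (hIs i hi)) w (hWs w hw)).1
  have hbJ' : ∀ i ∈ I', b i ∈ d.J ∧ b i ∉ B₀ := fun i hi =>
    hbJ i (by have := hIlt i (hIs i hi); omega)
  have hyY' : ∀ i ∈ I', y i ∈ d.Y ∧ y i ≠ d.y₀ := fun i hi =>
    hY'mem _ (hyb i (by have := hIlt i (hIs i hi); omega)).1
  obtain ⟨i₀, hi₀⟩ : ∃ i, i ∈ I' := by
    have : 0 < I'.card := by omega
    exact Finset.card_pos.1 this
  obtain ⟨w₀, hw₀⟩ : ∃ w, w ∈ W' := by
    have : 0 < W'.card := by omega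
    exact Finset.card_pos.1 this
  have hcol' : ∀ i ∈ I', ∀ w ∈ W', decide (w ∈ d.J) = ty ∧
      D₁ (e i w) (b i) * d.G d.y₀ (b i) = A₁ ∧
      D₁ (e i w) w * (if w ∈ d.J then d.G d.y₀ w else 1) = A₂ ∧
      (fun r => D₁ (e i w) (β r)) = dv ∧
      D₂ (e i w) (b i) * d.μ (b i) = A₁' ∧
      D₂ (e i w) w * (if w ∈ d.J then d.μ w else 1) = A₂' ∧
      (fun r => D₂ (e i w) (β r)) = dv' ∧ d.G (y i) w / d.G d.y₀ w = h ∧
      d.σ (y i) w / d.μ w = h' ∧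
      hd.Γ w (b i) / d.G d.y₀ (b i) = g ∧ hd.τ w (b i) / d.μ (b i) = g' ∧ hd.κ w = κ₀ ∧
      (fun r => hd.Γ w (β r)) = γv ∧ (fun r => hd.τ w (β r)) = τv := by
    intro i hi w hw
    have := hcol i hi w hw
    simp only [Prod.mk.injEq] at this
    exact this
  have hδ : ∀ i ∈ I', ∀ w ∈ W', ∀ t ∈ B₀, D₁ (e i w) t = D₁ (e i₀ w₀) t := by
    intro i hi w hw t ht
    obtain ⟨r, hr⟩ := hβ t ht
    have e1 := congrFun ((hcol' i hi w hw).2.2.2.1.trans (hcol' i₀ hi₀ w₀ hw₀).2.2.2.1.symm) r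
    simpa only [hr] using e1
  have hδ' : ∀ i ∈ I', ∀ w ∈ W', ∀ t ∈ B₀, D₂ (e i w) t = D₂ (e i₀ w₀) t := by
    intro i hi w hw t ht
    obtain ⟨r, hr⟩ := hβ t ht
    have e1 := congrFun ((hcol' i hi w hw).2.2.2.2.2.2.1.trans
      (hcol' i₀ hi₀ w₀ hw₀).2.2.2.2.2.2.1.symm) r
    simpa only [hr] using e1
  have hγ : ∀ w ∈ W', ∀ t ∈ B₀, hd.Γ w t = hd.Γ w₀ t := by
    intro w hw t ht
    obtain ⟨r, hr⟩ := hβ t ht
    have e1 := congrFun ((hcol' i₀ hi₀ w hw).2.2.2.2.2.2.2.2.2.2.2.2.1.trans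
      (hcol' i₀ hi₀ w₀ hw₀).2.2.2.2.2.2.2.2.2.2.2.2.1.symm) r
    simpa only [hr] using e1
  have hτ : ∀ w ∈ W', ∀ t ∈ B₀, hd.τ w t = hd.τ w₀ t := by
    intro w hw t ht
    obtain ⟨r, hr⟩ := hβ t ht
    have e1 := congrFun ((hcol' i₀ hi₀ w hw).2.2.2.2.2.2.2.2.2.2.2.2.2.trans
      (hcol' i₀ hi₀ w₀ hw₀).2.2.2.2.2.2.2.2.2.2.2.2.2.symm) r
    simpa only [hr] using e1
  have hneA : ∀ i ∈ I', ∀ w ∈ W', D₁ (e i w) (b i) ≠ 0 ∧ D₁ (e i w) w ≠ 0 ∧
      D₂ (e i w) (b i) ≠ 0 ∧ D₂ (e i w) w ≠ 0 := by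
    intro i hi w hw
    have h1 := he i w (hIs i hi) (hWs w hw)
    exact ⟨h1.1, h1.2.1, fun h2 => h1.1 ((hsupp _ _).2 h2), fun h2 => h1.2.1 ((hsupp _ _).2 h2)⟩
  have hsup : ∀ i ∈ I', ∀ w ∈ W', ∀ t, t ∉ B₀ → t ≠ b i → t ≠ w →
      D₁ (e i w) t = 0 ∧ D₂ (e i w) t = 0 := by
    intro i hi w hw t h1 h2 h3
    have h4 := (he i w (hIs i hi) (hWs w hw)).2.2 t h1 h2 h3
    exact ⟨h4, (hsupp _ _).1 h4⟩
  have hA₁ : A₁ ≠ 0 := by
    rw [← (hcol' i₀ hi₀ w₀ hw₀).2.1]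
    exact mul_ne_zero (hneA i₀ hi₀ w₀ hw₀).1 (d.hG0 _ (hbJ' i₀ hi₀).1)
  have hA₁' : A₁' ≠ 0 := by
    rw [← (hcol' i₀ hi₀ w₀ hw₀).2.2.2.2.1]
    exact mul_ne_zero (hneA i₀ hi₀ w₀ hw₀).2.2.1 (d.hμJ _ (hbJ' i₀ hi₀).1)
  cases ty with
  | true =>
    have hWJ : ∀ w ∈ W', w ∈ d.J := fun w hw => of_decide_eq_true (hcol' i₀ hi₀ w hw).1
    have hA₂ : A₂ ≠ 0 := by
      have e1 := (hcol' i₀ hi₀ w₀ hw₀).2.2.1
      rw [if_pos (hWJ w₀ hw₀)] at e1
      rw [← e1]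
      exact mul_ne_zero (hneA i₀ hi₀ w₀ hw₀).2.1 (d.hG0 _ (hWJ w₀ hw₀))
    have hA₂' : A₂' ≠ 0 := by
      have e1 := (hcol' i₀ hi₀ w₀ hw₀).2.2.2.2.2.1
      rw [if_pos (hWJ w₀ hw₀)] at e1
      rw [← e1]
      exact mul_ne_zero (hneA i₀ hi₀ w₀ hw₀).2.2.2 (d.hμJ _ (hWJ w₀ hw₀))
    refine hubJ_absurd q k L₂ M₅ s hq hM₅ hL₂ hs₁ hs₂ hemb₁ hemb₂ B₀ hB₀ d hS hmin y b I' W' hI'c
      hW'c hyY' ?_ hbJ' (fun w hw => ⟨hWJ w hw, hWB' w hw⟩) hbW u v u' v' huv huv' ?_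
      (d.G (y i₀)) (d.σ (y i₀)) ?_ ?_ h h' ?_ A₁ A₂ A₁' A₂' hA₁ hA₂ hA₁' hA₂'
      (D₁ (e i₀ w₀)) (D₂ (e i₀ w₀)) ?_
    · intro i hi j hj
      exact hyinj i (by have := hIlt i (hIs i hi); omega) j
        (by have := hIlt j (hIs j hj); omega)
    · intro i hi j hj hij
      exact hpair i (hIH i (hIs i hi)) j (hIH j (hIs j hj)) hij
    · intro i hi x hx
      exact (hY'eq _ (hyb i (by have := hIlt i (hIs i hi); omega)).1 _
        (hyb i₀ (by have := hIlt i₀ (hIs i₀ hi₀); omega)).1 x hx).1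
    · intro i hi x hx
      exact (hY'eq _ (hyb i (by have := hIlt i (hIs i hi); omega)).1 _
        (hyb i₀ (by have := hIlt i₀ (hIs i₀ hi₀); omega)).1 x hx).2
    · intro i hi w hw
      exact ⟨(hcol' i hi w hw).2.2.2.2.2.2.2.1, (hcol' i hi w hw).2.2.2.2.2.2.2.2.1⟩
    · intro i hi w hw
      have e1 := hcol' i hi w hw
      rw [if_pos (hWJ w hw), if_pos (hWJ w hw)] at e1
      exact ⟨e i w, hsup i hi w hw, e1.2.1, e1.2.2.1, hδ i hi w hw, e1.2.2.2.2.1,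
        e1.2.2.2.2.2.1, hδ' i hi w hw⟩
  | false =>
    have hWJ : ∀ w ∈ W', w ∉ d.J := fun w hw => of_decide_eq_false (hcol' i₀ hi₀ w hw).1
    have hWS : ∀ w ∈ W', emb w ∈ S := by
      intro w hw
      by_contra h1
      exact hWJ w hw ((d.hJ w).2 h1)
    have hA₂ : A₂ ≠ 0 := by
      have e1 := (hcol' i₀ hi₀ w₀ hw₀).2.2.1
      rw [if_neg (hWJ w₀ hw₀), mul_one] at e1
      rw [← e1]
      exact (hneA i₀ hi₀ w₀ hw₀).2.1
    have hA₂' : A₂' ≠ 0 := by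
      have e1 := (hcol' i₀ hi₀ w₀ hw₀).2.2.2.2.2.1
      rw [if_neg (hWJ w₀ hw₀), mul_one] at e1
      rw [← e1]
      exact (hneA i₀ hi₀ w₀ hw₀).2.2.2
    obtain ⟨p, hpchar⟩ := CharP.exists F
    haveI := hpchar
    have hpp : p.Prime := (CharP.char_is_prime_or_zero F p).resolve_right (by
      intro h0
      subst h0
      haveI : CharZero F := CharP.charP_to_charZero F
      haveI : Infinite F := CharZero.infinite F
      exact not_finite F)
    have hpq : p ≤ q := by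
      rw [← hq]
      have h1 : p ∣ Fintype.card F := by
        rw [← CharP.cast_eq_zero_iff F p, Nat.cast_card_eq_zero]
      exact Nat.le_of_dvd Fintype.card_pos h1
    obtain ⟨f, hfI, hfm⟩ := enum_finset I' s hI'c
    have hfinj : ∀ i < s, ∀ j < s, f i = f j → i = j := by
      intro i hi j hj hij
      rcases lt_trichotomy i j with h1 | h1 | h1
      · exact absurd hij (ne_of_lt (hfm i j h1 hj))
      · exact h1
      · exact absurd hij.symm (ne_of_lt (hfm j i h1 hi))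
    have hWenum : ∃ w : ℕ → ι, (∀ i < p, w i ∈ W') ∧ ∀ i < p, ∀ j < p, w i = w j → i = j := by
      have hle : p ≤ W'.card := by omega
      refine ⟨fun i => if hi : i < W'.card then (W'.equivFin.symm ⟨i, hi⟩ : ι) else w₀, ?_, ?_⟩
      · intro i hi
        beta_reduce
        rw [dif_pos (lt_of_lt_of_le hi hle)]
        exact (W'.equivFin.symm ⟨i, lt_of_lt_of_le hi hle⟩).2
      · intro i hi j hj hij
        simp only [dif_pos (lt_of_lt_of_le hi hle), dif_pos (lt_of_lt_of_le hj hle)] at hij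
        have e1 := W'.equivFin.symm.injective (Subtype.ext hij)
        simpa using e1
    obtain ⟨w, hwW, hwinj⟩ := hWenum
    have hfI' : ∀ i < s, f i ∈ I' := hfI
    have hdG : ∀ i < s, ∀ c : F, ∀ e : ι → F, e (b (f i)) / d.G d.y₀ (b (f i)) = c →
        e (b (f i)) = d.G d.y₀ (b (f i)) * c := by
      intro i hi c e he
      rw [← he, mul_div_cancel₀ _ (d.hG0 _ (hbJ' _ (hfI' i hi)).1)]
    have hdμ : ∀ i < s, ∀ c : F, ∀ e : ι → F, e (b (f i)) / d.μ (b (f i)) = c →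
        e (b (f i)) = d.μ (b (f i)) * c := by
      intro i hi c e he
      rw [← he, mul_div_cancel₀ _ (d.hμJ _ (hbJ' _ (hfI' i hi)).1)]
    refine hubS_case hinj hemb₁ hemb₂ hd hS hmin B₀ p (CharP.cast_eq_zero F p) hpp.pos
      (fun i => y (f (2 * i + 1))) (fun j => b (f (2 * j))) w
      (fun i hi => hyY' _ (hfI' _ (by omega))) ?_ (fun j hj => hbJ' _ (hfI' _ (by omega)))
      (fun k hk => ⟨hWS _ (hwW k hk), hWB' _ (hwW k hk)⟩) hwinj u v u' v' huv huv' ?_ ?_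
      (d.G (y i₀)) (d.σ (y i₀)) (hd.Γ w₀) (hd.τ w₀) ?_ ?_
      (fun k hk x hx => hγ _ (hwW k hk) x hx) (fun k hk x hx => hτ _ (hwW k hk) x hx) g g' κ₀ ?_ ?_
      (fun k hk => (hcol' i₀ hi₀ _ (hwW k hk)).2.2.2.2.2.2.2.2.2.2.2.1)
      A₁ A₂ (∑ z ∈ B₀, D₁ (e i₀ w₀) z * d.G (y i₀) z) (∑ z ∈ B₀, D₁ (e i₀ w₀) z * hd.Γ w₀ z)
      A₁' A₂' (∑ z ∈ B₀, D₂ (e i₀ w₀) z * d.μ z) hA₁ hA₂ hA₂' ?_
    · intro i hi j hj hij
      have h1 := hyinj _ (by have := hIlt _ (hIs _ (hfI' (2 * i + 1) (by omega))); omega) _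
        (by have := hIlt _ (hIs _ (hfI' (2 * j + 1) (by omega))); omega) hij
      have h2 := hfinj _ (by omega) _ (by omega) h1
      omega
    · intro i hi j hj
      apply hdG _ (by omega)
      by_cases h1 : i < j
      · rw [if_pos h1]
        exact (hpair _ (hIH _ (hIs _ (hfI' _ (by omega)))) _ (hIH _ (hIs _ (hfI' _ (by omega))))
          (hfm (2 * i + 1) (2 * j) (by omega) (by omega))).1
      · rw [if_neg h1]
        exact (hpair _ (hIH _ (hIs _ (hfI' _ (by omega)))) _ (hIH _ (hIs _ (hfI' _ (by omega))))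
          (hfm (2 * j) (2 * i + 1) (by omega) (by omega))).2.2.1
    · intro i hi j hj
      apply hdμ _ (by omega)
      by_cases h1 : i < j
      · rw [if_pos h1]
        exact (hpair _ (hIH _ (hIs _ (hfI' _ (by omega)))) _ (hIH _ (hIs _ (hfI' _ (by omega))))
          (hfm (2 * i + 1) (2 * j) (by omega) (by omega))).2.1
      · rw [if_neg h1]
        exact (hpair _ (hIH _ (hIs _ (hfI' _ (by omega)))) _ (hIH _ (hIs _ (hfI' _ (by omega))))
          (hfm (2 * j) (2 * i + 1) (by omega) (by omega))).2.2.2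
    · intro i hi x hx
      exact (hY'eq _ (hyb _ (by
        have := hIlt _ (hIs _ (hfI' (2 * i + 1) (by omega))); omega)).1 _
        (hyb i₀ (by have := hIlt i₀ (hIs i₀ hi₀); omega)).1 x hx).1
    · intro i hi x hx
      exact (hY'eq _ (hyb _ (by
        have := hIlt _ (hIs _ (hfI' (2 * i + 1) (by omega))); omega)).1 _
        (hyb i₀ (by have := hIlt i₀ (hIs i₀ hi₀); omega)).1 x hx).2
    · intro k hk j hj
      exact hdG _ (by omega) _ _ (hcol' _ (hfI' _ (by omega)) _ (hwW k hk)).2.2.2.2.2.2.2.2.2.1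
    · intro k hk j hj
      exact hdμ _ (by omega) _ _ (hcol' _ (hfI' _ (by omega)) _ (hwW k hk)).2.2.2.2.2.2.2.2.2.2.1
    · intro k hk j hjk
      have hj : f (2 * j) ∈ I' := hfI' _ (by omega)
      have e1 := hcol' _ hj _ (hwW k hk)
      rw [if_neg (hWJ _ (hwW k hk)), if_neg (hWJ _ (hwW k hk)), mul_one, mul_one] at e1
      refine ⟨e (f (2 * j)) (w k), hsup _ hj _ (hwW k hk), e1.2.1, e1.2.2.1, ?_, ?_,
        e1.2.2.2.2.1, e1.2.2.2.2.2.1, ?_⟩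
      · apply Finset.sum_congr rfl
        intro x hx
        rw [hδ _ hj _ (hwW k hk) x hx]
      · apply Finset.sum_congr rfl
        intro x hx
        rw [hδ _ hj _ (hwW k hk) x hx]
      · apply Finset.sum_congr rfl
        intro x hx
        rw [hδ' _ hj _ (hwW k hk) x hx]

/-- Smallest violations have bounded size. -/
theorem bounded_violation_hubs (q k : ℕ) : ∃ n : ℕ, ∀ t : ℕ, ∃ c : ℕ,
    ∀ (F : Type) (_ : Field F) (_ : Fintype F),
    Fintype.card F = q → ∀ (ι E : Type) (_ : Fintype ι) (_ : DecidableEq ι) (_ : DecidableEq E)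
    (D₁ D₂ : E → ι → F) (emb : ι → E) (B₀ : Finset ι), Function.Injective emb →
    (∀ i, D₁ (emb i) = Pi.single i 1) → (∀ i, D₂ (emb i) = Pi.single i 1) →
    B₀.card ≤ k → (∀ e z, D₁ e z = 0 ↔ D₂ e z = 0) →
    (∀ X : Finset ι, X.card = t → Disjoint X B₀ → ∃ P W : Finset ι, P ⊆ X ∧
      n ≤ P.card ∧ n ≤ W.card ∧ Disjoint W B₀ ∧ ∀ x ∈ P, ∀ w ∈ W, x ≠ w ∧
        ∃ e, D₁ e x ≠ 0 ∧ D₁ e w ≠ 0 ∧ ∀ z, z ∉ B₀ → z ≠ x → z ≠ w → D₁ e z = 0) →
    ∀ S : Finset E, S.card = Fintype.card ι → NS D₁ S → ¬ NS D₂ S → Agree D₁ D₂ emb S →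
      (S \ Finset.univ.image emb).card ≤ c := by
  obtain ⟨M₅, hM₅⟩ := ramsey (q * (q * (q * (q * (q * q))))) 2
    (q + 3 + (q * q) ^ (q * q * 8) * 8)
  set s := q ^ ((q * q) ^ k * M₅ + 1) + q * q * 8 + (6 * q + 2) with hs
  refine ⟨nH q k * s + nH q k ^ (nH q k * s) * s, ?_⟩
  intro t
  obtain ⟨M₂, hM₂⟩ := ramsey (q * (q * (q * (q * (q * q))))) 2 (q + 3 + t)
  refine ⟨q ^ (M₂ + 1) * (q * q) ^ k, ?_⟩
  intro F _ _ hq ι E _ _ _ D₁ D₂ emb B₀ hinj hemb₁ hemb₂ hB₀ hsupp hjoin S hS hN₁ hN₂ hmin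
  by_contra hcon
  push Not at hcon
  refine hub_absurd q k t _ s _ M₅ M₂ hq (hM₅ (K2 F) inferInstance ?_) le_rfl (by omega) (by omega)
    (by omega) (Nat.le_add_right _ _) (Nat.le_add_left _ _) (hM₂ (K2 F) inferInstance ?_) hinj
    hemb₁ hemb₂ B₀ hB₀ hsupp hjoin hS hN₁ hN₂ hmin hcon
  · simp [K2, Fintype.card_prod, hq]
  · simp [K2, Fintype.card_prod, hq]

end Pool.Agent.H.MP_9123af_lc
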