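import Pool.Agent.H.MP_9123af_lc.Defs
import Pool.Agent.H.MP_9123af_lc.HubMain2

/-!
# From coordinates to matroids, and the counting lemma for linear degrees
-/

namespace Pool.Agent.H.MP_9123af_lc

open Finset

/-- Two labels are joined over `B₀` if some label lies in the closure of `B₀`, `x` and `w` but
neither in the closure of `B₀` and `x` nor in the closure of `B₀` and `w`. -/
def Joined {R E F : Type} [Field F] [DecidableEq E] (A : Matrix R E F) (B₀ : Finset E) (x w : E) :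
    Prop :=
  ∃ e, InClosure A (insert x (insert w B₀)) e ∧ ¬ InClosure A (insert x B₀) e ∧
    ¬ InClosure A (insert w B₀) e

/-- From bounded smallest violations to equality. -/
theorem all_tests_hubs (q k n t c : ℕ)
    (hc : ∀ (F : Type) (_ : Field F) (_ : Fintype F),
    Fintype.card F = q → ∀ (ι E : Type) (_ : Fintype ι) (_ : DecidableEq ι) (_ : DecidableEq E)
    (D₁ D₂ : E → ι → F) (emb : ι → E) (B₀ : Finset ι), Function.Injective emb →
    (∀ i, D₁ (emb i) = Pi.single i 1) → (∀ i, D₂ (emb i) = Pi.single i 1) →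
    B₀.card ≤ k → (∀ e z, D₁ e z = 0 ↔ D₂ e z = 0) →
    (∀ X : Finset ι, X.card = t → Disjoint X B₀ → ∃ P W : Finset ι, P ⊆ X ∧
      n ≤ P.card ∧ n ≤ W.card ∧ Disjoint W B₀ ∧ ∀ x ∈ P, ∀ w ∈ W, x ≠ w ∧
        ∃ e, D₁ e x ≠ 0 ∧ D₁ e w ≠ 0 ∧ ∀ z, z ∉ B₀ → z ≠ x → z ≠ w → D₁ e z = 0) →
    ∀ S : Finset E, S.card = Fintype.card ι → NS D₁ S → ¬ NS D₂ S → Agree D₁ D₂ emb S →
      (S \ Finset.univ.image emb).card ≤ c)
    {F : Type} [Field F] [Fintype F] (hq : Fintype.card F = q)
    {ι E : Type} [Fintype ι] [DecidableEq ι] [DecidableEq E]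
    (D₁ D₂ : E → ι → F) (emb : ι → E) (B₀ : Finset ι) (hinj : Function.Injective emb)
    (hemb₁ : ∀ i, D₁ (emb i) = Pi.single i 1) (hemb₂ : ∀ i, D₂ (emb i) = Pi.single i 1)
    (hB₀ : B₀.card ≤ k) (hsupp : ∀ e z, D₁ e z = 0 ↔ D₂ e z = 0)
    (hjoin : ∀ X : Finset ι, X.card = t → Disjoint X B₀ → ∃ P W : Finset ι, P ⊆ X ∧
      n ≤ P.card ∧ n ≤ W.card ∧ Disjoint W B₀ ∧ ∀ x ∈ P, ∀ w ∈ W, x ≠ w ∧
        ∃ e, D₁ e x ≠ 0 ∧ D₁ e w ≠ 0 ∧ ∀ z, z ∉ B₀ → z ≠ x → z ≠ w → D₁ e z = 0)
    (hloc : ∀ T : Finset E, T.card = Fintype.card ι →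
      (T \ Finset.univ.image emb).card ≤ c → (NS D₁ T ↔ NS D₂ T)) :
    ∀ T : Finset E, T.card = Fintype.card ι → (NS D₁ T ↔ NS D₂ T) := by
  have hjoin₂ : ∀ X : Finset ι, X.card = t → Disjoint X B₀ → ∃ P W : Finset ι, P ⊆ X ∧
      n ≤ P.card ∧ n ≤ W.card ∧ Disjoint W B₀ ∧ ∀ x ∈ P, ∀ w ∈ W, x ≠ w ∧
        ∃ e, D₂ e x ≠ 0 ∧ D₂ e w ≠ 0 ∧ ∀ z, z ∉ B₀ → z ≠ x → z ≠ w → D₂ e z = 0 := by
    intro X hX hXB
    obtain ⟨P, W, h1, h2, h3, h4, h5⟩ := hjoin X hX hXB
    refine ⟨P, W, h1, h2, h3, h4, fun x hx w hw => ⟨(h5 x hx w hw).1, ?_⟩⟩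
    obtain ⟨e, e1, e2, e3⟩ := (h5 x hx w hw).2
    exact ⟨e, fun h => e1 ((hsupp _ _).2 h), fun h => e2 ((hsupp _ _).2 h),
      fun z hz hz1 hz2 => (hsupp _ _).1 (e3 z hz hz1 hz2)⟩
  have key : ∀ n, ∀ T : Finset E, (T \ Finset.univ.image emb).card = n →
      T.card = Fintype.card ι → (NS D₁ T ↔ NS D₂ T) := by
    intro n
    induction n using Nat.strong_induction_on with
    | _ n ih =>
      intro T hTn hT
      have hag : Agree D₁ D₂ emb T := fun T' hT' hlt => ih _ (by omega) T' rfl hT'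
      have hag' : Agree D₂ D₁ emb T := fun T' hT' hlt => (hag T' hT' hlt).symm
      by_cases hTc : (T \ Finset.univ.image emb).card ≤ c
      · exact hloc T hT hTc
      · by_contra hcon
        by_cases h1 : NS D₁ T
        · by_cases h2 : NS D₂ T
          · exact hcon ⟨fun _ => h2, fun _ => h1⟩
          · exact hTc (hc F inferInstance inferInstance hq ι E inferInstance inferInstance
              inferInstance D₁ D₂ emb B₀ hinj hemb₁ hemb₂ hB₀ hsupp hjoin T hT h1 h2 hag)
        · by_cases h2 : NS D₂ T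
          · exact hTc (hc F inferInstance inferInstance hq ι E inferInstance inferInstance
              inferInstance D₂ D₁ emb B₀ hinj hemb₂ hemb₁ hB₀ (fun e z => (hsupp e z).symm)
              hjoin₂ T hT h2 h1 hag')
          · exact hcon ⟨fun h => absurd h h1, fun h => absurd h h2⟩
  exact fun T hT => key _ T rfl hT

/-- Two matrices with a common basis that agree on all sets of the size of the basis have the same
vector matroid. -/
theorem same_of_all {F : Type} [Field F] {E : Type} [Fintype E] [DecidableEq E] {m₁ m₂ : ℕ}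
    (A₁ : Matrix (Fin m₁) E F) (A₂ : Matrix (Fin m₂) E F) (B : Finset E) (hB₁ : IsBasis A₁ B)
    (hB₂ : IsBasis A₂ B) (hall : ∀ T : Finset E, T.card = B.card → (Indep A₁ T ↔ Indep A₂ T)) :
    SameMatroid A₁ A₂ := by
  obtain ⟨L₁, D₁, hinj₁, hL₁, hD₁, hemb₁⟩ := exists_coord A₁ B hB₁
  obtain ⟨L₂, D₂, hinj₂, hL₂, hD₂, hemb₂⟩ := exists_coord A₂ B hB₂
  have hcardB : Fintype.card B = B.card := Fintype.card_coe B
  intro S
  constructor
  · intro hS
    obtain ⟨T, hST, hT, hTi⟩ := extend_indep D₁ (fun b : B => (b : E)) hemb₁ S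
      ((indep_iff hinj₁ hD₁ S).1 hS)
    have h1 : Indep A₂ T := (hall T (hT.trans hcardB)).1 ((indep_iff hinj₁ hD₁ T).2 hTi)
    exact h1.mono (by exact_mod_cast hST)
  · intro hS
    obtain ⟨T, hST, hT, hTi⟩ := extend_indep D₂ (fun b : B => (b : E)) hemb₂ S
      ((indep_iff hinj₂ hD₂ S).1 hS)
    have h1 : Indep A₁ T := (hall T (hT.trans hcardB)).2 ((indep_iff hinj₂ hD₂ T).2 hTi)
    exact h1.mono (by exact_mod_cast hST)

/-- The theorem for families of sets with many common partners. -/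
theorem hubs_main (q k : ℕ) : ∃ n : ℕ, ∀ t : ℕ, ∃ c : ℕ,
    ∀ (F : Type) [Field F] [Fintype F], Fintype.card F = q →
    ∀ (E : Type) [Fintype E] [DecidableEq E] (m₁ m₂ : ℕ) (A₁ : Matrix (Fin m₁) E F)
      (A₂ : Matrix (Fin m₂) E F) (B B₀ : Finset E), IsBasis A₁ B → IsBasis A₂ B → B₀ ⊆ B →
      B₀.card ≤ k →
      (∀ X ⊆ B \ B₀, X.card = t → ∃ P ⊆ X, ∃ W ⊆ B \ B₀, n ≤ P.card ∧ n ≤ W.card ∧
        ∀ x ∈ P, ∀ w ∈ W, Joined A₁ B₀ x w) →
      (∀ S ∈ tests B c, (Indep A₁ S ↔ Indep A₂ S)) → SameMatroid A₁ A₂ := by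
  obtain ⟨n, hn⟩ := bounded_violation_hubs q k
  refine ⟨n, fun t => ?_⟩
  obtain ⟨c₀, hc₀⟩ := hn t
  refine ⟨c₀ + 1, ?_⟩
  intro F _ _ hq E _ _ m₁ m₂ A₁ A₂ B B₀ hB₁ hB₂ hB₀B hB₀ hjoin hloc
  classical
  obtain ⟨L₁, D₁, hinj₁, hL₁, hD₁, hemb₁⟩ := exists_coord A₁ B hB₁
  obtain ⟨L₂, D₂, hinj₂, hL₂, hD₂, hemb₂⟩ := exists_coord A₂ B hB₂
  have hcardB : Fintype.card B = B.card := Fintype.card_coe B
  have himg : Finset.univ.image (fun b : B => (b : E)) = B := by
    ext e; simp
  have hns₁ : ∀ T : Finset E, T.card = B.card → (Indep A₁ T ↔ NS D₁ T) := fun T hT =>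
    (indep_iff hinj₁ hD₁ T).trans (indep_iff_ns D₁ T (by rw [hT, hcardB]))
  have hns₂ : ∀ T : Finset E, T.card = B.card → (Indep A₂ T ↔ NS D₂ T) := fun T hT =>
    (indep_iff hinj₂ hD₂ T).trans (indep_iff_ns D₂ T (by rw [hT, hcardB]))
  have hlocNS : ∀ T : Finset E, T.card = B.card → (T \ B).card ≤ c₀ + 1 →
      (NS D₁ T ↔ NS D₂ T) := by
    intro T hT hTc
    rw [← hns₁ T hT, ← hns₂ T hT]
    exact hloc T (Finset.mem_filter.2 ⟨Finset.mem_univ _, hT, hTc⟩)
  -- equal supports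
  have hsupp : ∀ e z, D₁ e z = 0 ↔ D₂ e z = 0 := by
    intro e z
    by_cases heB : e ∈ B
    · have h1 := hemb₁ ⟨e, heB⟩
      have h2 := hemb₂ ⟨e, heB⟩
      simp only at h1 h2
      rw [h1, h2]
    · have h1 := nsone F D₁ hemb₁ e z
      have h2 := nsone F D₂ hemb₂ e z
      have hzB : (z : E) ∈ B := z.2
      have hcard : (insert e (B.erase z)).card = B.card := by
        rw [Finset.card_insert_of_notMem (fun h => heB (Finset.mem_of_mem_erase h)),
          Finset.card_erase_of_mem hzB]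
        have : 0 < B.card := Finset.card_pos.2 ⟨z, hzB⟩
        omega
      have hsd : (insert e (B.erase z) \ B).card ≤ c₀ + 1 := by
        have : insert e (B.erase z) \ B ⊆ {e} := by
          intro x hx
          rw [Finset.mem_sdiff, Finset.mem_insert] at hx
          rcases hx with ⟨h3 | h3, h4⟩
          · rw [Finset.mem_singleton]; exact h3
          · exact absurd (Finset.mem_of_mem_erase h3) h4
        have := Finset.card_le_card this
        rw [Finset.card_singleton] at this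
        omega
      have h3 := hlocNS _ hcard hsd
      rw [h1, h2] at h3
      exact not_iff_not.1 h3
  set B₀' : Finset B := Finset.univ.filter (fun b : B => (b : E) ∈ B₀) with hB₀'
  have hB₀'mem : ∀ b : B, b ∈ B₀' ↔ (b : E) ∈ B₀ := by
    intro b; simp [hB₀']
  have hB₀'c : B₀'.card ≤ k := by
    refine le_trans ?_ hB₀
    apply Finset.card_le_card_of_injOn (fun b : B => (b : E))
    · intro b hb
      exact (hB₀'mem b).1 hb
    · intro b _ b' _ h
      exact Subtype.ext h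
  -- lifting subsets of `B`
  have hlift : ∀ P : Finset E, P ⊆ B → (Finset.univ.filter (fun b : B => (b : E) ∈ P)).card =
      P.card := by
    intro P hP
    rw [← Finset.card_image_of_injective _ Subtype.val_injective]
    congr 1
    ext x
    rw [Finset.mem_image]
    constructor
    · rintro ⟨b, hb, rfl⟩
      exact (Finset.mem_filter.1 hb).2
    · intro hx
      exact ⟨⟨x, hP hx⟩, by simp [hx], rfl⟩
  have hjoin' : ∀ X : Finset B, X.card = t → Disjoint X B₀' → ∃ P W : Finset B, P ⊆ X ∧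
      n ≤ P.card ∧ n ≤ W.card ∧ Disjoint W B₀' ∧ ∀ x ∈ P, ∀ w ∈ W, x ≠ w ∧
        ∃ e, D₁ e x ≠ 0 ∧ D₁ e w ≠ 0 ∧ ∀ z, z ∉ B₀' → z ≠ x → z ≠ w → D₁ e z = 0 := by
    intro X hX hdisj
    set X' : Finset E := X.image (fun b : B => (b : E)) with hX'
    have hX'c : X'.card = t := by
      rw [hX', Finset.card_image_of_injective _ Subtype.val_injective, hX]
    have hX'B : X' ⊆ B \ B₀ := by
      intro x hx
      rw [hX', Finset.mem_image] at hx
      obtain ⟨b, hb, rfl⟩ := hx
      exact Finset.mem_sdiff.2 ⟨b.2, fun h => (Finset.disjoint_left.1 hdisj hb) ((hB₀'mem b).2 h)⟩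
    obtain ⟨P, hPX, W, hWB, hPc, hWc, hPW⟩ := hjoin X' hX'B hX'c
    have hPB : P ⊆ B \ B₀ := hPX.trans hX'B
    refine ⟨Finset.univ.filter (fun b : B => (b : E) ∈ P),
      Finset.univ.filter (fun b : B => (b : E) ∈ W), ?_, ?_, ?_, ?_, ?_⟩
    · intro b hb
      have h1 := hPX (Finset.mem_filter.1 hb).2
      rw [hX', Finset.mem_image] at h1
      obtain ⟨b', hb', h2⟩ := h1
      rwa [← Subtype.ext h2]
    · rw [hlift P (hPB.trans Finset.sdiff_subset)]; exact hPc
    · rw [hlift W (hWB.trans Finset.sdiff_subset)]; exact hWc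
    · rw [Finset.disjoint_left]
      intro b hb hb'
      exact (Finset.mem_sdiff.1 (hWB (Finset.mem_filter.1 hb).2)).2 ((hB₀'mem b).1 hb')
    · intro x hx w hw
      have hxP : (x : E) ∈ P := (Finset.mem_filter.1 hx).2
      have hwW : (w : E) ∈ W := (Finset.mem_filter.1 hw).2
      obtain ⟨e, he1, he2, he3⟩ := hPW _ hxP _ hwW
      have hs1 : insert (x : E) (insert (w : E) B₀) ⊆ B :=
        Finset.insert_subset x.2 (Finset.insert_subset w.2 hB₀B)
      rw [inClosure_iff hinj₁ hL₁ hD₁ _ hs1] at he1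
      rw [inClosure_iff hinj₁ hL₁ hD₁ _ (Finset.insert_subset x.2 hB₀B)] at he2
      rw [inClosure_iff hinj₁ hL₁ hD₁ _ (Finset.insert_subset w.2 hB₀B)] at he3
      push Not at he2 he3
      obtain ⟨b₂, hb₂, hb₂'⟩ := he2
      obtain ⟨b₃, hb₃, hb₃'⟩ := he3
      rw [Finset.mem_insert] at hb₂ hb₃
      push Not at hb₂ hb₃
      have e2 : b₂ = w := by
        by_contra hne
        apply hb₂'
        apply he1
        rw [Finset.mem_insert, Finset.mem_insert]
        push Not
        exact ⟨hb₂.1, fun h => hne (Subtype.ext h), hb₂.2⟩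
      have e3 : b₃ = x := by
        by_contra hne
        apply hb₃'
        apply he1
        rw [Finset.mem_insert, Finset.mem_insert]
        push Not
        exact ⟨fun h => hne (Subtype.ext h), hb₃.1, hb₃.2⟩
      refine ⟨?_, e, ?_, ?_, ?_⟩
      · intro h
        exact hb₂.1 (by rw [e2, h])
      · rw [← e3]; exact hb₃'
      · rw [← e2]; exact hb₂'
      · intro z hz hzx hzw
        apply he1
        rw [Finset.mem_insert, Finset.mem_insert]
        push Not
        exact ⟨fun h => hzx (Subtype.ext h), fun h => hzw (Subtype.ext h),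
          fun h => hz ((hB₀'mem z).2 h)⟩
  have hall := all_tests_hubs q k n t c₀ hc₀ hq D₁ D₂ (fun b : B => (b : E)) B₀'
    Subtype.val_injective hemb₁ hemb₂ hB₀'c hsupp hjoin' (by
      intro T hT hTc
      rw [himg] at hTc
      exact hlocNS T (by rw [hT, hcardB]) (by omega))
  apply same_of_all A₁ A₂ B hB₁ hB₂
  intro T hT
  rw [hns₁ T hT, hns₂ T hT]
  exact hall T (by rw [hT, hcardB])

/-- The counting lemma: linear degrees give many common partners. -/
theorem many_partners {E : Type} [DecidableEq E] (J : E → E → Prop) (V X : Finset E)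
    (N m n : ℕ) (hn : 0 < n) (hVN : V.card ≤ N)
    (hX : X.card = 2 * n * m + 1) (hN : 2 * m * (2 ^ (2 * n * m + 1) * n) ≤ N) (hN0 : 0 < N)
    (hdeg : ∀ x ∈ X, N ≤ m * {w | w ∈ V ∧ J x w}.ncard) :
    ∃ P ⊆ X, ∃ W ⊆ V, n ≤ P.card ∧ n ≤ W.card ∧ ∀ x ∈ P, ∀ w ∈ W, J x w := by
  classical
  set t := 2 * n * m + 1 with ht
  have hncard : ∀ x, {w | w ∈ V ∧ J x w}.ncard = (V.filter (J x)).card := by
    intro x
    rw [← Set.ncard_coe_finset]
    congr 1
    ext w
    simp
  have hm : 0 < m := by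
    have hne : X.Nonempty := by rw [← Finset.card_pos]; omega
    obtain ⟨x, hx⟩ := hne
    have h1 := hdeg x hx
    rcases Nat.eq_zero_or_pos m with h | h
    · rw [h, Nat.zero_mul] at h1; omega
    · exact h
  have hdc : ∑ x ∈ X, (V.filter (J x)).card = ∑ w ∈ V, (X.filter (fun x => J x w)).card :=
    Finset.sum_card_bipartiteAbove_eq_sum_card_bipartiteBelow J
  set V' := V.filter (fun w => n ≤ (X.filter (fun x => J x w)).card) with hV'
  have h1 : t * N ≤ m * ∑ x ∈ X, (V.filter (J x)).card := by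
    rw [Finset.mul_sum, ← hX]
    rw [← smul_eq_mul (X.card), ← Finset.sum_const]
    apply Finset.sum_le_sum
    intro x hx
    rw [← hncard]
    exact hdeg x hx
  have h2 : ∑ w ∈ V, (X.filter (fun x => J x w)).card ≤ V'.card * t + N * n := by
    have h3 : ∑ w ∈ V, (X.filter (fun x => J x w)).card ≤
        ∑ w ∈ V, ((if w ∈ V' then t else 0) + n) := by
      apply Finset.sum_le_sum
      intro w hw
      by_cases h4 : w ∈ V'
      · rw [if_pos h4]
        have := Finset.card_filter_le X (fun x => J x w)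
        omega
      · rw [if_neg h4]
        rw [hV', Finset.mem_filter] at h4
        push Not at h4
        have := h4 hw
        omega
    refine h3.trans ?_
    rw [Finset.sum_add_distrib, Finset.sum_const, smul_eq_mul]
    apply Nat.add_le_add
    · rw [← Finset.sum_filter, Finset.sum_const, smul_eq_mul]
      apply Nat.mul_le_mul_right
      apply Finset.card_le_card
      intro w hw
      exact (Finset.mem_filter.1 hw).2
    · exact Nat.mul_le_mul_right _ hVN
  rw [hdc] at h1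
  have h5 : t * N ≤ m * (V'.card * t + N * n) := h1.trans (Nat.mul_le_mul_left _ h2)
  have h6 : 2 ^ t * n ≤ V'.card := by
    by_contra hcon
    push Not at hcon
    have h7 : V'.card + 1 ≤ 2 ^ t * n := hcon
    have h8 : 2 * m * (V'.card + 1) ≤ N := (Nat.mul_le_mul_left _ h7).trans hN
    -- `2 t N ≤ 2 m V' t + 2 m n N ≤ (N - 2 m) t + (t - 1) N`
    have h9 : 2 * (t * N) ≤ (2 * m * V'.card) * t + (2 * n * m) * N := by nlinarith
    have h10 : 2 * m * V'.card + 2 * m ≤ N := by nlinarith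
    have h11 : (2 * m * V'.card) * t ≤ N * t := Nat.mul_le_mul_right _ (by omega)
    have h12 : (2 * n * m) * N + N = t * N := by rw [ht]; ring
    nlinarith
  obtain ⟨P, hP, hPc⟩ := Finset.exists_le_card_fiber_of_mul_le_card_of_maps_to
    (s := V') (t := X.powerset) (f := fun w => X.filter (fun x => J x w)) (n := n)
    (fun w _ => Finset.mem_powerset.2 (Finset.filter_subset _ _)) ⟨∅, by simp⟩ (by
      rw [Finset.card_powerset, hX]; exact h6)
  have hWne : (V'.filter (fun w => X.filter (fun x => J x w) = P)).Nonempty := by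
    rw [← Finset.card_pos]; omega
  refine ⟨P, Finset.mem_powerset.1 hP, V'.filter (fun w => X.filter (fun x => J x w) = P),
    (Finset.filter_subset _ _).trans (Finset.filter_subset _ _), ?_, hPc, ?_⟩
  · obtain ⟨w, hw⟩ := hWne
    rw [Finset.mem_filter] at hw
    rw [← hw.2]
    exact (Finset.mem_filter.1 hw.1).2
  · intro x hx w hw
    rw [← (Finset.mem_filter.1 hw).2] at hx
    exact (Finset.mem_filter.1 hx).2

end Pool.Agent.H.MP_9123af_lc
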