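import Pool.Agent.H.MP_9123af_lc.Main

/-!
# Monochromatic subgrids and homogeneous pairs
-/

namespace Pool.Agent.H.MP_9123af_lc

open Finset

/-- Large grids contain monochromatic subgrids. -/
theorem grid {α β κ : Type*} [Fintype κ] [DecidableEq κ] [Nonempty κ] (N s : ℕ)
    (hN : Fintype.card κ ≤ N) (P : Finset α) (W : Finset β) (hP : N * s ≤ P.card)
    (hW : N ^ (N * s) * s ≤ W.card) (c : α → β → κ) :
    ∃ P' ⊆ P, ∃ W' ⊆ W, s ≤ P'.card ∧ s ≤ W'.card ∧ ∃ k, ∀ x ∈ P', ∀ w ∈ W', c x w = k := by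
  classical
  obtain ⟨P₁, hP₁, hP₁c⟩ := Finset.exists_subset_card_eq hP
  obtain ⟨φ, _, hφ⟩ := Finset.exists_le_card_fiber_of_mul_le_card_of_maps_to
    (s := W) (t := (Finset.univ : Finset (P₁ → κ))) (f := fun w x => c x w) (n := s)
    (fun _ _ => Finset.mem_univ _) Finset.univ_nonempty (by
      rw [Finset.card_univ, Fintype.card_fun, Fintype.card_coe, hP₁c]
      exact (Nat.mul_le_mul_right _ (Nat.pow_le_pow_left hN _)).trans hW)
  obtain ⟨k, _, hk⟩ := Finset.exists_le_card_fiber_of_mul_le_card_of_maps_to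
    (s := (Finset.univ : Finset P₁)) (t := (Finset.univ : Finset κ)) (f := φ) (n := s)
    (fun _ _ => Finset.mem_univ _) Finset.univ_nonempty (by
      rw [Finset.card_univ, Finset.card_univ, Fintype.card_coe, hP₁c]
      exact Nat.mul_le_mul_right _ hN)
  refine ⟨(Finset.univ.filter (fun x => φ x = k)).image (fun x : P₁ => (x : α)), ?_,
    W.filter (fun w => (fun x : P₁ => c x w) = φ), Finset.filter_subset _ _, ?_, hφ, k, ?_⟩
  · intro x hx
    rw [Finset.mem_image] at hx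
    obtain ⟨x', _, rfl⟩ := hx
    exact hP₁ x'.2
  · rw [Finset.card_image_of_injective _ Subtype.val_injective]
    exact hk
  · intro x hx w hw
    rw [Finset.mem_image] at hx
    obtain ⟨x', hx', rfl⟩ := hx
    rw [Finset.mem_filter] at hx' hw
    rw [← hx'.2, ← hw.2]

variable {F : Type} [Field F] [Fintype F] {ι E : Type} [Fintype ι] [DecidableEq ι] [DecidableEq E]

/-- Long sequences of rows and columns contain a homogeneous subsequence whose values below and
above the diagonal differ. -/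
theorem homogeneous_pairs (q L M : ℕ) (hq : Fintype.card F = q)
    (hM : RamseyAt (K2 F) 2 L M) (hL : q + 3 ≤ L)
    {D₁ D₂ : E → ι → F} {emb : ι → E}
    (hemb₁ : ∀ i, D₁ (emb i) = Pi.single i 1) (hemb₂ : ∀ i, D₂ (emb i) = Pi.single i 1)
    {S : Finset E} (hS : S.card = Fintype.card ι) (hmin : Agree D₁ D₂ emb S)
    (d : Data D₁ D₂ emb S) (y : ℕ → E) (b : ℕ → ι) (X : Finset ℕ) (hX : M ≤ X.card)
    (hy : ∀ i ∈ X, y i ∈ d.Y ∧ y i ≠ d.y₀) (hb : ∀ i ∈ X, b i ∈ d.J)
    (hyinj : ∀ i ∈ X, ∀ j ∈ X, y i = y j → i = j)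
    (hdiff : ∀ i ∈ X, ∀ j ∈ X, i < j →
      (d.G (y i) (b i) / d.G d.y₀ (b i) ≠ d.G (y j) (b i) / d.G d.y₀ (b i) ∨
        d.G (y i) (b i) / d.G d.y₀ (b i) ≠ d.G (y i) (b j) / d.G d.y₀ (b j))) :
    ∃ H ⊆ X, L ≤ H.card ∧ ∃ u v u' v' : F, u ≠ v ∧ u' ≠ v' ∧ ∀ i ∈ H, ∀ j ∈ H, i < j →
      d.G (y i) (b j) / d.G d.y₀ (b j) = u ∧ d.σ (y i) (b j) / d.μ (b j) = u' ∧
      d.G (y j) (b i) / d.G d.y₀ (b i) = v ∧ d.σ (y j) (b i) / d.μ (b i) = v' := by
  classical
  obtain ⟨H, hHX, hHc, ⟨u, u', v, v', t, t'⟩, hcol⟩ := hM X hX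
    (fun f => (d.G (y (f 0)) (b (f 1)) / d.G d.y₀ (b (f 1)),
      d.σ (y (f 0)) (b (f 1)) / d.μ (b (f 1)),
      d.G (y (f 1)) (b (f 0)) / d.G d.y₀ (b (f 0)),
      d.σ (y (f 1)) (b (f 0)) / d.μ (b (f 0)),
      d.G (y (f 0)) (b (f 0)) / d.G d.y₀ (b (f 0)),
      d.σ (y (f 0)) (b (f 0)) / d.μ (b (f 0))))
  obtain ⟨h, hhH, hhm⟩ := enum_finset H L hHc
  have hpair : ∀ i ∈ H, ∀ j ∈ H, i < j →
      d.G (y i) (b j) / d.G d.y₀ (b j) = u ∧
      d.σ (y i) (b j) / d.μ (b j) = u' ∧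
      d.G (y j) (b i) / d.G d.y₀ (b i) = v ∧
      d.σ (y j) (b i) / d.μ (b i) = v' ∧
      d.G (y i) (b i) / d.G d.y₀ (b i) = t ∧
      d.σ (y i) (b i) / d.μ (b i) = t' := by
    intro i hi j hj hij
    have e1 := hcol ![i, j] (mono_pair hij) (by
      intro p
      fin_cases p
      · exact hi
      · exact hj)
    simp only [Matrix.cons_val_zero, Matrix.cons_val_one, Prod.mk.injEq] at e1
    exact e1
  have hpairh : ∀ i j, i < j → j < L →
      d.G (y (h i)) (b (h j)) / d.G d.y₀ (b (h j)) = u ∧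
      d.σ (y (h i)) (b (h j)) / d.μ (b (h j)) = u' ∧
      d.G (y (h j)) (b (h i)) / d.G d.y₀ (b (h i)) = v ∧
      d.σ (y (h j)) (b (h i)) / d.μ (b (h i)) = v' ∧
      d.G (y (h i)) (b (h i)) / d.G d.y₀ (b (h i)) = t ∧
      d.σ (y (h i)) (b (h i)) / d.μ (b (h i)) = t' := by
    intro i j hij hj
    exact hpair _ (hhH i (by omega)) _ (hhH j hj) (hhm i j hij hj)
  have hhinj : ∀ i < L, ∀ j < L, h i = h j → i = j := by
    intro i hi j hj hij
    rcases lt_trichotomy i j with h1 | h1 | h1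
    · exact absurd hij (ne_of_lt (hhm i j h1 hj))
    · exact h1
    · exact absurd hij.symm (ne_of_lt (hhm j i h1 hi))
  have hyY : ∀ i < L, y (h i) ∈ d.Y ∧ y (h i) ≠ d.y₀ := fun i hi => hy _ (hHX (hhH i hi))
  have hbJ : ∀ i < L, b (h i) ∈ d.J := fun i hi => hb _ (hHX (hhH i hi))
  have huu : u = v ↔ u' = v' := by
    have e1 := hpairh 0 1 (by omega) (by omega)
    have e2 := hpairh 1 2 (by omega) (by omega)
    have e3 := d.htwo (y (h 1)) (hyY 1 (by omega)).1 (hyY 1 (by omega)).2 (b (h 0))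
      (hbJ 0 (by omega)) (b (h 2)) (hbJ 2 (by omega))
    rw [e1.2.2.1, e2.1, e1.2.2.2.1, e2.2.1] at e3
    constructor
    · intro h1; exact (e3.1 h1.symm).symm
    · intro h1; exact (e3.2 h1.symm).symm
  by_cases huv : u = v
  · exfalso
    have huv' := huu.1 huv
    have htv : t ≠ v := by
      have e1 := hdiff _ (hHX (hhH 0 (by omega))) _ (hHX (hhH 1 (by omega)))
        (hhm 0 1 (by omega) (by omega))
      have e2 := hpairh 0 1 (by omega) (by omega)
      rcases e1 with e1 | e1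
      · rw [e2.2.2.2.2.1, e2.2.2.1] at e1
        exact e1
      · rw [e2.2.2.2.2.1, e2.1, huv] at e1
        exact e1
    obtain ⟨p, hpchar⟩ := CharP.exists F
    haveI := hpchar
    have hpp : p.Prime := (CharP.char_is_prime_or_zero F p).resolve_right (by
      intro h0
      subst h0
      haveI : CharZero F := CharP.charP_to_charZero F
      haveI : Infinite F := CharZero.infinite F
      exact not_finite F)
    have hpq : p ≤ q := by
      rw [← hq]
      have h1 : p ∣ Fintype.card F := by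
        rw [← CharP.cast_eq_zero_iff F p, Nat.cast_card_eq_zero]
      exact Nat.le_of_dvd Fintype.card_pos h1
    refine diag_case hemb₁ hemb₂ d hS hmin p (CharP.cast_eq_zero F p) hpp.pos
      (fun i => y (h i)) (fun i => b (h i)) (fun i hi => hyY i (by omega)) ?_
      (fun i hi => hbJ i (by omega)) v t v' t' htv ?_ ?_
    · intro i hi j hj hij
      exact hhinj i (by omega) j (by omega)
        (hyinj _ (hHX (hhH i (by omega))) _ (hHX (hhH j (by omega))) hij)
    · intro i hi j hj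
      rcases lt_trichotomy i j with h1 | h1 | h1
      · rw [if_neg (by omega), (hpairh i j h1 (by omega)).1, huv]
      · subst h1
        rw [if_pos rfl, (hpairh i (i + 1) (by omega) (by omega)).2.2.2.2.1]
      · rw [if_neg (by omega), (hpairh j i h1 (by omega)).2.2.1]
    · intro i hi j hj
      rcases lt_trichotomy i j with h1 | h1 | h1
      · rw [if_neg (by omega), (hpairh i j h1 (by omega)).2.1, huv']
      · subst h1
        rw [if_pos rfl, (hpairh i (i + 1) (by omega) (by omega)).2.2.2.2.2]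
      · rw [if_neg (by omega), (hpairh j i h1 (by omega)).2.2.2.1]
  · exact ⟨H, hHX, hHc, u, v, u', v', huv, fun h1 => huv (huu.2 h1), fun i hi j hj hij =>
      ⟨(hpair i hi j hj hij).1, (hpair i hi j hj hij).2.1, (hpair i hi j hj hij).2.2.1,
        (hpair i hi j hj hij).2.2.2.1⟩⟩

end Pool.Agent.H.MP_9123af_lc
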