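import Pool.Agent.H.MP_9123af_lc.HubGrid
import Pool.Agent.H.MP_9123af_lc.HubCases2

/-!
# Smallest violations have bounded size when large sets have many common partners
-/

namespace Pool.Agent.H.MP_9123af_lc

open Finset

/-- colours of pairs (row index, common partner) -/
abbrev KH (F : Type) (k : ℕ) : Type :=
  Bool × F × F × (Fin k → F) × F × F × (Fin k → F) × F × F × F × F × F × (Fin k → F) × (Fin k → F)

/-- number of colours -/
def nH (q k : ℕ) : ℕ :=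
  2 * (q * (q * (q ^ k * (q * (q * (q ^ k * (q * (q * (q * (q * (q * (q ^ k * q ^ k))))))))))))

theorem exists_cover {ι : Type} [Nonempty ι] (B₀ : Finset ι) (k : ℕ) (h : B₀.card ≤ k) :
    ∃ β : Fin k → ι, ∀ z ∈ B₀, ∃ r, β r = z := by
  classical
  refine ⟨fun r => if hr : (r : ℕ) < B₀.card then (B₀.equivFin.symm ⟨r, hr⟩ : ι) else
    Classical.arbitrary ι, ?_⟩
  intro z hz
  refine ⟨⟨B₀.equivFin ⟨z, hz⟩, lt_of_lt_of_le (B₀.equivFin ⟨z, hz⟩).2 h⟩, ?_⟩
  simp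

variable {F : Type} [Field F] [Fintype F] {ι E : Type} [Fintype ι] [DecidableEq ι]
  [DecidableEq E]

/-- Many common partners outside `S` are impossible. -/
theorem hubJ_absurd (q k L₂ M₅ s : ℕ) (hq : Fintype.card F = q)
    (hM₅ : RamseyAt (K2 F) 2 L₂ M₅) (hL₂ : q + 3 + (q * q) ^ (q * q * 8) * 8 ≤ L₂)
    (hs₁ : q ^ ((q * q) ^ k * M₅ + 1) ≤ s) (hs₂ : q * q * 8 ≤ s)
    {D₁ D₂ : E → ι → F} {emb : ι → E}
    (hemb₁ : ∀ i, D₁ (emb i) = Pi.single i 1) (hemb₂ : ∀ i, D₂ (emb i) = Pi.single i 1)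
    (B₀ : Finset ι) (hB₀ : B₀.card ≤ k)
    {S : Finset E} (d : Data D₁ D₂ emb S) (hS : S.card = Fintype.card ι)
    (hmin : Agree D₁ D₂ emb S) (y : ℕ → E) (b : ℕ → ι) (I : Finset ℕ) (W : Finset ι)
    (hI : s ≤ I.card) (hW : s ≤ W.card) (hyY : ∀ i ∈ I, y i ∈ d.Y ∧ y i ≠ d.y₀)
    (hyinj : ∀ i ∈ I, ∀ j ∈ I, y i = y j → i = j)
    (hbJ : ∀ i ∈ I, b i ∈ d.J ∧ b i ∉ B₀)
    (hWJ : ∀ w ∈ W, w ∈ d.J ∧ w ∉ B₀) (hbW : ∀ i ∈ I, ∀ w ∈ W, b i ≠ w)
    (u v u' v' : F) (huv : u ≠ v) (huv' : u' ≠ v')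
    (hpair : ∀ i ∈ I, ∀ j ∈ I, i < j →
      d.G (y i) (b j) / d.G d.y₀ (b j) = u ∧ d.σ (y i) (b j) / d.μ (b j) = u' ∧
      d.G (y j) (b i) / d.G d.y₀ (b i) = v ∧ d.σ (y j) (b i) / d.μ (b i) = v')
    (g₀ s₀ : ι → F) (hg₀ : ∀ i ∈ I, ∀ x ∈ B₀, d.G (y i) x = g₀ x)
    (hs₀ : ∀ i ∈ I, ∀ x ∈ B₀, d.σ (y i) x = s₀ x) (h h' : F)
    (hh : ∀ i ∈ I, ∀ w ∈ W, d.G (y i) w / d.G d.y₀ w = h ∧ d.σ (y i) w / d.μ w = h')
    (A₁ A₂ A₁' A₂' : F) (hA₁ : A₁ ≠ 0) (hA₂ : A₂ ≠ 0) (hA₁' : A₁' ≠ 0) (hA₂' : A₂' ≠ 0)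
    (δ δ' : ι → F) (ch : ∀ i ∈ I, ∀ w ∈ W, ∃ e,
        (∀ t, t ∉ B₀ → t ≠ b i → t ≠ w → D₁ e t = 0 ∧ D₂ e t = 0) ∧
        D₁ e (b i) * d.G d.y₀ (b i) = A₁ ∧ D₁ e w * d.G d.y₀ w = A₂ ∧
        (∀ t ∈ B₀, D₁ e t = δ t) ∧
        D₂ e (b i) * d.μ (b i) = A₁' ∧ D₂ e w * d.μ w = A₂' ∧
        (∀ t ∈ B₀, D₂ e t = δ' t)) : False := by
  classical
  have hq2 : 2 ≤ q := by rw [← hq]; exact Fintype.one_lt_card
  haveI : Nonempty E := ⟨d.y₀⟩
  haveI : Nonempty ι := by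
    rw [← Fintype.card_pos_iff, ← hS, Finset.card_pos]
    exact ⟨d.y₀, d.hYS d.hy₀⟩
  obtain ⟨β, hβ⟩ := exists_cover B₀ k hB₀
  set M₄ := (q * q) ^ k * M₅ with hM₄
  -- rows that distinguish the partners
  obtain ⟨w, Q, hwQ, hprop⟩ := distinguish q hq hq2
    (fun (w : ι) (y : E) => d.G y w / d.G d.y₀ w) (d.Y.erase d.y₀) (M₄ + 1) W (hs₁.trans hW) (by
      intro w hw w' hw' hne
      by_contra hcon
      push Not at hcon
      have hwJ := (hWJ w hw).1
      have hwJ' := (hWJ w' hw').1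
      have hprop : ∀ s ∈ d.Y, d.G s w / d.G d.y₀ w = d.G s w' / d.G d.y₀ w' := by
        intro s hs
        by_cases h1 : s = d.y₀
        · rw [h1, div_self (d.hG0 _ hwJ), div_self (d.hG0 _ hwJ')]
        · exact hcon s (Finset.mem_erase.2 ⟨h1, hs⟩)
      have hexp := d.hG2 (Pi.single w 1) (by
        intro s hs hsY
        have : ∃ i, emb i = s := by
          by_contra h3; push Not at h3; exact hsY ((d.hY s).2 ⟨hs, h3⟩)
        obtain ⟨i, rfl⟩ := this
        rw [hemb₁, single_dotProduct, one_mul, Pi.single_eq_of_ne]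
        rintro rfl
        exact (d.hJ w).1 hwJ hs)
      have e1 := congrFun hexp w
      have e2 := congrFun hexp w'
      rw [Pi.single_eq_same, Finset.sum_apply] at e1
      rw [Pi.single_eq_of_ne (Ne.symm hne), Finset.sum_apply] at e2
      have e3 : ∑ s ∈ d.Y, (((Pi.single w 1 : ι → F) ⬝ᵥ D₁ s) • d.G s) w' =
          (d.G d.y₀ w' / d.G d.y₀ w) *
          ∑ s ∈ d.Y, (((Pi.single w 1 : ι → F) ⬝ᵥ D₁ s) • d.G s) w := by
        rw [Finset.mul_sum]
        apply Finset.sum_congr rfl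
        intro s hs
        rw [Pi.smul_apply, Pi.smul_apply, smul_eq_mul, smul_eq_mul]
        have e4 := hprop s hs
        have e5 := d.hG0 _ hwJ
        have e6 := d.hG0 _ hwJ'
        have e7 : d.G s w' = d.G s w / d.G d.y₀ w * d.G d.y₀ w' := by
          rw [e4]; field_simp
        rw [e7]
        field_simp
      rw [e3, ← e1, mul_one] at e2
      exact (div_ne_zero (d.hG0 _ hwJ') (d.hG0 _ hwJ)) e2.symm)
  have hQY : ∀ i < M₄ + 1, Q i ∈ d.Y ∧ Q i ≠ d.y₀ := by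
    intro i hi
    have := (hwQ i hi).2
    rw [Finset.mem_erase] at this
    exact ⟨this.2, this.1⟩
  have hQinj : ∀ i < M₄, ∀ j < M₄, Q i = Q j → i = j := by
    have key : ∀ i j, i < j → j < M₄ → Q i ≠ Q j := by
      intro i j hij hj h
      have e1 := (hprop i j (j + 1) hij (by omega) (by omega) (by omega)).1
      have e2 := (hprop j (j + 1) (j + 1) (by omega) (by omega) (by omega) (by omega)).2
      simp only [h] at e1
      exact e2 e1
    intro i hi j hj h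
    rcases lt_trichotomy i j with h1 | h1 | h1
    · exact absurd h (key i j h1 hj)
    · exact h1
    · exact absurd h.symm (key j i h1 hi)
  -- equal values on `B₀`
  obtain ⟨φ, _, hφ⟩ := Finset.exists_le_card_fiber_of_mul_le_card_of_maps_to
    (s := range M₄) (t := (Finset.univ : Finset (Fin k → F × F)))
    (f := fun i => fun r => (d.G (Q i) (β r), d.σ (Q i) (β r))) (n := M₅)
    (fun _ _ => Finset.mem_univ _) Finset.univ_nonempty (by
      rw [Finset.card_univ, Fintype.card_fun, Fintype.card_prod, hq, Fintype.card_fin,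
        Finset.card_range])
  set X := (range M₄).filter (fun i => (fun r => (d.G (Q i) (β r), d.σ (Q i) (β r))) = φ) with hX
  have hXlt : ∀ i ∈ X, i < M₄ := fun i hi => Finset.mem_range.1 (Finset.mem_filter.1 hi).1
  have hXeq : ∀ i ∈ X, ∀ j ∈ X, ∀ x ∈ B₀, d.G (Q i) x = d.G (Q j) x ∧ d.σ (Q i) x = d.σ (Q j) x := by
    intro i hi j hj x hx
    obtain ⟨r, hr⟩ := hβ x hx
    have e1 := congrFun ((Finset.mem_filter.1 hi).2.trans (Finset.mem_filter.1 hj).2.symm) r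
    simp only [Prod.mk.injEq, hr] at e1
    exact e1
  obtain ⟨K, hKX, hKc, x, z, x', z', hxz, hxz', hKpair⟩ := homogeneous_pairs q L₂ M₅ hq hM₅
    (by omega) hemb₁ hemb₂ hS hmin d Q w X hφ (fun i hi => hQY i (by have := hXlt i hi; omega))
    (fun i hi => (hWJ _ (hwQ i (by have := hXlt i hi; omega)).1).1)
    (fun i hi j hj => hQinj i (hXlt i hi) j (hXlt j hj))
    (fun i hi j hj hij => Or.inr (hprop i j j hij (by have := hXlt j hj; omega) hij
      (by have := hXlt j hj; omega)).2)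
  -- cross values
  obtain ⟨I', hI', K', hK', hI'c, hK'c, ⟨ζ, ζ'⟩, hζ⟩ := grid (κ := F × F) (q * q) 8
    (by rw [Fintype.card_prod, hq]) I K (by omega) (by omega)
    (fun i k => (d.G (Q k) (b i) / d.G d.y₀ (b i), d.σ (Q k) (b i) / d.μ (b i)))
  obtain ⟨f, hfI, hfm⟩ := enum_finset I' 8 hI'c
  obtain ⟨f', hfK, hfm'⟩ := enum_finset K' 8 hK'c
  have hfII : ∀ i < 8, f i ∈ I := fun i hi => hI' (hfI i hi)
  have hfKK : ∀ i < 8, f' i ∈ K := fun i hi => hK' (hfK i hi)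
  have hfX : ∀ i < 8, f' i ∈ X := fun i hi => hKX (hfKK i hi)
  have hfM : ∀ i < 8, f' i < M₄ := fun i hi => hXlt _ (hfX i hi)
  have hfW : ∀ i < 8, w (f' i) ∈ W := fun i hi => (hwQ _ (by have := hfM i hi; omega)).1
  have hfinj : ∀ i < 8, ∀ j < 8, f i = f j → i = j := by
    intro i hi j hj hij
    rcases lt_trichotomy i j with h1 | h1 | h1
    · exact absurd hij (ne_of_lt (hfm i j h1 hj))
    · exact h1
    · exact absurd hij.symm (ne_of_lt (hfm j i h1 hi))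
  have hfinj' : ∀ i < 8, ∀ j < 8, f' i = f' j → i = j := by
    intro i hi j hj hij
    rcases lt_trichotomy i j with h1 | h1 | h1
    · exact absurd hij (ne_of_lt (hfm' i j h1 hj))
    · exact h1
    · exact absurd hij.symm (ne_of_lt (hfm' j i h1 hi))
  have hdG : ∀ i < 8, ∀ c t : F, ∀ e : ι → F, e (b (f i)) / d.G d.y₀ (b (f i)) = c →
      e (b (f i)) = d.G d.y₀ (b (f i)) * c := by
    intro i hi c _ e he
    rw [← he, mul_div_cancel₀ _ (d.hG0 _ (hbJ _ (hfII i hi)).1)]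
  have hdμ : ∀ i < 8, ∀ c : F, ∀ e : ι → F, e (b (f i)) / d.μ (b (f i)) = c →
      e (b (f i)) = d.μ (b (f i)) * c := by
    intro i hi c e he
    rw [← he, mul_div_cancel₀ _ (d.hμJ _ (hbJ _ (hfII i hi)).1)]
  have hdG' : ∀ i < 8, ∀ c : F, ∀ e : ι → F, e (w (f' i)) / d.G d.y₀ (w (f' i)) = c →
      e (w (f' i)) = d.G d.y₀ (w (f' i)) * c := by
    intro i hi c e he
    rw [← he, mul_div_cancel₀ _ (d.hG0 _ (hWJ _ (hfW i hi)).1)]
  have hdμ' : ∀ i < 8, ∀ c : F, ∀ e : ι → F, e (w (f' i)) / d.μ (w (f' i)) = c →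
      e (w (f' i)) = d.μ (w (f' i)) * c := by
    intro i hi c e he
    rw [← he, mul_div_cancel₀ _ (d.hμJ _ (hWJ _ (hfW i hi)).1)]
  refine hubJ_case hemb₁ hemb₂ d hS hmin B₀ (fun i => y (f (2 * i + 1)))
    (fun i => Q (f' (2 * i + 1))) (fun j => b (f (2 * j))) (fun j => w (f' (2 * j)))
    (fun i hi => hyY _ (hfII _ (by omega))) ?_ (fun i hi => hQY _ (by
      have := hfM (2 * i + 1) (by omega); omega)) ?_ ?_
    (fun j hj => hbJ _ (hfII _ (by omega))) (fun j hj => hWJ _ (hfW _ (by omega)))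
    (fun j hj l hl => hbW _ (hfII _ (by omega)) _ (hfW _ (by omega)))
    u v u' v' x z x' z' h h' ζ ζ' huv huv' hxz hxz' ?_ ?_ ?_ ?_ ?_ ?_ ?_ ?_
    g₀ s₀ (d.G (Q (f' 0))) (d.σ (Q (f' 0))) ?_ ?_ ?_ ?_
    A₁ A₂ (∑ t ∈ B₀, δ t * g₀ t) (∑ t ∈ B₀, δ t * d.G (Q (f' 0)) t) A₁' A₂'
    (∑ t ∈ B₀, δ' t * d.μ t) hA₁ hA₂ hA₁' hA₂' ?_
  · intro i hi j hj hij
    have := hfinj _ (by omega) _ (by omega)
      (hyinj _ (hfII (2 * i + 1) (by omega)) _ (hfII (2 * j + 1) (by omega)) hij)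
    omega
  · intro i hi j hj hij
    have := hfinj' _ (by omega) _ (by omega)
      (hQinj _ (hfM (2 * i + 1) (by omega)) _ (hfM (2 * j + 1) (by omega)) hij)
    omega
  · intro i hi k' hk' heq
    have hlt := hfM (2 * k' + 1) (by omega)
    have e1 := (hprop (f' (2 * k' + 1)) (f' (2 * k' + 1) + 1) (f' (2 * k' + 1) + 1)
      (by omega) (by omega) (by omega) (by omega)).2
    apply e1
    have heq' : y (f (2 * i + 1)) = Q (f' (2 * k' + 1)) := heq
    rw [← heq', (hh _ (hfII (2 * i + 1) (by omega)) _ (hwQ _ (by omega)).1).1,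
      (hh _ (hfII (2 * i + 1) (by omega)) _ (hwQ _ (by omega)).1).1]
  · intro i hi j hj
    apply hdG _ (by omega) _ 0
    by_cases h1 : i < j
    · rw [if_pos h1]
      exact (hpair _ (hfII _ (by omega)) _ (hfII _ (by omega))
        (hfm (2 * i + 1) (2 * j) (by omega) (by omega))).1
    · rw [if_neg h1]
      exact (hpair _ (hfII _ (by omega)) _ (hfII _ (by omega))
        (hfm (2 * j) (2 * i + 1) (by omega) (by omega))).2.2.1
  · intro i hi j hj
    apply hdμ _ (by omega)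
    by_cases h1 : i < j
    · rw [if_pos h1]
      exact (hpair _ (hfII _ (by omega)) _ (hfII _ (by omega))
        (hfm (2 * i + 1) (2 * j) (by omega) (by omega))).2.1
    · rw [if_neg h1]
      exact (hpair _ (hfII _ (by omega)) _ (hfII _ (by omega))
        (hfm (2 * j) (2 * i + 1) (by omega) (by omega))).2.2.2
  · intro i hi j hj
    apply hdG' _ (by omega)
    by_cases h1 : i < j
    · rw [if_pos h1]
      exact (hKpair _ (hfKK _ (by omega)) _ (hfKK _ (by omega))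
        (hfm' (2 * i + 1) (2 * j) (by omega) (by omega))).1
    · rw [if_neg h1]
      exact (hKpair _ (hfKK _ (by omega)) _ (hfKK _ (by omega))
        (hfm' (2 * j) (2 * i + 1) (by omega) (by omega))).2.2.1
  · intro i hi j hj
    apply hdμ' _ (by omega)
    by_cases h1 : i < j
    · rw [if_pos h1]
      exact (hKpair _ (hfKK _ (by omega)) _ (hfKK _ (by omega))
        (hfm' (2 * i + 1) (2 * j) (by omega) (by omega))).2.1
    · rw [if_neg h1]
      exact (hKpair _ (hfKK _ (by omega)) _ (hfKK _ (by omega))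
        (hfm' (2 * j) (2 * i + 1) (by omega) (by omega))).2.2.2
  · intro i hi j hj
    exact hdG' _ (by omega) _ _ (hh _ (hfII _ (by omega)) _ (hfW _ (by omega))).1
  · intro i hi j hj
    exact hdμ' _ (by omega) _ _ (hh _ (hfII _ (by omega)) _ (hfW _ (by omega))).2
  · intro i hi j hj
    apply hdG _ (by omega) _ 0
    have := hζ _ (hfI (2 * j) (by omega)) _ (hfK (2 * i + 1) (by omega))
    simp only [Prod.mk.injEq] at this
    exact this.1
  · intro i hi j hj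
    apply hdμ _ (by omega)
    have := hζ _ (hfI (2 * j) (by omega)) _ (hfK (2 * i + 1) (by omega))
    simp only [Prod.mk.injEq] at this
    exact this.2
  · intro i hi t ht
    exact hg₀ _ (hfII _ (by omega)) t ht
  · intro i hi t ht
    exact hs₀ _ (hfII _ (by omega)) t ht
  · intro i hi t ht
    exact (hXeq _ (hfX _ (by omega)) _ (hfX 0 (by omega)) t ht).1
  · intro i hi t ht
    exact (hXeq _ (hfX _ (by omega)) _ (hfX 0 (by omega)) t ht).2
  · intro j l hjl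
    have hj3 : j ≤ 3 ∧ l ≤ 3 := by omega
    obtain ⟨e, he1, he2, he3, he4, he5, he6, he7⟩ := ch _ (hfII (2 * j) (by omega)) _
      (hfW (2 * l) (by omega))
    refine ⟨e, he1, he2, he3, ?_, ?_, he5, he6, ?_⟩
    · apply Finset.sum_congr rfl
      intro t ht
      rw [he4 t ht]
    · apply Finset.sum_congr rfl
      intro t ht
      rw [he4 t ht]
    · apply Finset.sum_congr rfl
      intro t ht
      rw [he7 t ht]

end Pool.Agent.H.MP_9123af_lc
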