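import Pool.Agent.H.MP_9123af_lc.Ramsey
import Pool.Agent.H.MP_9123af_lc.Cases

/-!
# Smallest violations have bounded size
-/

namespace Pool.Agent.H.MP_9123af_lc

open Finset

/-- colours of pairs -/
abbrev K2 (F : Type) : Type := F × F × F × F × F × F

/-- colours of `(a+1)`-tuples -/
abbrev K3 (F : Type) (a : ℕ) : Type := Fin (a + 1) × Fin (a + 1) × (F × F × F × F × F × F)

variable {F : Type} [Field F] [Fintype F] {ι E : Type} [Fintype ι] [DecidableEq ι]
  [DecidableEq E]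

/-- `col` describes a chord for the tuple `f`. -/
def Chord {D₁ D₂ : E → ι → F} {emb : ι → E} {S : Finset E} (d : Data D₁ D₂ emb S)
    (B₀ : Finset ι) (g₀ : ι → F) (b : ℕ → ι) (a : ℕ) (f : Fin (a + 1) → ℕ) (col : K3 F a) :
    Prop :=
  col.1 < col.2.1 ∧ col.2.2.1 ≠ 0 ∧ col.2.2.2.1 ≠ 0 ∧ col.2.2.2.2.2.1 ≠ 0 ∧
    col.2.2.2.2.2.2.1 ≠ 0 ∧ ∃ e,
      (∀ z, z ∉ B₀ → (∀ p, col.1 ≤ p → p ≤ col.2.1 → z ≠ b (f p)) → D₁ e z = 0 ∧ D₂ e z = 0) ∧
      D₁ e (b (f col.1)) * d.G d.y₀ (b (f col.1)) = col.2.2.1 ∧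
      D₁ e (b (f col.2.1)) * d.G d.y₀ (b (f col.2.1)) = col.2.2.2.1 ∧
      ∑ z ∈ B₀, D₁ e z * g₀ z = col.2.2.2.2.1 ∧
      D₂ e (b (f col.1)) * d.μ (b (f col.1)) = col.2.2.2.2.2.1 ∧
      D₂ e (b (f col.2.1)) * d.μ (b (f col.2.1)) = col.2.2.2.2.2.2.1 ∧
      ∑ z ∈ B₀, D₂ e z * d.μ z = col.2.2.2.2.2.2.2

theorem chord_exists {D₁ D₂ : E → ι → F} {emb : ι → E} {S : Finset E} (d : Data D₁ D₂ emb S)
    (B₀ : Finset ι) (g₀ : ι → F) (b : ℕ → ι) (a : ℕ) (f : Fin (a + 1) → ℕ)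
    (hsupp : ∀ e z, D₁ e z = 0 ↔ D₂ e z = 0)
    (hfree : ∀ A : Finset ι, A.card = a + 1 → Disjoint A B₀ →
      ∃ e, (∀ z, z ∉ A → z ∉ B₀ → D₁ e z = 0) ∧
        ∃ z ∈ A, ∃ z' ∈ A, z ≠ z' ∧ D₁ e z ≠ 0 ∧ D₁ e z' ≠ 0)
    (hinj : Function.Injective (fun p => b (f p))) (hJ : ∀ p, b (f p) ∈ d.J ∧ b (f p) ∉ B₀) :
    ∃ col, Chord d B₀ g₀ b a f col := by
  classical
  set A : Finset ι := Finset.univ.image (fun p => b (f p)) with hA
  have hAc : A.card = a + 1 := by
    rw [hA, Finset.card_image_of_injective _ hinj, Finset.card_univ, Fintype.card_fin]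
  have hAB : Disjoint A B₀ := by
    rw [Finset.disjoint_left]
    intro z hz
    rw [hA, Finset.mem_image] at hz
    obtain ⟨p, _, rfl⟩ := hz
    exact (hJ p).2
  obtain ⟨e, he, z, hz, z', hz', hzz, hne, hne'⟩ := hfree A hAc hAB
  rw [hA, Finset.mem_image] at hz hz'
  obtain ⟨p, _, rfl⟩ := hz
  obtain ⟨p', _, rfl⟩ := hz'
  set P : Finset (Fin (a + 1)) := Finset.univ.filter (fun p => D₁ e (b (f p)) ≠ 0) with hP
  have hpP : p ∈ P := by simp [hP, hne]
  have hpP' : p' ∈ P := by simp [hP, hne']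
  have hPne : P.Nonempty := ⟨p, hpP⟩
  set p₁ := P.min' hPne with hp₁
  set p₂ := P.max' hPne with hp₂
  have hmem₁ : p₁ ∈ P := Finset.min'_mem _ _
  have hmem₂ : p₂ ∈ P := Finset.max'_mem _ _
  have hlt : p₁ < p₂ := by
    have hpp : p ≠ p' := fun h => hzz (by rw [h])
    rcases lt_or_gt_of_ne hpp with h | h
    · exact lt_of_le_of_lt (Finset.min'_le _ _ hpP) (lt_of_lt_of_le h (Finset.le_max' _ _ hpP'))
    · exact lt_of_le_of_lt (Finset.min'_le _ _ hpP') (lt_of_lt_of_le h (Finset.le_max' _ _ hpP))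
  have hn₁ : D₁ e (b (f p₁)) ≠ 0 := by
    have := hmem₁; rw [hP, Finset.mem_filter] at this; exact this.2
  have hn₂ : D₁ e (b (f p₂)) ≠ 0 := by
    have := hmem₂; rw [hP, Finset.mem_filter] at this; exact this.2
  refine ⟨(p₁, p₂, D₁ e (b (f p₁)) * d.G d.y₀ (b (f p₁)), D₁ e (b (f p₂)) * d.G d.y₀ (b (f p₂)),
    ∑ z ∈ B₀, D₁ e z * g₀ z, D₂ e (b (f p₁)) * d.μ (b (f p₁)), D₂ e (b (f p₂)) * d.μ (b (f p₂)),
    ∑ z ∈ B₀, D₂ e z * d.μ z), hlt, mul_ne_zero hn₁ (d.hG0 _ (hJ _).1),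
    mul_ne_zero hn₂ (d.hG0 _ (hJ _).1),
    mul_ne_zero (fun h => hn₁ ((hsupp _ _).2 h)) (d.hμJ _ (hJ _).1),
    mul_ne_zero (fun h => hn₂ ((hsupp _ _).2 h)) (d.hμJ _ (hJ _).1), e, ?_, rfl, rfl, rfl, rfl,
    rfl, rfl⟩
  intro z hzB hz
  have h0 : D₁ e z = 0 := by
    by_cases hzA : z ∈ A
    · rw [hA, Finset.mem_image] at hzA
      obtain ⟨r, _, rfl⟩ := hzA
      by_contra hr
      have hrP : r ∈ P := by simp [hP, hr]
      exact hz r (Finset.min'_le _ _ hrP) (Finset.le_max' _ _ hrP) rfl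
    · exact he z hzA hzB
  exact ⟨h0, (hsupp _ _).1 h0⟩

theorem mono_pair {x y : ℕ} (h : x < y) : StrictMono (![x, y] : Fin 2 → ℕ) := by
  intro p p' hpp
  fin_cases p <;> fin_cases p' <;> simp_all

theorem violation_absurd (q a k L M₃ M₂ : ℕ) (hq : Fintype.card F = q)
    (hM₃ : RamseyAt (K3 F a) (a + 1) L M₃) (hM₂ : RamseyAt (K2 F) 2 M₃ M₂)
    (hL : q + 12 * (a + 2) + 8 ≤ L)
    {D₁ D₂ : E → ι → F} {emb : ι → E} (hinj : Function.Injective emb)
    (hemb₁ : ∀ i, D₁ (emb i) = Pi.single i 1) (hemb₂ : ∀ i, D₂ (emb i) = Pi.single i 1)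
    (B₀ : Finset ι) (hB₀ : B₀.card ≤ k)
    (hsupp : ∀ e z, D₁ e z = 0 ↔ D₂ e z = 0)
    (hfree : ∀ A : Finset ι, A.card = a + 1 → Disjoint A B₀ →
      ∃ e, (∀ z, z ∉ A → z ∉ B₀ → D₁ e z = 0) ∧
        ∃ z ∈ A, ∃ z' ∈ A, z ≠ z' ∧ D₁ e z ≠ 0 ∧ D₁ e z' ≠ 0)
    {S : Finset E} (hS : S.card = Fintype.card ι) (hN₁ : NS D₁ S) (hN₂ : ¬ NS D₂ S)
    (hmin : Agree D₁ D₂ emb S)
    (hbig : q ^ (M₂ + 1) * (q * q) ^ k < (S \ Finset.univ.image emb).card) : False := by
  classical
  obtain ⟨d⟩ := exists_data hinj hemb₁ hemb₂ hS hN₁ hN₂ hmin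
  have hq2 : 2 ≤ q := by rw [← hq]; exact Fintype.one_lt_card
  have hYeq : S \ Finset.univ.image emb = d.Y := by
    ext e
    rw [Finset.mem_sdiff, d.hY]
    simp
  rw [hYeq] at hbig
  haveI : Nonempty E := ⟨d.y₀⟩
  haveI : Nonempty ι := by
    rw [← Fintype.card_pos_iff, ← hS, Finset.card_pos]
    exact ⟨d.y₀, d.hYS d.hy₀⟩
  -- rows that agree on `B₀`
  obtain ⟨φ₀, _, hφ₀⟩ := Finset.exists_le_card_fiber_of_mul_le_card_of_maps_to
    (s := d.Y.erase d.y₀) (t := (Finset.univ : Finset (B₀ → F × F)))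
    (f := fun y => fun x : B₀ => (d.G y x, d.σ y x)) (n := q ^ (M₂ + 1))
    (fun _ _ => Finset.mem_univ _) Finset.univ_nonempty (by
      have e1 : (Finset.univ : Finset (B₀ → F × F)).card = (q * q) ^ B₀.card := by
        rw [Finset.card_univ, Fintype.card_fun, Fintype.card_prod, hq, Fintype.card_coe]
      have e2 : (q * q) ^ B₀.card ≤ (q * q) ^ k := Nat.pow_le_pow_right (by nlinarith) hB₀
      have e3 : (d.Y.erase d.y₀).card = d.Y.card - 1 := Finset.card_erase_of_mem d.hy₀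
      rw [e1, e3]
      calc (q * q) ^ B₀.card * q ^ (M₂ + 1) ≤ (q * q) ^ k * q ^ (M₂ + 1) :=
            Nat.mul_le_mul_right _ e2
        _ = q ^ (M₂ + 1) * (q * q) ^ k := Nat.mul_comm _ _
        _ ≤ d.Y.card - 1 := by omega)
  set Y' := (d.Y.erase d.y₀).filter (fun y => (fun x : B₀ => (d.G y x, d.σ y x)) = φ₀) with hY'
  have hY'mem : ∀ y ∈ Y', y ∈ d.Y ∧ y ≠ d.y₀ := by
    intro y hy
    rw [hY', Finset.mem_filter, Finset.mem_erase] at hy
    exact ⟨hy.1.2, hy.1.1⟩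
  have hY'eq : ∀ y ∈ Y', ∀ y' ∈ Y', ∀ x ∈ B₀, d.G y x = d.G y' x ∧ d.σ y x = d.σ y' x := by
    intro y hy y' hy' x hx
    rw [hY', Finset.mem_filter] at hy hy'
    have e1 := congrFun (hy.2.trans hy'.2.symm) ⟨x, hx⟩
    simpa using e1
  obtain ⟨y, b, hyb, hprop⟩ := distinguish q hq hq2
    (fun (y : E) (b : ι) => d.G y b / d.G d.y₀ b) (d.J \ B₀) (M₂ + 1) Y' hφ₀ (by
      intro y hy y' hy' hne
      by_contra hcon
      push Not at hcon
      have h1 : d.G y = d.G y' := by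
        funext z
        by_cases hzJ : z ∈ d.J
        · by_cases hzB : z ∈ B₀
          · exact (hY'eq y hy y' hy' z hzB).1
          · have e1 := hcon z (Finset.mem_sdiff.2 ⟨hzJ, hzB⟩)
            have e2 := d.hG0 z hzJ
            field_simp at e1
            exact e1
        · rw [d.hGJ y (hY'mem y hy).1 z hzJ, d.hGJ y' (hY'mem y' hy').1 z hzJ]
      have h2 := d.hG y (hY'mem y hy).1 y (d.hYS (hY'mem y hy).1)
      have h3 := d.hG y' (hY'mem y' hy').1 y (d.hYS (hY'mem y hy).1)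
      rw [← h1, h2, if_pos rfl, if_neg (Ne.symm hne)] at h3
      exact one_ne_zero h3)
  have hbJ : ∀ i < M₂ + 1, b i ∈ d.J ∧ b i ∉ B₀ := by
    intro i hi
    exact Finset.mem_sdiff.1 (hyb i hi).2
  have hbinj : ∀ i < M₂, ∀ j < M₂, b i = b j → i = j := by
    have key : ∀ i j, i < j → j < M₂ → b i ≠ b j := by
      intro i j hij hj h
      have e1 := (hprop i j (j + 1) hij (by omega) (by omega) (by omega)).1
      have e2 := (hprop j (j + 1) (j + 1) (by omega) (by omega) (by omega) (by omega)).2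
      simp only [h] at e1
      exact e2 e1
    intro i hi j hj h
    rcases lt_trichotomy i j with h1 | h1 | h1
    · exact absurd h (key i j h1 hj)
    · exact h1
    · exact absurd h.symm (key j i h1 hi)
  have hyinj : ∀ i < M₂ + 1, ∀ j < M₂ + 1, y i = y j → i = j := by
    have key : ∀ i j, i < j → j < M₂ + 1 → y i ≠ y j := by
      intro i j hij hj h
      have e1 := (hprop i j j hij hj hij hj).2
      simp only [h] at e1
      exact e1 rfl
    intro i hi j hj h
    rcases lt_trichotomy i j with h1 | h1 | h1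
    · exact absurd h (key i j h1 hj)
    · exact h1
    · exact absurd h.symm (key j i h1 hi)
  -- homogeneous pairs
  obtain ⟨H₂, hH₂, hH₂c, col₂, hcol₂⟩ := hM₂ (range M₂) (by rw [Finset.card_range])
    (fun f => (d.G (y (f 0)) (b (f 1)) / d.G d.y₀ (b (f 1)),
      d.σ (y (f 0)) (b (f 1)) / d.μ (b (f 1)),
      d.G (y (f 1)) (b (f 0)) / d.G d.y₀ (b (f 0)),
      d.σ (y (f 1)) (b (f 0)) / d.μ (b (f 0)),
      d.G (y (f 0)) (b (f 0)) / d.G d.y₀ (b (f 0)),
      d.σ (y (f 0)) (b (f 0)) / d.μ (b (f 0))))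
  -- homogeneous tuples
  set g₀ : ι → F := d.G (y 0) with hg₀
  obtain ⟨H₃, hH₃, hH₃c, col₃, hcol₃⟩ := hM₃ H₂ hH₂c
    (fun f => if h : ∃ col, Chord d B₀ g₀ b a f col then h.choose else (0, 0, 0, 0, 0, 0, 0, 0))
  obtain ⟨h, hhH, hhm⟩ := enum_finset H₃ L hH₃c
  have hhlt : ∀ i < L, h i < M₂ := by
    intro i hi
    have := hH₂ (hH₃ (hhH i hi))
    exact Finset.mem_range.1 this
  have hhinj : ∀ i < L, ∀ j < L, h i = h j → i = j := by
    intro i hi j hj hij
    rcases lt_trichotomy i j with h1 | h1 | h1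
    · exact absurd hij (ne_of_lt (hhm i j h1 hj))
    · exact h1
    · exact absurd hij.symm (ne_of_lt (hhm j i h1 hi))
  obtain ⟨u, u', v, v', t, t'⟩ := col₂
  have hpair : ∀ i j, i < j → j < L →
      d.G (y (h i)) (b (h j)) / d.G d.y₀ (b (h j)) = u ∧
      d.σ (y (h i)) (b (h j)) / d.μ (b (h j)) = u' ∧
      d.G (y (h j)) (b (h i)) / d.G d.y₀ (b (h i)) = v ∧
      d.σ (y (h j)) (b (h i)) / d.μ (b (h i)) = v' ∧
      d.G (y (h i)) (b (h i)) / d.G d.y₀ (b (h i)) = t ∧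
      d.σ (y (h i)) (b (h i)) / d.μ (b (h i)) = t' := by
    intro i j hij hj
    have hmono : StrictMono (![h i, h j] : Fin 2 → ℕ) := mono_pair (hhm i j hij hj)
    have e1 := hcol₂ ![h i, h j] hmono (by
      intro p
      fin_cases p
      · exact hH₃ (hhH i (by omega))
      · exact hH₃ (hhH j hj))
    simp only [Matrix.cons_val_zero, Matrix.cons_val_one, Prod.mk.injEq] at e1
    exact e1
  have htv : t ≠ v := by
    have e1 := (hprop (h 0) (h 1) (h 1) (hhm 0 1 (by omega) (by omega))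
      (by have := hhlt 1 (by omega); omega) (hhm 0 1 (by omega) (by omega))
      (by have := hhlt 1 (by omega); omega)).2
    have e2 := hpair 0 1 (by omega) (by omega)
    simp only [e2.2.2.2.2.1, e2.2.2.1] at e1
    exact e1
  have hyY : ∀ i < L, y (h i) ∈ d.Y ∧ y (h i) ≠ d.y₀ := by
    intro i hi
    have h1 := hhlt i hi
    exact hY'mem _ (hyb (h i) (by omega)).1
  have hbJ' : ∀ i < L, b (h i) ∈ d.J ∧ b (h i) ∉ B₀ := by
    intro i hi
    have h1 := hhlt i hi
    exact hbJ (h i) (by omega)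
  have huu : u = v ↔ u' = v' := by
    have e1 := hpair 0 1 (by omega) (by omega)
    have e2 := hpair 1 2 (by omega) (by omega)
    have e3 := d.htwo (y (h 1)) (hyY 1 (by omega)).1 (hyY 1 (by omega)).2 (b (h 0))
      (hbJ' 0 (by omega)).1 (b (h 2)) (hbJ' 2 (by omega)).1
    rw [e1.2.2.1, e2.1, e1.2.2.2.1, e2.2.1] at e3
    constructor
    · intro h1; exact (e3.1 h1.symm).symm
    · intro h1; exact (e3.2 h1.symm).symm
  by_cases huv : u = v
  · -- first pattern
    have huv' := huu.1 huv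
    obtain ⟨p, hpchar⟩ := CharP.exists F
    haveI := hpchar
    have hpp : p.Prime := (CharP.char_is_prime_or_zero F p).resolve_right (by
      intro h0
      subst h0
      haveI : CharZero F := CharP.charP_to_charZero F
      haveI : Infinite F := CharZero.infinite F
      exact not_finite F)
    have hpq : p ≤ q := by
      rw [← hq]
      have h1 : p ∣ Fintype.card F := by
        rw [← CharP.cast_eq_zero_iff F p, Nat.cast_card_eq_zero]
      exact Nat.le_of_dvd Fintype.card_pos h1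
    refine diag_case hemb₁ hemb₂ d hS hmin p (CharP.cast_eq_zero F p) hpp.pos
      (fun i => y (h i)) (fun i => b (h i)) (fun i hi => hyY i (by omega)) ?_
      (fun i hi => (hbJ' i (by omega)).1) v t v' t' htv ?_ ?_
    · intro i hi j hj hij
      have h1 := hhlt i (by omega)
      have h2 := hhlt j (by omega)
      exact hhinj i (by omega) j (by omega)
        (hyinj _ (by omega) _ (by omega) hij)
    · intro i hi j hj
      rcases lt_trichotomy i j with h1 | h1 | h1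
      · rw [if_neg (by omega), (hpair i j h1 (by omega)).1, huv]
      · subst h1
        rw [if_pos rfl, (hpair i (i + 1) (by omega) (by omega)).2.2.2.2.1]
      · rw [if_neg (by omega), (hpair j i h1 (by omega)).2.2.1]
    · intro i hi j hj
      rcases lt_trichotomy i j with h1 | h1 | h1
      · rw [if_neg (by omega), (hpair i j h1 (by omega)).2.1, huv']
      · subst h1
        rw [if_pos rfl, (hpair i (i + 1) (by omega) (by omega)).2.2.2.2.2]
      · rw [if_neg (by omega), (hpair j i h1 (by omega)).2.2.2.1]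
  · -- second pattern
    have huv' : u' ≠ v' := fun h1 => huv (huu.2 h1)
    set w := a + 2 with hw
    -- every increasing tuple inside `H₃` has the same chord data
    have hch : ∀ f : Fin (a + 1) → ℕ, StrictMono f → (∀ p, f p < L) →
        Chord d B₀ g₀ b a (fun p => h (f p)) col₃ := by
      intro f hf hfL
      have hmono : StrictMono (fun p => h (f p)) := by
        intro p p' hpp
        exact hhm _ _ (hf hpp) (hfL p')
      have hex : ∃ col, Chord d B₀ g₀ b a (fun p => h (f p)) col := by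
        apply chord_exists d B₀ g₀ b a _ hsupp hfree
        · intro p p' hpp
          have h1 := hbinj _ (hhlt _ (hfL p)) _ (hhlt _ (hfL p')) hpp
          exact hmono.injective h1
        · intro p
          exact hbJ' _ (hfL p)
      have e1 := hcol₃ (fun p => h (f p)) hmono (fun p => hhH _ (hfL p))
      rw [dif_pos hex] at e1
      rw [← e1]
      exact hex.choose_spec
    -- nonzero constants
    have hsome := hch (fun p => (p : ℕ)) (fun p p' hpp => hpp) (fun p => by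
      have := p.2; omega)
    obtain ⟨p₁, p₂, A₁, A₂, κ, A₁', A₂', κ'⟩ := col₃
    obtain ⟨hp12, hA₁, hA₂, hA₁', hA₂', _⟩ := hsome
    simp only at hp12 hA₁ hA₂ hA₁' hA₂'
    have hp₂ : (p₂ : ℕ) ≤ a := by have := p₂.2; omega
    have hp12' : (p₁ : ℕ) < (p₂ : ℕ) := hp12
    refine tri_case hemb₁ hemb₂ d hS hmin B₀ w (by omega)
      (fun i => y (h (2 * (w + i) + 1))) (fun j => b (h (2 * (w + j)))) ?_ ?_ ?_ ?_
      u v u' v' huv huv' ?_ ?_ g₀ (d.σ (y 0)) ?_ ?_ A₁ A₂ κ A₁' A₂' κ' hA₁ hA₂ hA₁' hA₂' ?_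
    · intro i hi
      exact hyY _ (by omega)
    · intro i hi j hj hij
      have h1 := hhlt (2 * (w + i) + 1) (by omega)
      have h2 := hhlt (2 * (w + j) + 1) (by omega)
      have h3 := hhinj (2 * (w + i) + 1) (by omega) (2 * (w + j) + 1) (by omega)
        (hyinj _ (by omega) _ (by omega) hij)
      omega
    · intro j hj
      exact hbJ' _ (by omega)
    · intro i hi j hj hij
      have h1 := hhlt (2 * (w + i)) (by omega)
      have h2 := hhlt (2 * (w + j)) (by omega)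
      have h3 := hhinj (2 * (w + i)) (by omega) (2 * (w + j)) (by omega)
        (hbinj _ h1 _ h2 hij)
      omega
    · intro i hi j hj
      by_cases h1 : i < j
      · rw [if_pos h1]
        exact (hpair (2 * (w + i) + 1) (2 * (w + j)) (by omega) (by omega)).1
      · rw [if_neg h1]
        exact (hpair (2 * (w + j)) (2 * (w + i) + 1) (by omega) (by omega)).2.2.1
    · intro i hi j hj
      by_cases h1 : i < j
      · rw [if_pos h1]
        exact (hpair (2 * (w + i) + 1) (2 * (w + j)) (by omega) (by omega)).2.1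
      · rw [if_neg h1]
        exact (hpair (2 * (w + j)) (2 * (w + i) + 1) (by omega) (by omega)).2.2.2.1
    · intro i hi x hx
      have h1 := hhlt (2 * (w + i) + 1) (by omega)
      exact (hY'eq _ (hyb _ (by omega)).1 _ (hyb 0 (by omega)).1 x hx).1
    · intro i hi x hx
      have h1 := hhlt (2 * (w + i) + 1) (by omega)
      exact (hY'eq _ (hyb _ (by omega)).1 _ (hyb 0 (by omega)).1 x hx).2
    · intro x z hxz
      -- `x < z`, both multiples of `w`
      have hx : x + w ≤ z ∧ z ≤ 4 * w := by omega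
      let f : Fin (a + 1) → ℕ := fun p =>
        if (p : ℕ) < p₂ then 2 * (w + x + p - p₁) else 2 * (w + z + p - p₂)
      have hf : StrictMono f := by
        intro p p' hpp
        have hpp' : (p : ℕ) < (p' : ℕ) := hpp
        simp only [f]
        split_ifs <;> omega
      have hfL : ∀ p, f p < L := by
        intro p
        have := p.2
        simp only [f]
        split_ifs <;> omega
      have hf1 : f p₁ = 2 * (w + x) := by
        simp only [f]
        rw [if_pos hp12']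
        omega
      have hf2 : f p₂ = 2 * (w + z) := by
        simp only [f]
        rw [if_neg (lt_irrefl _)]
        omega
      obtain ⟨_, _, _, _, _, e, he1, he2, he3, he4, he5, he6, he7⟩ := hch f hf hfL
      simp only [hf1, hf2] at he2 he3 he5 he6
      refine ⟨e, ?_, he2, he3, he4, he5, he6, he7⟩
      intro s hsB hs1 hs2
      by_cases hmidd : ∃ p : Fin (a + 1), p₁ ≤ p ∧ p ≤ p₂ ∧ s = b (h (f p))
      · obtain ⟨p, hp1, hp2, hsp⟩ := hmidd
        right
        have hne1 : p ≠ p₁ := by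
          rintro rfl; apply hs1; rw [hsp, hf1]
        have hne2 : p ≠ p₂ := by
          rintro rfl; apply hs2; rw [hsp, hf2]
        have hlt1 : (p₁ : ℕ) < (p : ℕ) := lt_of_le_of_ne hp1 (fun h1 => hne1 (Fin.ext h1.symm))
        have hlt2 : (p : ℕ) < (p₂ : ℕ) := lt_of_le_of_ne hp2 (fun h1 => hne2 (Fin.ext h1))
        refine ⟨x + p - p₁, by omega, by omega, ?_⟩
        rw [hsp]
        simp only [f]
        rw [if_pos hlt2]
        congr 2
        omega
      · left
        push Not at hmidd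
        exact he1 s hsB (fun p hp1 hp2 => hmidd p hp1 hp2)

/-- Smallest violations have bounded size. -/
theorem bounded_violation (q a k : ℕ) : ∃ c : ℕ, ∀ (F : Type) (_ : Field F) (_ : Fintype F),
    Fintype.card F = q → ∀ (ι E : Type) (_ : Fintype ι) (_ : DecidableEq ι) (_ : DecidableEq E)
    (D₁ D₂ : E → ι → F) (emb : ι → E) (B₀ : Finset ι), Function.Injective emb →
    (∀ i, D₁ (emb i) = Pi.single i 1) → (∀ i, D₂ (emb i) = Pi.single i 1) →
    B₀.card ≤ k → (∀ e z, D₁ e z = 0 ↔ D₂ e z = 0) →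
    (∀ A : Finset ι, A.card = a + 1 → Disjoint A B₀ →
      ∃ e, (∀ z, z ∉ A → z ∉ B₀ → D₁ e z = 0) ∧
        ∃ z ∈ A, ∃ z' ∈ A, z ≠ z' ∧ D₁ e z ≠ 0 ∧ D₁ e z' ≠ 0) →
    ∀ S : Finset E, S.card = Fintype.card ι → NS D₁ S → ¬ NS D₂ S → Agree D₁ D₂ emb S →
      (S \ Finset.univ.image emb).card ≤ c := by
  obtain ⟨M₃, hM₃⟩ := ramsey ((a + 1) * ((a + 1) * (q * (q * (q * (q * (q * q))))))) (a + 1)
    (q + 12 * (a + 2) + 8)
  obtain ⟨M₂, hM₂⟩ := ramsey (q * (q * (q * (q * (q * q))))) 2 M₃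
  refine ⟨q ^ (M₂ + 1) * (q * q) ^ k, ?_⟩
  intro F _ _ hq ι E _ _ _ D₁ D₂ emb B₀ hinj hemb₁ hemb₂ hB₀ hsupp hfree S hS hN₁ hN₂ hmin
  by_contra hcon
  push Not at hcon
  refine violation_absurd q a k _ M₃ M₂ hq (hM₃ (K3 F a) inferInstance ?_)
    (hM₂ (K2 F) inferInstance ?_) le_rfl hinj hemb₁ hemb₂ B₀ hB₀ hsupp hfree hS hN₁ hN₂ hmin hcon
  · simp [K3, Fintype.card_prod, hq]
  · simp [K2, Fintype.card_prod, hq]

end Pool.Agent.H.MP_9123af_lc
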