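import Mathlib

/-!
# A finite Ramsey theorem for increasing tuples and a lemma on distinct rows
-/

namespace Pool.Agent.H.MP_9123af_lc

open Finset

/-- Homogeneous sets for colourings of increasing `t`-tuples exist in every large set. -/
def RamseyAt (κ : Type) (t L M : ℕ) : Prop :=
  ∀ X : Finset ℕ, M ≤ X.card → ∀ c : (Fin t → ℕ) → κ, ∃ H ⊆ X, L ≤ H.card ∧
    ∃ k : κ, ∀ f : Fin t → ℕ, StrictMono f → (∀ i, f i ∈ H) → c f = k

theorem prehom (n t : ℕ)
    (ih : ∀ L, ∃ M, ∀ κ : Type, ∀ _ : Fintype κ, Fintype.card κ = n → RamseyAt κ t L M) (m : ℕ) :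
    ∃ M, ∀ κ : Type, ∀ _ : Fintype κ, Fintype.card κ = n →
      ∀ X : Finset ℕ, M ≤ X.card → ∀ c : (Fin (t + 1) → ℕ) → κ, ∃ P ⊆ X, P.card = m ∧
      ∃ k : ℕ → κ, ∀ f : Fin (t + 1) → ℕ, StrictMono f → (∀ i, f i ∈ P) → c f = k (f 0) := by
  induction m with
  | zero =>
    refine ⟨0, fun κ _ _ X _ c => ⟨∅, by simp, by simp, fun x => c (fun _ => x), ?_⟩⟩
    intro f _ hf
    exact absurd (hf 0) (by simp)
  | succ m ihm =>
    obtain ⟨M₁, hM₁⟩ := ihm
    obtain ⟨M₂, hM₂⟩ := ih M₁
    refine ⟨M₂ + 1, fun κ _ hκ X hX c => ?_⟩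
    have hne : X.Nonempty := by
      rw [← Finset.card_pos]; omega
    set x := X.min' hne with hx
    have hxX : x ∈ X := Finset.min'_mem _ _
    have hcard : M₂ ≤ (X.erase x).card := by
      rw [Finset.card_erase_of_mem hxX]; omega
    obtain ⟨H, hHX, hHc, kx, hkx⟩ :=
      hM₂ κ inferInstance hκ (X.erase x) hcard (fun g => c (Fin.cons x g))
    obtain ⟨P, hPH, hPc, k, hk⟩ := hM₁ κ inferInstance hκ H hHc c
    have hlt : ∀ z ∈ P, x < z := by
      intro z hz
      have h1 : z ∈ X.erase x := hHX (hPH hz)
      rw [Finset.mem_erase] at h1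
      exact lt_of_le_of_ne (Finset.min'_le _ _ h1.2) (Ne.symm h1.1)
    have hxP : x ∉ P := fun h => lt_irrefl _ (hlt x h)
    classical
    refine ⟨insert x P, ?_, ?_, fun z => if z = x then kx else k z, ?_⟩
    · intro z hz
      rw [Finset.mem_insert] at hz
      rcases hz with rfl | hz
      · exact hxX
      · exact Finset.mem_of_mem_erase (hHX (hPH hz))
    · rw [Finset.card_insert_of_notMem hxP, hPc]
    · intro f hf hfP
      by_cases h0 : f 0 = x
      · have htail : ∀ i : Fin t, f i.succ ∈ P := by
          intro i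
          have h1 := hfP i.succ
          rw [Finset.mem_insert] at h1
          rcases h1 with h1 | h1
          · exfalso
            have h2 : f 0 < f i.succ := hf (Fin.succ_pos i)
            omega
          · exact h1
        have hfe : f = Fin.cons x (fun i => f i.succ) := by
          funext i
          refine Fin.cases ?_ (fun j => ?_) i
          · simp [h0]
          · simp
        have h3 := hkx (fun i => f i.succ) (fun i j hij => hf (Fin.succ_lt_succ_iff.2 hij))
          (fun i => hPH (htail i))
        simp only [h0, if_true]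
        rw [← h3]
        exact congrArg c hfe
      · have hall : ∀ i, f i ∈ P := by
          intro i
          have h1 := hfP i
          rw [Finset.mem_insert] at h1
          rcases h1 with h1 | h1
          · exfalso
            have h00 := hfP 0
            rw [Finset.mem_insert] at h00
            have h01 : f 0 ∈ P := h00.resolve_left h0
            have h02 := hlt _ h01
            have h03 : f 0 ≤ f i := hf.monotone (Fin.zero_le i)
            omega
          · exact h1
        simp only [h0, if_false]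
        exact hk f hf hall

/-- The finite Ramsey theorem for increasing tuples, with a bound that depends only on the number
of colours. -/
theorem ramsey (n t : ℕ) :
    ∀ L, ∃ M, ∀ κ : Type, ∀ _ : Fintype κ, Fintype.card κ = n → RamseyAt κ t L M := by
  induction t with
  | zero =>
    intro L
    refine ⟨L, fun κ _ _ X hX c => ⟨X, subset_rfl, hX, c Fin.elim0, ?_⟩⟩
    intro f _ _
    exact congrArg c (Subsingleton.elim _ _)
  | succ t ih =>
    intro L
    obtain ⟨M, hM⟩ := prehom n t ih (n * L)
    refine ⟨M, fun κ _ hκ X hX c => ?_⟩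
    classical
    obtain ⟨P, hPX, hPc, k, hk⟩ := hM κ inferInstance hκ X hX c
    haveI : Nonempty κ := ⟨c (fun _ => 0)⟩
    obtain ⟨j, _, hj⟩ := Finset.exists_le_card_fiber_of_mul_le_card_of_maps_to
      (s := P) (t := (Finset.univ : Finset κ)) (f := k) (n := L)
      (fun _ _ => Finset.mem_univ _) Finset.univ_nonempty
      (by rw [Finset.card_univ, hκ, hPc])
    refine ⟨P.filter (fun z => k z = j), (Finset.filter_subset _ _).trans hPX, hj, j, ?_⟩
    intro f hf hfP
    have h1 : ∀ i, f i ∈ P := fun i => (Finset.mem_filter.1 (hfP i)).1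
    rw [hk f hf h1]
    exact (Finset.mem_filter.1 (hfP 0)).2

/-- Distinct rows over an alphabet with `q` letters contain a distinguishing sequence of rows and
columns. -/
theorem distinguish {α β γ : Type*} [Nonempty α] [Nonempty β] [Fintype γ] [DecidableEq γ]
    [DecidableEq α] (q : ℕ) (hq : Fintype.card γ = q) (hq2 : 2 ≤ q) (g : α → β → γ)
    (J : Finset β) (N : ℕ) :
    ∀ Y : Finset α, q ^ N ≤ Y.card →
      (∀ y ∈ Y, ∀ y' ∈ Y, y ≠ y' → ∃ b ∈ J, g y b ≠ g y' b) →
      ∃ (y : ℕ → α) (b : ℕ → β), (∀ i < N, y i ∈ Y ∧ b i ∈ J) ∧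
        ∀ i j j', i < j → j < N → i < j' → j' < N →
          g (y j) (b i) = g (y j') (b i) ∧ g (y i) (b i) ≠ g (y j) (b i) := by
  induction N with
  | zero =>
    intro Y _ _
    refine ⟨fun _ => Classical.arbitrary α, fun _ => Classical.arbitrary β, ?_, ?_⟩
    · intro i hi; omega
    · intro i j j' _ hj; omega
  | succ N ih =>
    intro Y hY hdis
    have hqN : 0 < q ^ N := Nat.pow_pos (by omega)
    have h2 : 1 < Y.card := by
      have : q ^ (N + 1) = q ^ N * q := pow_succ _ _
      nlinarith
    obtain ⟨y₁, hy₁, y₂, hy₂, hne⟩ := Finset.one_lt_card.1 h2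
    obtain ⟨b₁, hb₁, hb₁'⟩ := hdis y₁ hy₁ y₂ hy₂ hne
    haveI : Nonempty γ := ⟨g y₁ b₁⟩
    obtain ⟨v, _, hv⟩ := Finset.exists_le_card_fiber_of_mul_le_card_of_maps_to
      (s := Y) (t := (Finset.univ : Finset γ)) (f := fun y => g y b₁) (n := q ^ N)
      (fun _ _ => Finset.mem_univ _) Finset.univ_nonempty
      (by rw [Finset.card_univ, hq]; rw [pow_succ] at hY; nlinarith)
    obtain ⟨y₀, hy₀, hy₀v⟩ : ∃ y₀ ∈ Y, g y₀ b₁ ≠ v := by
      by_contra hcon
      push Not at hcon
      exact hb₁' ((hcon y₁ hy₁).trans (hcon y₂ hy₂).symm)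
    obtain ⟨y, b, hyb, hprop⟩ := ih (Y.filter (fun y => g y b₁ = v)) hv
      (fun z hz z' hz' => hdis z (Finset.mem_filter.1 hz).1 z' (Finset.mem_filter.1 hz').1)
    refine ⟨fun i => Nat.casesOn i y₀ y, fun i => Nat.casesOn i b₁ b, ?_, ?_⟩
    · intro i hi
      cases i with
      | zero => exact ⟨hy₀, hb₁⟩
      | succ i => exact ⟨(Finset.mem_filter.1 (hyb i (by omega)).1).1, (hyb i (by omega)).2⟩
    · intro i j j' hij hj hij' hj'
      cases j with
      | zero => omega
      | succ j =>
        cases j' with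
        | zero => omega
        | succ j' =>
          cases i with
          | zero =>
            have h3 := (Finset.mem_filter.1 (hyb j (by omega)).1).2
            have h4 := (Finset.mem_filter.1 (hyb j' (by omega)).1).2
            refine ⟨?_, ?_⟩
            · change g (y j) b₁ = g (y j') b₁
              rw [h3, h4]
            · change g y₀ b₁ ≠ g (y j) b₁
              rw [h3]; exact hy₀v
          | succ i => exact hprop i j j' (by omega) (by omega) (by omega) (by omega)

/-- Increasing enumeration of a large finite set of natural numbers. -/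
theorem enum_finset (H : Finset ℕ) (L : ℕ) (hL : L ≤ H.card) :
    ∃ h : ℕ → ℕ, (∀ i < L, h i ∈ H) ∧ ∀ i j, i < j → j < L → h i < h j := by
  classical
  let e := H.orderEmbOfFin rfl
  refine ⟨fun i => if hi : i < H.card then e ⟨i, hi⟩ else 0, ?_, ?_⟩
  · intro i hi
    have h1 : i < H.card := by omega
    simp only [h1, dif_pos]
    exact Finset.orderEmbOfFin_mem _ _ _
  · intro i j hij hj
    have h1 : i < H.card := by omega
    have h2 : j < H.card := by omega
    simp only [h1, h2, dif_pos]
    exact e.strictMono hij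

end Pool.Agent.H.MP_9123af_lc
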