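import Pool.Agent.H.MP_9123af_lc.Main

/-!
# Large smallest violations contain a whirl in one and a wheel in the other matroid
-/

namespace Pool.Agent.H.MP_9123af_lc

open Finset

/-- The algebra of the second pattern: functionals on the first system. -/
theorem ring_case {F : Type*} [Field F] {ι E : Type*} [Fintype ι] [DecidableEq ι]
    [DecidableEq E] {D₁ D₂ : E → ι → F} {emb : ι → E} (hinj : Function.Injective emb)
    (hemb₁ : ∀ i, D₁ (emb i) = Pi.single i 1)
    {S : Finset E} (d : Data D₁ D₂ emb S) (N : ℕ) (hN : 1 ≤ N)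
    (R : ℕ → E) (V : ℕ → ι) (hR : ∀ i ≤ N, R i ∈ d.Y)
    (hRinj : ∀ i ≤ N, ∀ j ≤ N, R i = R j → i = j) (hV : ∀ j ≤ N, V j ∈ d.J)
    (hVinj : ∀ i ≤ N, ∀ j ≤ N, V i = V j → i = j)
    (u v : F) (huv : u ≠ v) (hu : u ≠ 0) (hv : v ≠ 0)
    (hg : ∀ i ≤ N, ∀ j ≤ N, d.G (R i) (V j) / d.G d.y₀ (V j) = if i < j then u else v) :
    NS D₁ ((S \ (range (N + 1)).image R) ∪ (range (N + 1)).image (fun j => emb (V j))) ∧
    ∀ i ≤ N, ∀ j ≤ N, (NS D₁ (insert (R i)
      (((S \ (range (N + 1)).image R) ∪ (range (N + 1)).image (fun j => emb (V j))).erase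
        (emb (V j)))) ↔ (j = i ∨ j = i + 1 ∨ (i = N ∧ j = 0))) := by
  classical
  set Y₀ : Finset E := (range (N + 1)).image R with hY₀
  set C : Finset E := S \ Y₀ with hC
  set T₀ : Finset E := C ∪ (range (N + 1)).image (fun j => emb (V j)) with hT₀
  have hg' : ∀ i ≤ N, ∀ j ≤ N, d.G (R i) (V j) = d.G d.y₀ (V j) * (if i < j then u else v) := by
    intro i hi j hj
    rw [← hg i hi j hj, mul_div_cancel₀ _ (d.hG0 _ (hV j hj))]
  have hinjOn : Set.InjOn R (range (N + 1) : Finset ℕ) := by
    intro i hi j hj hij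
    simp only [Finset.coe_range, Set.mem_Iio, Nat.lt_succ_iff] at hi hj
    exact hRinj i hi j hj hij
  have hRS : ∀ i ≤ N, R i ∈ S := fun i hi => d.hYS (hR i hi)
  have hYY : Y₀ ⊆ d.Y := by
    intro z hz
    rw [hY₀, Finset.mem_image] at hz
    obtain ⟨i, hi, rfl⟩ := hz
    exact hR i (by rw [Finset.mem_range] at hi; omega)
  have hVS : ∀ j ≤ N, emb (V j) ∉ S := fun j hj => (d.hJ _).1 (hV j hj)
  -- functionals that vanish on `C`
  have hrep : ∀ ψ : ι → F, (∀ e ∈ C, ψ ⬝ᵥ D₁ e = 0) →
      ψ = ∑ i ∈ range (N + 1), (ψ ⬝ᵥ D₁ (R i)) • d.G (R i) := by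
    intro ψ hψ
    have e2 := d.hG2 ψ (fun s hs hsY => hψ s (Finset.mem_sdiff.2 ⟨hs, fun h => hsY (hYY h)⟩))
    conv_lhs => rw [e2]
    rw [← Finset.sum_image (s := range (N + 1)) (g := R)
      (f := fun s => (ψ ⬝ᵥ D₁ s) • d.G s) hinjOn]
    symm
    apply Finset.sum_subset hYY
    intro z hz hz'
    rw [hψ z (Finset.mem_sdiff.2 ⟨d.hYS hz, hz'⟩), zero_smul]
  have hval : ∀ (a : ℕ → F), ∀ j ≤ N, (∑ i ∈ range (N + 1), a i • d.G (R i)) (V j) =
      d.G d.y₀ (V j) * ∑ i ∈ range (N + 1), a i * (if i < j then u else v) := by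
    intro a j hj
    rw [Finset.sum_apply, Finset.mul_sum]
    apply Finset.sum_congr rfl
    intro i hi
    rw [Finset.mem_range] at hi
    rw [Pi.smul_apply, smul_eq_mul, hg' i (by omega) j hj]
    ring
  have hdiff : ∀ (a : ℕ → F), ∀ j < N,
      (∑ i ∈ range (N + 1), a i * (if i < j + 1 then u else v)) -
      (∑ i ∈ range (N + 1), a i * (if i < j then u else v)) = (u - v) * a j := by
    intro a j hj
    rw [← Finset.sum_sub_distrib, Finset.sum_eq_single j]
    · rw [if_pos (Nat.lt_succ_self j), if_neg (lt_irrefl j)]; ring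
    · intro k _ hkj
      by_cases h : k < j
      · rw [if_pos h, if_pos (by omega)]; ring
      · rw [if_neg h, if_neg (by omega)]; ring
    · intro h; exact absurd (Finset.mem_range.2 (by omega)) h
  have hwrap : ∀ (a : ℕ → F),
      u * (∑ i ∈ range (N + 1), a i * (if i < 0 then u else v)) -
      v * (∑ i ∈ range (N + 1), a i * (if i < N then u else v)) = v * (u - v) * a N := by
    intro a
    rw [Finset.mul_sum, Finset.mul_sum, ← Finset.sum_sub_distrib, Finset.sum_eq_single N]
    · rw [if_neg (Nat.not_lt_zero N), if_neg (lt_irrefl N)]; ring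
    · intro k hk hkN
      rw [Finset.mem_range] at hk
      rw [if_neg (Nat.not_lt_zero k), if_pos (by omega)]; ring
    · intro h; exact absurd (Finset.mem_range.2 (by omega)) h
  -- a functional on `C` that vanishes at all the `V j` is zero
  have hzero : ∀ ψ : ι → F, (∀ e ∈ C, ψ ⬝ᵥ D₁ e = 0) → (∀ j ≤ N, ψ (V j) = 0) → ψ = 0 := by
    intro ψ hψ hψV
    set a : ℕ → F := fun i => ψ ⬝ᵥ D₁ (R i) with ha
    have e1 := hrep ψ hψ
    have e2 : ∀ j ≤ N, ∑ i ∈ range (N + 1), a i * (if i < j then u else v) = 0 := by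
      intro j hj
      have e3 := hval a j hj
      rw [← e1, hψV j hj] at e3
      exact (mul_eq_zero.1 e3.symm).resolve_left (d.hG0 _ (hV j hj))
    have e4 : ∀ i ≤ N, a i = 0 := by
      intro i hi
      rcases Nat.lt_or_ge i N with h | h
      · have e5 := hdiff a i h
        rw [e2 (i + 1) (by omega), e2 i hi, sub_zero] at e5
        exact (mul_eq_zero.1 e5.symm).resolve_left (sub_ne_zero.2 huv)
      · have hiN : i = N := by omega
        have e5 := hwrap a
        rw [e2 0 (by omega), e2 N le_rfl, mul_zero, mul_zero, sub_zero] at e5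
        rw [hiN]
        exact (mul_eq_zero.1 e5.symm).resolve_left (mul_ne_zero hv (sub_ne_zero.2 huv))
    rw [e1]
    apply Finset.sum_eq_zero
    intro i hi
    rw [Finset.mem_range] at hi
    have := e4 i (by omega)
    rw [ha] at this
    simp only at this
    rw [this, zero_smul]
  constructor
  · intro ψ hψ
    apply hzero ψ
    · intro e he; exact hψ e (Finset.mem_union_left _ he)
    · intro j hj
      have e1 := hψ (emb (V j)) (Finset.mem_union_right _ (Finset.mem_image.2
        ⟨j, Finset.mem_range.2 (by omega), rfl⟩))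
      rwa [hemb₁, dotProduct_single, mul_one] at e1
  · intro i hi j hj
    have hCT : ∀ e ∈ C, e ∈ insert (R i) (T₀.erase (emb (V j))) := by
      intro e he
      refine Finset.mem_insert_of_mem (Finset.mem_erase.2 ⟨?_, Finset.mem_union_left _ he⟩)
      rintro rfl
      exact hVS j hj (Finset.mem_sdiff.1 he).1
    have hVT : ∀ s ≤ N, s ≠ j → emb (V s) ∈ insert (R i) (T₀.erase (emb (V j))) := by
      intro s hs hsj
      refine Finset.mem_insert_of_mem (Finset.mem_erase.2 ⟨?_, Finset.mem_union_right _
        (Finset.mem_image.2 ⟨s, Finset.mem_range.2 (by omega), rfl⟩)⟩)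
      intro h
      exact hsj (hVinj s hs j hj (hinj h))
    constructor
    · intro hNS
      by_contra hcon
      push Not at hcon
      obtain ⟨hc1, hc2, hc3⟩ := hcon
      -- the functional with value one at `V j` only
      set Ψ : ℕ → F := fun s => if s = j then 1 else if s = N + 1 ∧ j = 0 then u / v else 0
        with hΨ
      set a : ℕ → F := fun s => (Ψ (s + 1) - Ψ s) / (u - v) with ha
      have hΨN : Ψ (N + 1) = (u / v) * Ψ 0 := by
        rw [hΨ]; beta_reduce
        by_cases hj0 : j = 0
        · rw [if_neg (by omega), if_pos ⟨rfl, hj0⟩, if_pos hj0.symm, mul_one]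
        · rw [if_neg (by omega), if_neg (by omega), if_neg (by omega), if_neg (by omega),
            mul_zero]
      have hasum : ∀ s ≤ N, ∑ k ∈ range (N + 1), a k * (if k < s then u else v) = Ψ s := by
        intro s hs
        have e1 : ∀ k ∈ range (N + 1), a k * (if k < s then u else v) =
            a k * v + (if k < s then (Ψ (k + 1) - Ψ k) else 0) := by
          intro k _
          have hd := sub_ne_zero.2 huv
          split_ifs
          · rw [ha]; field_simp; ring
          · ring
        rw [Finset.sum_congr rfl e1, Finset.sum_add_distrib, ← Finset.sum_mul]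
        have e2 : ∑ k ∈ range (N + 1), a k = (Ψ (N + 1) - Ψ 0) / (u - v) := by
          rw [ha]; beta_reduce
          rw [← Finset.sum_div, Finset.sum_range_sub]
        have e3 : ∑ k ∈ range (N + 1), (if k < s then (Ψ (k + 1) - Ψ k) else 0) =
            ∑ k ∈ range s, (Ψ (k + 1) - Ψ k) := by
          rw [← Finset.sum_filter]
          apply Finset.sum_congr
          · ext k
            rw [Finset.mem_filter, Finset.mem_range, Finset.mem_range]
            omega
          · intro k _; rfl
        rw [e2, e3, Finset.sum_range_sub, hΨN]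
        have hd := sub_ne_zero.2 huv
        field_simp
        ring
      set ψ : ι → F := ∑ k ∈ range (N + 1), a k • d.G (R k) with hψ
      have hψV : ∀ s ≤ N, ψ (V s) = d.G d.y₀ (V s) * Ψ s := by
        intro s hs
        rw [hψ, hval a s hs, hasum s hs]
      have hψR : ∀ k ≤ N, ψ ⬝ᵥ D₁ (R k) = a k := by
        intro k hk
        rw [hψ, sum_dotProduct, Finset.sum_eq_single k]
        · rw [smul_dotProduct, d.hG _ (hR k hk) _ (hRS k hk), if_pos rfl, smul_eq_mul, mul_one]
        · intro l hl hlk
          rw [Finset.mem_range] at hl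
          rw [smul_dotProduct, d.hG _ (hR l (by omega)) _ (hRS k hk), if_neg, smul_zero]
          intro h
          exact hlk (hRinj l (by omega) k hk h)
        · intro h; exact absurd (Finset.mem_range.2 (by omega)) h
      have hψ0 : ψ = 0 := by
        apply hNS
        intro e he
        rw [Finset.mem_insert, Finset.mem_erase, hT₀, Finset.mem_union, Finset.mem_image] at he
        rcases he with rfl | ⟨hne, he | ⟨s, hs, rfl⟩⟩
        · rw [hψR i hi, ha]
          have h1 : Ψ (i + 1) = 0 := by
            rw [hΨ]; beta_reduce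
            rw [if_neg (by omega), if_neg (by rintro ⟨h2, h3⟩; exact hc3 (by omega) h3)]
          have h2 : Ψ i = 0 := by
            rw [hΨ]; beta_reduce
            rw [if_neg (by omega), if_neg (by omega)]
          beta_reduce
          rw [h1, h2, sub_zero, zero_div]
        · rw [hψ, sum_dotProduct]
          apply Finset.sum_eq_zero
          intro k hk
          rw [Finset.mem_range] at hk
          rw [hC, Finset.mem_sdiff] at he
          rw [smul_dotProduct, d.hG _ (hR k (by omega)) _ he.1, if_neg, smul_zero]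
          intro h
          exact he.2 (Finset.mem_image.2 ⟨k, Finset.mem_range.2 hk, h⟩)
        · rw [Finset.mem_range] at hs
          have hsj : s ≠ j := fun h => hne (by rw [h])
          rw [hemb₁, dotProduct_single, mul_one, hψV s (by omega), hΨ]
          beta_reduce
          rw [if_neg hsj, if_neg (by omega), mul_zero]
      have h3 := hψV j hj
      rw [hψ0, hΨ] at h3
      simp only [Pi.zero_apply, if_true, mul_one] at h3
      exact d.hG0 _ (hV j hj) h3.symm
    · intro hcases ψ hψ
      have hψC : ∀ e ∈ C, ψ ⬝ᵥ D₁ e = 0 := fun e he => hψ e (hCT e he)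
      apply hzero ψ hψC
      set a : ℕ → F := fun i => ψ ⬝ᵥ D₁ (R i) with ha
      have hai : a i = 0 := hψ (R i) (Finset.mem_insert_self _ _)
      have e1 := hrep ψ hψC
      have hψV : ∀ s ≤ N, s ≠ j → ψ (V s) = 0 := by
        intro s hs hsj
        have e2 := hψ _ (hVT s hs hsj)
        rwa [hemb₁, dotProduct_single, mul_one] at e2
      have e3 : ∀ s ≤ N, ψ (V s) =
          d.G d.y₀ (V s) * ∑ k ∈ range (N + 1), a k * (if k < s then u else v) := by
        intro s hs
        have := hval a s hs
        rwa [← e1] at this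
      have e4 : ∀ s ≤ N, s ≠ j → ∑ k ∈ range (N + 1), a k * (if k < s then u else v) = 0 := by
        intro s hs hsj
        have e5 := e3 s hs
        rw [hψV s hs hsj] at e5
        exact (mul_eq_zero.1 e5.symm).resolve_left (d.hG0 _ (hV s hs))
      have e6 : ∑ k ∈ range (N + 1), a k * (if k < j then u else v) = 0 := by
        rcases Nat.lt_or_ge i N with hiN | hiN
        · have e7 := hdiff a i hiN
          rw [hai, mul_zero] at e7
          rcases hcases with h | h | h
          · subst h
            rw [e4 (j + 1) (by omega) (by omega)] at e7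
            linear_combination -e7
          · subst h
            rw [e4 i hi (by omega)] at e7
            linear_combination e7
          · omega
        · have hiN' : i = N := by omega
          have e7 := hwrap a
          rw [hiN'] at hai
          rw [hai, mul_zero] at e7
          rcases hcases with h | h | h
          · have hjN : j = N := by omega
            rw [e4 0 (by omega) (by omega), mul_zero, zero_sub, neg_eq_zero] at e7
            rw [hjN]
            exact (mul_eq_zero.1 e7).resolve_left hv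
          · omega
          · have hj0 : j = 0 := h.2
            rw [e4 N le_rfl (by omega), mul_zero, sub_zero] at e7
            rw [hj0]
            exact (mul_eq_zero.1 e7).resolve_left hu
      intro s hs
      by_cases hsj : s = j
      · rw [hsj, e3 j hj, e6, mul_zero]
      · exact hψV s hs hsj

variable {F : Type} [Field F] [Fintype F] {ι E : Type} [Fintype ι] [DecidableEq ι]
  [DecidableEq E]

/-- A large smallest violation contains the ring pattern. -/
theorem ring_of_violation (q N M₂ : ℕ) (hN : 1 ≤ N) (hq : Fintype.card F = q)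
    (hM₂ : RamseyAt (K2 F) 2 (q + 2 * N + 10) M₂)
    {D₁ D₂ : E → ι → F} {emb : ι → E} (hinj : Function.Injective emb)
    (hemb₁ : ∀ i, D₁ (emb i) = Pi.single i 1) (hemb₂ : ∀ i, D₂ (emb i) = Pi.single i 1)
    {S : Finset E} (hS : S.card = Fintype.card ι) (hN₁ : NS D₁ S) (hN₂ : ¬ NS D₂ S)
    (hmin : Agree D₁ D₂ emb S)
    (hbig : q ^ (M₂ + 1) < (S \ Finset.univ.image emb).card) :
    ∃ (R : ℕ → E) (V : ℕ → ι), (∀ i ≤ N, R i ∈ S ∧ ∀ t, emb t ≠ R i) ∧
      (∀ i ≤ N, ∀ j ≤ N, R i = R j → i = j) ∧ (∀ j ≤ N, emb (V j) ∉ S) ∧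
      (∀ i ≤ N, ∀ j ≤ N, V i = V j → i = j) ∧
      NS D₁ ((S \ (range (N + 1)).image R) ∪ (range (N + 1)).image (fun j => emb (V j))) ∧
      ∀ i ≤ N, ∀ j ≤ N, (NS D₁ (insert (R i)
        (((S \ (range (N + 1)).image R) ∪ (range (N + 1)).image (fun j => emb (V j))).erase
        (emb (V j)))) ↔ (j = i ∨ j = i + 1 ∨ (i = N ∧ j = 0))) := by
  classical
  obtain ⟨d⟩ := exists_data hinj hemb₁ hemb₂ hS hN₁ hN₂ hmin
  have hq2 : 2 ≤ q := by rw [← hq]; exact Fintype.one_lt_card
  have hYeq : S \ Finset.univ.image emb = d.Y := by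
    ext e
    rw [Finset.mem_sdiff, d.hY]
    simp
  rw [hYeq] at hbig
  haveI : Nonempty E := ⟨d.y₀⟩
  haveI : Nonempty ι := by
    rw [← Fintype.card_pos_iff, ← hS, Finset.card_pos]
    exact ⟨d.y₀, d.hYS d.hy₀⟩
  obtain ⟨y, b, hyb, hprop⟩ := distinguish q hq hq2
    (fun (y : E) (b : ι) => d.G y b / d.G d.y₀ b) d.J (M₂ + 1) (d.Y.erase d.y₀)
    (by rw [Finset.card_erase_of_mem d.hy₀]; omega) (by
      intro y hy y' hy' hne
      rw [Finset.mem_erase] at hy hy'
      by_contra hcon
      push Not at hcon
      have h1 : d.G y = d.G y' := by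
        funext z
        by_cases hzJ : z ∈ d.J
        · have e1 := hcon z hzJ
          have e2 := d.hG0 z hzJ
          field_simp at e1
          exact e1
        · rw [d.hGJ y hy.2 z hzJ, d.hGJ y' hy'.2 z hzJ]
      have h2 := d.hG y hy.2 y (d.hYS hy.2)
      have h3 := d.hG y' hy'.2 y (d.hYS hy.2)
      rw [← h1, h2, if_pos rfl, if_neg (Ne.symm hne)] at h3
      exact one_ne_zero h3)
  have hbJ : ∀ i < M₂ + 1, b i ∈ d.J := fun i hi => (hyb i hi).2
  have hyY' : ∀ i < M₂ + 1, y i ∈ d.Y ∧ y i ≠ d.y₀ := by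
    intro i hi
    have := (hyb i hi).1
    rw [Finset.mem_erase] at this
    exact ⟨this.2, this.1⟩
  have hbinj : ∀ i < M₂, ∀ j < M₂, b i = b j → i = j := by
    have key : ∀ i j, i < j → j < M₂ → b i ≠ b j := by
      intro i j hij hj h
      have e1 := (hprop i j (j + 1) hij (by omega) (by omega) (by omega)).1
      have e2 := (hprop j (j + 1) (j + 1) (by omega) (by omega) (by omega) (by omega)).2
      simp only [h] at e1
      exact e2 e1
    intro i hi j hj h
    rcases lt_trichotomy i j with h1 | h1 | h1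
    · exact absurd h (key i j h1 hj)
    · exact h1
    · exact absurd h.symm (key j i h1 hi)
  have hyinj : ∀ i < M₂ + 1, ∀ j < M₂ + 1, y i = y j → i = j := by
    have key : ∀ i j, i < j → j < M₂ + 1 → y i ≠ y j := by
      intro i j hij hj h
      have e1 := (hprop i j j hij hj hij hj).2
      simp only [h] at e1
      exact e1 rfl
    intro i hi j hj h
    rcases lt_trichotomy i j with h1 | h1 | h1
    · exact absurd h (key i j h1 hj)
    · exact h1
    · exact absurd h.symm (key j i h1 hi)
  set L := q + 2 * N + 10 with hL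
  obtain ⟨H₂, hH₂, hH₂c, col₂, hcol₂⟩ := hM₂ (range M₂) (by rw [Finset.card_range])
    (fun f => (d.G (y (f 0)) (b (f 1)) / d.G d.y₀ (b (f 1)),
      d.σ (y (f 0)) (b (f 1)) / d.μ (b (f 1)),
      d.G (y (f 1)) (b (f 0)) / d.G d.y₀ (b (f 0)),
      d.σ (y (f 1)) (b (f 0)) / d.μ (b (f 0)),
      d.G (y (f 0)) (b (f 0)) / d.G d.y₀ (b (f 0)),
      d.σ (y (f 0)) (b (f 0)) / d.μ (b (f 0))))
  obtain ⟨h, hhH, hhm⟩ := enum_finset H₂ L hH₂c
  have hhlt : ∀ i < L, h i < M₂ := fun i hi => Finset.mem_range.1 (hH₂ (hhH i hi))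
  have hhinj : ∀ i < L, ∀ j < L, h i = h j → i = j := by
    intro i hi j hj hij
    rcases lt_trichotomy i j with h1 | h1 | h1
    · exact absurd hij (ne_of_lt (hhm i j h1 hj))
    · exact h1
    · exact absurd hij.symm (ne_of_lt (hhm j i h1 hi))
  obtain ⟨u, u', v, v', t, t'⟩ := col₂
  have hpair : ∀ i j, i < j → j < L →
      d.G (y (h i)) (b (h j)) / d.G d.y₀ (b (h j)) = u ∧
      d.σ (y (h i)) (b (h j)) / d.μ (b (h j)) = u' ∧
      d.G (y (h j)) (b (h i)) / d.G d.y₀ (b (h i)) = v ∧
      d.σ (y (h j)) (b (h i)) / d.μ (b (h i)) = v' ∧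
      d.G (y (h i)) (b (h i)) / d.G d.y₀ (b (h i)) = t ∧
      d.σ (y (h i)) (b (h i)) / d.μ (b (h i)) = t' := by
    intro i j hij hj
    have hmono : StrictMono (![h i, h j] : Fin 2 → ℕ) := mono_pair (hhm i j hij hj)
    have e1 := hcol₂ ![h i, h j] hmono (by
      intro p
      fin_cases p
      · exact hhH i (by omega)
      · exact hhH j hj)
    simp only [Matrix.cons_val_zero, Matrix.cons_val_one, Prod.mk.injEq] at e1
    exact e1
  have htv : t ≠ v := by
    have e1 := (hprop (h 0) (h 1) (h 1) (hhm 0 1 (by omega) (by omega))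
      (by have := hhlt 1 (by omega); omega) (hhm 0 1 (by omega) (by omega))
      (by have := hhlt 1 (by omega); omega)).2
    have e2 := hpair 0 1 (by omega) (by omega)
    simp only [e2.2.2.2.2.1, e2.2.2.1] at e1
    exact e1
  have hyY : ∀ i < L, y (h i) ∈ d.Y ∧ y (h i) ≠ d.y₀ := by
    intro i hi
    have h1 := hhlt i hi
    exact hyY' (h i) (by omega)
  have hbJ' : ∀ i < L, b (h i) ∈ d.J := by
    intro i hi
    have h1 := hhlt i hi
    exact hbJ (h i) (by omega)
  have huu : u = v ↔ u' = v' := by
    have e1 := hpair 0 1 (by omega) (by omega)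
    have e2 := hpair 1 2 (by omega) (by omega)
    have e3 := d.htwo (y (h 1)) (hyY 1 (by omega)).1 (hyY 1 (by omega)).2 (b (h 0))
      (hbJ' 0 (by omega)) (b (h 2)) (hbJ' 2 (by omega))
    rw [e1.2.2.1, e2.1, e1.2.2.2.1, e2.2.1] at e3
    constructor
    · intro h1; exact (e3.1 h1.symm).symm
    · intro h1; exact (e3.2 h1.symm).symm
  by_cases huv : u = v
  · exfalso
    have huv' := huu.1 huv
    obtain ⟨p, hpchar⟩ := CharP.exists F
    haveI := hpchar
    have hpp : p.Prime := (CharP.char_is_prime_or_zero F p).resolve_right (by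
      intro h0
      subst h0
      haveI : CharZero F := CharP.charP_to_charZero F
      haveI : Infinite F := CharZero.infinite F
      exact not_finite F)
    have hpq : p ≤ q := by
      rw [← hq]
      have h1 : p ∣ Fintype.card F := by
        rw [← CharP.cast_eq_zero_iff F p, Nat.cast_card_eq_zero]
      exact Nat.le_of_dvd Fintype.card_pos h1
    refine diag_case hemb₁ hemb₂ d hS hmin p (CharP.cast_eq_zero F p) hpp.pos
      (fun i => y (h i)) (fun i => b (h i)) (fun i hi => hyY i (by omega)) ?_
      (fun i hi => hbJ' i (by omega)) v t v' t' htv ?_ ?_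
    · intro i hi j hj hij
      have h1 := hhlt i (by omega)
      have h2 := hhlt j (by omega)
      exact hhinj i (by omega) j (by omega)
        (hyinj _ (by omega) _ (by omega) hij)
    · intro i hi j hj
      rcases lt_trichotomy i j with h1 | h1 | h1
      · rw [if_neg (by omega), (hpair i j h1 (by omega)).1, huv]
      · subst h1
        rw [if_pos rfl, (hpair i (i + 1) (by omega) (by omega)).2.2.2.2.1]
      · rw [if_neg (by omega), (hpair j i h1 (by omega)).2.2.1]
    · intro i hi j hj
      rcases lt_trichotomy i j with h1 | h1 | h1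
      · rw [if_neg (by omega), (hpair i j h1 (by omega)).2.1, huv']
      · subst h1
        rw [if_pos rfl, (hpair i (i + 1) (by omega) (by omega)).2.2.2.2.2]
      · rw [if_neg (by omega), (hpair j i h1 (by omega)).2.2.2.1]
  · have hu : u ≠ 0 := by
      rw [← (hpair 0 1 (by omega) (by omega)).1]
      exact div_ne_zero (d.hGall _ (hyY 0 (by omega)).1 _ (hbJ' 1 (by omega)))
        (d.hG0 _ (hbJ' 1 (by omega)))
    have hv : v ≠ 0 := by
      rw [← (hpair 0 1 (by omega) (by omega)).2.2.1]
      exact div_ne_zero (d.hGall _ (hyY 1 (by omega)).1 _ (hbJ' 0 (by omega)))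
        (d.hG0 _ (hbJ' 0 (by omega)))
    have hRi : ∀ i ≤ N, ∀ j ≤ N, y (h (2 * i + 1)) = y (h (2 * j + 1)) → i = j := by
      intro i hi j hj hij
      have h1 := hhlt (2 * i + 1) (by omega)
      have h2 := hhlt (2 * j + 1) (by omega)
      have h3 := hhinj (2 * i + 1) (by omega) (2 * j + 1) (by omega)
        (hyinj _ (by omega) _ (by omega) hij)
      omega
    have hVi : ∀ i ≤ N, ∀ j ≤ N, b (h (2 * i)) = b (h (2 * j)) → i = j := by
      intro i hi j hj hij
      have h1 := hhlt (2 * i) (by omega)
      have h2 := hhlt (2 * j) (by omega)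
      have h3 := hhinj (2 * i) (by omega) (2 * j) (by omega) (hbinj _ h1 _ h2 hij)
      omega
    have key := ring_case hinj hemb₁ d N hN (fun i => y (h (2 * i + 1)))
      (fun j => b (h (2 * j))) (fun i hi => (hyY _ (by omega)).1) hRi
      (fun j hj => hbJ' _ (by omega)) hVi u v huv hu hv (by
        intro i hi j hj
        by_cases h1 : i < j
        · rw [if_pos h1]
          exact (hpair (2 * i + 1) (2 * j) (by omega) (by omega)).1
        · rw [if_neg h1]
          exact (hpair (2 * j) (2 * i + 1) (by omega) (by omega)).2.2.1)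
    refine ⟨fun i => y (h (2 * i + 1)), fun j => b (h (2 * j)), ?_, hRi, ?_, hVi, key.1, key.2⟩
    · intro i hi
      have := (d.hY _).1 (hyY (2 * i + 1) (by omega)).1
      exact this
    · intro j hj
      exact (d.hJ _).1 (hbJ' _ (by omega))

end Pool.Agent.H.MP_9123af_lc
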